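import Mathlib
import Pool.Agent.K1H89.PL.A16

/-! Counts of primes in short progressions `V + q t`, `t < M`. -/

set_option autoImplicit false

namespace Pool.Agent.K1H93.SH

open Finset Pool.Agent.K1H89.PL Filter

/-- the number of `t < M` such that `|V + q t|` is prime -/
def cn (V : ℤ) (q M : ℕ) : ℕ := ((range M).filter (fun t : ℕ => (V + q * t).natAbs.Prime)).card

lemma cn_eq_card (V x : ℤ) (q M : ℕ) (hq : 1 ≤ q) :
    ((range M).filter (fun t : ℕ => V + q * (t : ℤ) = x)).card ≤ 1 := by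
  have hq' : (q : ℤ) ≠ 0 := by
    have : q ≠ 0 := by omega
    exact_mod_cast this
  rw [card_le_one]
  intro a ha b hb
  rw [mem_filter] at ha hb
  have h5 : (q : ℤ) * a = q * b := by linarith [ha.2, hb.2]
  have h6 := mul_left_cancel₀ hq' h5
  exact_mod_cast h6

lemma cn_not_coprime (V : ℤ) (q M : ℕ) (hq : 1 ≤ q) (h : ¬ IsCoprime V (q : ℤ)) : cn V q M ≤ 2 := by
  set g : ℕ := Int.gcd V q with hg
  have hg1 : g ≠ 1 := fun h' => h (Int.isCoprime_iff_gcd_eq_one.2 h')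
  have hsub : (range M).filter (fun t : ℕ => (V + q * t).natAbs.Prime) ⊆
      (range M).filter (fun t : ℕ => V + q * (t : ℤ) = g) ∪ (range M).filter (fun t : ℕ => V + q * (t : ℤ) = -g) := by
    intro t ht
    rw [mem_filter] at ht
    obtain ⟨ht1, hp⟩ := ht
    have h5 : (g : ℤ) ∣ V + q * t :=
      dvd_add (Int.gcd_dvd_left V (q : ℤ)) (dvd_mul_of_dvd_left (Int.gcd_dvd_right V (q : ℤ)) _)
    have h6 : g ∣ (V + q * (t : ℤ)).natAbs := Int.natCast_dvd.1 h5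
    rw [mem_union, mem_filter, mem_filter]
    rcases (Nat.dvd_prime hp).1 h6 with h7 | h7
    · exact absurd h7 hg1
    · rcases Int.natAbs_eq (V + q * (t : ℤ)) with h8 | h8
      · left; exact ⟨ht1, by rw [h7]; exact h8⟩
      · right; exact ⟨ht1, by rw [h7]; exact h8⟩
  calc cn V q M ≤ _ := card_le_card hsub
    _ ≤ _ := card_union_le _ _
    _ ≤ 1 + 1 := add_le_add (cn_eq_card V g q M hq) (cn_eq_card V (-g) q M hq)

/-- few `t` with `|V + q t| ≤ Z` -/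
lemma few_le (V : ℤ) (q M : ℕ) (hq : 1 ≤ q) (Z : ℝ) (hZ : 0 ≤ Z) :
    (((range M).filter (fun t : ℕ => |((V + q * (t : ℤ) : ℤ) : ℝ)| ≤ Z)).card : ℝ) ≤ 2 * Z + 1 := by
  have hq' : (q : ℤ) ≠ 0 := by
    have : q ≠ 0 := by omega
    exact_mod_cast this
  have hcard : ((range M).filter (fun t : ℕ => |((V + q * (t : ℤ) : ℤ) : ℝ)| ≤ Z)).card ≤
      (Icc (-(⌊Z⌋₊ : ℤ)) ⌊Z⌋₊).card := by
    apply card_le_card_of_injOn (fun t : ℕ => V + q * (t : ℤ))
    · intro t ht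
      rw [mem_coe, mem_filter] at ht
      rw [mem_coe, mem_Icc]
      have h1 := abs_le.1 ht.2
      have h2 : ((V + q * (t : ℤ)).natAbs : ℝ) ≤ Z := by
        rw [Nat.cast_natAbs, Int.cast_abs]; exact ht.2
      have h3 : (V + q * (t : ℤ)).natAbs ≤ ⌊Z⌋₊ := Nat.le_floor h2
      obtain ⟨y, hy⟩ : ∃ y, y = V + q * (t : ℤ) := ⟨_, rfl⟩
      change -(⌊Z⌋₊ : ℤ) ≤ V + q * (t : ℤ) ∧ V + q * (t : ℤ) ≤ ⌊Z⌋₊
      rw [← hy] at h3 ⊢
      omega
    · intro a _ b _ hab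
      have h5 : (q : ℤ) * a = q * b := by linarith [hab]
      have h6 := mul_left_cancel₀ hq' h5
      exact_mod_cast h6
  have h2 : ((Icc (-(⌊Z⌋₊ : ℤ)) ⌊Z⌋₊).card : ℝ) = 2 * ⌊Z⌋₊ + 1 := by
    rw [Int.card_Icc]
    have : ((⌊Z⌋₊ : ℤ) + 1 - -(⌊Z⌋₊ : ℤ)).toNat = 2 * ⌊Z⌋₊ + 1 := by omega
    rw [this]; push_cast; ring
  have h3 : (((range M).filter (fun t : ℕ => |((V + q * (t : ℤ) : ℤ) : ℝ)| ≤ Z)).card : ℝ) ≤
      ((Icc (-(⌊Z⌋₊ : ℤ)) ⌊Z⌋₊).card : ℝ) := by exact_mod_cast hcard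
  rw [h2] at h3
  have h4 := Nat.floor_le hZ
  linarith

lemma evN (P : ℝ → Prop) (h : ∀ᶠ x : ℝ in Filter.atTop, P x) : ∃ N₀ : ℕ, ∀ N : ℕ, N₀ ≤ N → P N := by
  obtain ⟨x0, hx0⟩ := Filter.eventually_atTop.1 h
  exact ⟨⌈x0⌉₊, fun N hN => hx0 N ((Nat.le_ceil _).trans (by exact_mod_cast hN))⟩

lemma arith_up (η l ρ Y S c1 c2 Z : ℝ) (hη0 : 0 < η) (hη1 : η ≤ 1) (hl0 : 16 ≤ l) (hlη : 1 / l ≤ η / 16) (hρ1 : 1 ≤ ρ)
    (hY0 : 0 < Y) (hZ : Z = Y / l ^ 2) (hlY : l ^ 2 ≤ Y) (h1 : c1 ≤ 2 * Z + 1) (hbig : c2 * ((1 - η / 4) * l) ≤ S)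
    (hS : S ≤ ρ * Y + Y / l) : c1 + c2 ≤ (1 + η) * (ρ * Y / l) := by
  have hl' : (0 : ℝ) < l := by linarith
  have hη4 : 0 < (1 - η / 4) * l := by
    apply mul_pos <;> linarith
  have h8 : c2 ≤ (ρ * Y + Y / l) / ((1 - η / 4) * l) := by
    rw [le_div_iff₀ hη4]
    exact hbig.trans hS
  have e5 : Y / l ≤ (ρ * Y) * (η / 16) := by
    calc Y / l = Y * (1 / l) := by ring
      _ ≤ (ρ * Y) * (η / 16) := by
        apply mul_le_mul _ hlη (by positivity) (by positivity)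
        nlinarith
  have e0 : 0 ≤ ρ * Y := by positivity
  have h9 : (ρ * Y + Y / l) / ((1 - η / 4) * l) ≤ (1 + η / 2) * (ρ * Y / l) := by
    rw [div_le_iff₀ hη4]
    have e1 : (1 + η / 2) * (ρ * Y / l) * ((1 - η / 4) * l) = (ρ * Y) * ((1 + η / 2) * (1 - η / 4)) := by
      field_simp
    rw [e1]
    have e3 : 1 + η / 16 ≤ (1 + η / 2) * (1 - η / 4) := by nlinarith
    have e4 := mul_le_mul_of_nonneg_left e3 e0
    linarith
  have h10 : 2 * Z + 1 ≤ (η / 2) * (ρ * Y / l) := by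
    have e1 : Z = (Y / l) * (1 / l) := by rw [hZ]; field_simp
    have e2 : (1 : ℝ) ≤ (Y / l) * (1 / l) := by
      rw [← e1, hZ, le_div_iff₀ (by positivity)]
      linarith
    have e3 : Y / l ≤ ρ * Y / l := by
      apply div_le_div_of_nonneg_right _ hl'.le
      nlinarith
    have e4 : (0 : ℝ) ≤ Y / l := by positivity
    calc 2 * Z + 1 ≤ 3 * ((Y / l) * (1 / l)) := by rw [e1]; linarith
      _ ≤ 3 * ((Y / l) * (η / 16)) := by gcongr
      _ ≤ (η / 2) * (Y / l) := by nlinarith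
      _ ≤ _ := by gcongr
  linarith

lemma arith_low (η l ρ Y S c : ℝ) (hη0 : 0 < η) (hη1 : η ≤ 1) (hl0 : 16 ≤ l) (hlη : 1 / l ≤ η / 16) (hρ1 : 1 ≤ ρ)
    (hY0 : 0 < Y) (hS : ρ * Y - Y / l ≤ S) (hScn : S ≤ c * ((1 + η / 4) * l)) : (1 - η) * (ρ * Y / l) ≤ c := by
  have hl' : (0 : ℝ) < l := by linarith
  have e5 : Y / l ≤ (ρ * Y) * (η / 16) := by
    calc Y / l = Y * (1 / l) := by ring
      _ ≤ (ρ * Y) * (η / 16) := by
        apply mul_le_mul _ hlη (by positivity) (by positivity)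
        nlinarith
  have e6 : 0 ≤ ρ * Y := by positivity
  have h6 : (1 - η / 16) * (ρ * Y) ≤ c * ((1 + η / 4) * l) := by linarith
  have e7 : (1 - η) * (1 + η / 4) ≤ 1 - η / 16 := by nlinarith
  have h7 : (1 - η) * (ρ * Y / l) * ((1 + η / 4) * l) ≤ c * ((1 + η / 4) * l) := by
    have e8 : (1 - η) * (ρ * Y / l) * ((1 + η / 4) * l) = (ρ * Y) * ((1 - η) * (1 + η / 4)) := by
      field_simp
    rw [e8]
    have e9 := mul_le_mul_of_nonneg_left e7 e6
    linarith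
  exact le_of_mul_le_mul_right h7 (by positivity)

lemma log_ev (B : ℕ) (η : ℝ) (hη0 : 0 < η) : ∃ Y0 : ℕ, ∀ Y : ℕ, Y0 ≤ Y → 16 / η ≤ Real.log Y ∧
    ((B : ℝ) + 3) * Real.log (Real.log Y) ≤ (η / 4) * Real.log Y ∧ Real.log Y ^ 2 ≤ Y := by
  refine evN (fun y : ℝ => 16 / η ≤ Real.log y ∧ ((B : ℝ) + 3) * Real.log (Real.log y) ≤ (η / 4) * Real.log y ∧
    Real.log y ^ 2 ≤ y) ?_
  have e1 := Real.tendsto_log_atTop.eventually_ge_atTop (16 / η)
  have e2 : ∀ᶠ y : ℝ in atTop, ‖Real.log y‖ ≤ (η / 4 / (B + 3)) * ‖y‖ :=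
    (Real.isLittleO_log_id_atTop).def (by positivity)
  have e3 := Real.tendsto_log_atTop.eventually e2
  have e4 : ∀ᶠ y : ℝ in atTop, ‖Real.log y ^ 2‖ ≤ 1 * ‖y‖ :=
    (Real.isLittleO_pow_log_id_atTop (n := 2)).def (by positivity)
  filter_upwards [e1, e3, e4, eventually_ge_atTop 1, Real.tendsto_log_atTop.eventually_ge_atTop 1] with y a1 a3 a4 a5 a6
  refine ⟨a1, ?_, ?_⟩
  · rw [Real.norm_of_nonneg (Real.log_nonneg a6), Real.norm_of_nonneg (by linarith)] at a3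
    have hB : (0 : ℝ) < B + 3 := by positivity
    calc ((B : ℝ) + 3) * Real.log (Real.log y) ≤ (B + 3) * ((η / 4 / (B + 3)) * Real.log y) := by gcongr
      _ = (η / 4) * Real.log y := by field_simp
  · rw [Real.norm_of_nonneg (by positivity), Real.norm_of_nonneg (by linarith)] at a4
    linarith

/-- The number of primes in a progression of length `Y` at the scale `Y`. -/
theorem cn_bounds (B : ℕ) (η : ℝ) (hη0 : 0 < η) (hη1 : η ≤ 1) : ∃ Y0 : ℕ, ∀ Y : ℕ, Y0 ≤ Y → ∀ q : ℕ, 1 ≤ q →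
    (q : ℝ) ≤ Real.log Y ^ B → ∀ V : ℤ, |(V : ℝ)| ≤ Y * Real.log Y ^ B →
    (cn V q Y : ℝ) ≤ (1 + η) * (rho q * Y / Real.log Y) ∧
    (IsCoprime V (q : ℤ) → (1 - η) * (rho q * Y / Real.log Y) ≤ cn V q Y) := by
  obtain ⟨Y1, h1⟩ := one_dim 1 (B + 1)
  obtain ⟨Y2, h2⟩ := log_ev B η hη0
  refine ⟨max (max Y1 Y2) 1, fun Y hY q hq hqB V hV => ?_⟩
  obtain ⟨hl16, hll, hlY⟩ := h2 Y (by omega)
  have hY1 : 1 ≤ Y := by omega
  have hY0 : (0 : ℝ) < Y := by exact_mod_cast (by omega : 0 < Y)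
  have h1' := h1 Y (by omega) q hq
  clear h1 h2
  generalize hl : Real.log (Y : ℝ) = l at *
  have h16 : (16 : ℝ) ≤ 16 / η := by rw [le_div_iff₀ hη0]; nlinarith
  have hl0 : 16 ≤ l := h16.trans hl16
  have hlη : 1 / l ≤ η / 16 := by
    rw [div_le_div_iff₀ (by linarith) (by norm_num)]
    rw [div_le_iff₀ hη0] at hl16
    linarith
  have hlB : l ^ B * 2 ≤ l ^ (B + 1) := by
    rw [pow_succ]
    have : (0 : ℝ) ≤ l ^ B := by positivity
    nlinarith
  have hlBnn : (0 : ℝ) < l ^ B := by positivity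
  have hV' : |(V : ℝ)| ≤ Y * l ^ (B + 1) := hV.trans (by
    apply mul_le_mul_of_nonneg_left _ hY0.le
    linarith)
  have hqY : ∀ t : ℝ, 0 ≤ t → t ≤ Y → |(V : ℝ) + q * t| ≤ Y * l ^ (B + 1) := by
    intro t ht0 htY
    calc |(V : ℝ) + q * t| ≤ |(V : ℝ)| + |(q : ℝ) * t| := abs_add_le _ _
      _ ≤ Y * l ^ B + Y * l ^ B := by
          apply add_le_add hV
          rw [abs_of_nonneg (by positivity)]
          calc (q : ℝ) * t ≤ l ^ B * Y := by gcongr
            _ = _ := by ring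
      _ = Y * (l ^ B * 2) := by ring
      _ ≤ _ := mul_le_mul_of_nonneg_left hlB hY0.le
  have hS := h1' (hqB.trans (by linarith)) V Y hV' (hqY Y hY0.le le_rfl)
  rw [pow_one] at hS
  have hρ1 : 1 ≤ rho q := rho_ge hq
  have hρdef : (q : ℝ) / (Nat.totient q : ℝ) = rho q := rfl
  rw [hρdef] at hS
  have hll0 : (0 : ℝ) ≤ Real.log l := Real.log_nonneg (by linarith)
  have hB0 : (0 : ℝ) ≤ B := Nat.cast_nonneg _
  constructor
  · -- upper bound
    obtain ⟨Z, hZ⟩ : ∃ Z : ℝ, Z = Y / l ^ 2 := ⟨_, rfl⟩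
    have hZ0 : 0 < Z := by rw [hZ]; positivity
    have hlogZ : (1 - η / 4) * l ≤ Real.log Z := by
      rw [hZ, Real.log_div hY0.ne' (by positivity), Real.log_pow, hl]
      have h6 : ((2 : ℕ) : ℝ) * Real.log l ≤ (B + 3) * Real.log l := by
        apply mul_le_mul_of_nonneg_right _ hll0
        push_cast; linarith
      have h7 := h6.trans hll
      linarith
    have hsplit : (cn V q Y : ℝ) ≤
        (((range Y).filter (fun t : ℕ => |((V + q * (t : ℤ) : ℤ) : ℝ)| ≤ Z)).card : ℝ) +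
        (((range Y).filter (fun t : ℕ => (V + q * (t : ℤ)).natAbs.Prime ∧ Z < |((V + q * (t : ℤ) : ℤ) : ℝ)|)).card : ℝ) := by
      have : cn V q Y ≤ ((range Y).filter (fun t : ℕ => |((V + q * (t : ℤ) : ℤ) : ℝ)| ≤ Z)).card +
        ((range Y).filter (fun t : ℕ => (V + q * (t : ℤ)).natAbs.Prime ∧ Z < |((V + q * (t : ℤ) : ℤ) : ℝ)|)).card := by
        refine le_trans (card_le_card ?_) (card_union_le _ _)
        intro t ht
        rw [mem_filter] at ht
        rw [mem_union, mem_filter, mem_filter]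
        rcases le_or_gt (|((V + q * (t : ℤ) : ℤ) : ℝ)|) Z with h | h
        · left; exact ⟨ht.1, h⟩
        · right; exact ⟨ht.1, ht.2, h⟩
      exact_mod_cast this
    have hbig : (((range Y).filter (fun t : ℕ => (V + q * (t : ℤ)).natAbs.Prime ∧ Z < |((V + q * (t : ℤ) : ℤ) : ℝ)|)).card : ℝ) *
        ((1 - η / 4) * l) ≤ ∑ t ∈ range Y, th (V + q * t) := by
      rw [← nsmul_eq_mul, ← sum_const]
      refine le_trans (sum_le_sum ?_) (sum_le_sum_of_subset_of_nonneg (filter_subset _ _) fun t _ _ => th_nonneg _)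
      intro t ht
      rw [mem_filter] at ht
      obtain ⟨_, hp, hz⟩ := ht
      unfold th
      rw [if_pos hp]
      refine hlogZ.trans (Real.log_le_log hZ0 ?_)
      rw [Nat.cast_natAbs, Int.cast_abs]
      exact hz.le
    have hSup : ∑ t ∈ range Y, th (V + q * t) ≤ rho q * Y + Y / l := by
      have h5 := (abs_le.1 hS).2
      have h6 : (if IsCoprime V (q : ℤ) then rho q * (Y : ℝ) else 0) ≤ rho q * Y := by
        split_ifs
        · exact le_rfl
        · positivity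
      linarith
    exact hsplit.trans (arith_up η l (rho q) Y _ _ _ Z hη0 hη1 hl0 hlη hρ1 hY0 hZ hlY (few_le V q Y hq Z hZ0.le) hbig hSup)
  · intro hc
    rw [if_pos hc] at hS
    have hSlow : rho q * Y - Y / l ≤ ∑ t ∈ range Y, th (V + q * t) := by
      have h5 := (abs_le.1 hS).1
      linarith
    have hX1 : (1 : ℝ) ≤ Y * l ^ (B + 1) := by
      have h5 : (1 : ℝ) ≤ Y := by exact_mod_cast hY1
      have h6 : (1 : ℝ) ≤ l ^ (B + 1) := one_le_pow₀ (by linarith)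
      nlinarith
    have hlogX : Real.log (Y * l ^ (B + 1)) ≤ (1 + η / 4) * l := by
      rw [Real.log_mul hY0.ne' (by positivity), Real.log_pow, hl]
      have h6 : ((B + 1 : ℕ) : ℝ) * Real.log l ≤ (B + 3) * Real.log l := by
        apply mul_le_mul_of_nonneg_right _ hll0
        push_cast; linarith
      have h7 := h6.trans hll
      linarith
    have hScn : ∑ t ∈ range Y, th (V + q * t) ≤ (cn V q Y : ℝ) * ((1 + η / 4) * l) := by
      have e1 : ∑ t ∈ range Y, th (V + q * t) =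
          ∑ t ∈ (range Y).filter (fun t : ℕ => (V + q * (t : ℤ)).natAbs.Prime), th (V + q * t) := by
        rw [sum_filter]
        apply sum_congr rfl
        intro t _
        unfold th
        split_ifs <;> rfl
      rw [e1]
      unfold cn
      rw [← nsmul_eq_mul]
      apply sum_le_card_nsmul
      intro t ht
      rw [mem_filter, mem_range] at ht
      refine (th_le_log hX1 ?_).trans hlogX
      push_cast
      exact hqY t (Nat.cast_nonneg _) (by exact_mod_cast ht.1.le)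
    exact arith_low η l (rho q) Y _ _ hη0 hη1 hl0 hlη hρ1 hY0 hSlow hScn

end Pool.Agent.K1H93.SH
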