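import Mathlib

/-! Boxes of coefficient vectors and averaging over shifts. -/

set_option autoImplicit false

namespace Pool.Agent.K1H93.SH

open Finset

/-- the box `[0, L)^N` -/
noncomputable def bx (N L : ℕ) : Finset (Fin N → ℤ) := Fintype.piFinset (fun _ => Ico (0 : ℤ) L)

lemma bx_card (N L : ℕ) : (bx N L).card = L ^ N := by
  unfold bx
  rw [Fintype.card_piFinset]
  simp

lemma transfer_up {N : ℕ} {S : Type} [Fintype S] (σ : S → Fin N → ℤ) (R : Fin N → ℕ) (hσ : ∀ s i, |σ s i| ≤ R i)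
    (hS : 0 < Fintype.card S) (L : ℕ) (Φ : (Fin N → ℤ) → ℝ) (hΦ : ∀ b, 0 ≤ Φ b) (M : ℝ)
    (hM : ∀ b : Fin N → ℤ, (∀ i, -(R i : ℤ) ≤ b i ∧ b i < L + R i) → ∑ s, Φ (b + σ s) ≤ M * Fintype.card S) :
    ∑ b ∈ bx N L, Φ b ≤ M * ∏ i, ((L : ℝ) + 2 * R i) := by
  classical
  set big : Finset (Fin N → ℤ) := Fintype.piFinset (fun i => Ico (-(R i : ℤ)) (L + R i)) with hbig
  have hcard : (big.card : ℝ) = ∏ i, ((L : ℝ) + 2 * R i) := by
    rw [hbig, Fintype.card_piFinset]
    push_cast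
    apply prod_congr rfl
    intro i _
    rw [Int.card_Ico]
    have : ((L : ℤ) + R i - -(R i : ℤ)).toNat = L + 2 * R i := by omega
    rw [this]
    push_cast
    ring
  have h1 : ∀ s : S, ∑ b ∈ bx N L, Φ b ≤ ∑ b ∈ big, Φ (b + σ s) := by
    intro s
    calc ∑ b ∈ bx N L, Φ b = ∑ b ∈ (bx N L).map (Equiv.subRight (σ s)).toEmbedding, Φ (b + σ s) := by
          rw [sum_map]
          apply sum_congr rfl
          intro b _
          simp
      _ ≤ _ := by
          apply sum_le_sum_of_subset_of_nonneg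
          · intro b hb
            rw [mem_map] at hb
            obtain ⟨a, ha, rfl⟩ := hb
            unfold bx at ha
            rw [Fintype.mem_piFinset] at ha
            rw [hbig, Fintype.mem_piFinset]
            intro i
            have h2 := ha i
            have h3 := abs_le.1 (hσ s i)
            rw [mem_Ico] at h2 ⊢
            simp only [Equiv.coe_toEmbedding, Equiv.subRight_apply, Pi.sub_apply]
            omega
          · intro b _ _
            exact hΦ _
  have h2 : (Fintype.card S : ℝ) * ∑ b ∈ bx N L, Φ b ≤ (Fintype.card S : ℝ) * (M * ∏ i, ((L : ℝ) + 2 * R i)) := by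
    calc (Fintype.card S : ℝ) * ∑ b ∈ bx N L, Φ b = ∑ _s : S, ∑ b ∈ bx N L, Φ b := by
          rw [sum_const, card_univ, nsmul_eq_mul]
      _ ≤ ∑ s : S, ∑ b ∈ big, Φ (b + σ s) := sum_le_sum fun s _ => h1 s
      _ = ∑ b ∈ big, ∑ s : S, Φ (b + σ s) := sum_comm
      _ ≤ ∑ _b ∈ big, M * Fintype.card S := by
          apply sum_le_sum
          intro b hb
          apply hM
          rw [hbig, Fintype.mem_piFinset] at hb
          intro i
          exact mem_Ico.1 (hb i)
      _ = _ := by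
          rw [sum_const, nsmul_eq_mul, hcard]
          ring
  exact le_of_mul_le_mul_left h2 (by exact_mod_cast hS)

lemma transfer_low {N : ℕ} {S : Type} [Fintype S] (σ : S → Fin N → ℤ) (R : Fin N → ℕ) (hσ : ∀ s i, |σ s i| ≤ R i)
    (hS : 0 < Fintype.card S) (L : ℕ) (hR : ∀ i, 2 * R i ≤ L) (Φ : (Fin N → ℤ) → ℝ) (hΦ : ∀ b, 0 ≤ Φ b) (M : ℝ)
    (hM : ∀ b : Fin N → ℤ, (∀ i, 0 ≤ b i ∧ b i < L) → M * Fintype.card S ≤ ∑ s, Φ (b + σ s)) :
    M * ∏ i, ((L : ℝ) - 2 * R i) ≤ ∑ b ∈ bx N L, Φ b := by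
  classical
  set sm : Finset (Fin N → ℤ) := Fintype.piFinset (fun i => Ico (R i : ℤ) (L - R i)) with hsm
  have hcard : (sm.card : ℝ) = ∏ i, ((L : ℝ) - 2 * R i) := by
    rw [hsm, Fintype.card_piFinset]
    push_cast
    apply prod_congr rfl
    intro i _
    rw [Int.card_Ico]
    have h := hR i
    have : ((L : ℤ) - R i - (R i : ℤ)).toNat = L - 2 * R i := by omega
    rw [this, Nat.cast_sub h]
    push_cast
    ring
  have h1 : ∀ s : S, ∑ b ∈ sm, Φ (b + σ s) ≤ ∑ b ∈ bx N L, Φ b := by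
    intro s
    calc ∑ b ∈ sm, Φ (b + σ s) = ∑ b ∈ sm.map (Equiv.addRight (σ s)).toEmbedding, Φ b := by
          rw [sum_map]
          apply sum_congr rfl
          intro b _
          simp
      _ ≤ _ := by
          apply sum_le_sum_of_subset_of_nonneg
          · intro b hb
            rw [mem_map] at hb
            obtain ⟨a, ha, rfl⟩ := hb
            rw [hsm, Fintype.mem_piFinset] at ha
            unfold bx
            rw [Fintype.mem_piFinset]
            intro i
            have h2 := ha i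
            have h3 := abs_le.1 (hσ s i)
            rw [mem_Ico] at h2 ⊢
            simp only [Equiv.coe_toEmbedding, Equiv.coe_addRight, Pi.add_apply]
            omega
          · intro b _ _
            exact hΦ _
  have h2 : (Fintype.card S : ℝ) * (M * ∏ i, ((L : ℝ) - 2 * R i)) ≤ (Fintype.card S : ℝ) * ∑ b ∈ bx N L, Φ b := by
    calc (Fintype.card S : ℝ) * (M * ∏ i, ((L : ℝ) - 2 * R i)) = ∑ _b ∈ sm, M * Fintype.card S := by
          rw [sum_const, nsmul_eq_mul, hcard]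
          ring
      _ ≤ ∑ b ∈ sm, ∑ s : S, Φ (b + σ s) := by
          apply sum_le_sum
          intro b hb
          apply hM
          rw [hsm, Fintype.mem_piFinset] at hb
          intro i
          have := mem_Ico.1 (hb i)
          omega
      _ = ∑ s : S, ∑ b ∈ sm, Φ (b + σ s) := sum_comm
      _ ≤ ∑ _s : S, ∑ b ∈ bx N L, Φ b := sum_le_sum fun s _ => h1 s
      _ = _ := by
          rw [sum_const, card_univ, nsmul_eq_mul]
  exact le_of_mul_le_mul_left h2 (by exact_mod_cast hS)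

lemma prod_up {N : ℕ} (L : ℕ) (hL : 0 < L) (R : Fin N → ℕ) :
    ∏ i, ((L : ℝ) + 2 * R i) ≤ (L : ℝ) ^ N * Real.exp (2 * (∑ i, (R i : ℝ)) / L) := by
  have hL0 : (0 : ℝ) < L := by exact_mod_cast hL
  calc ∏ i, ((L : ℝ) + 2 * R i) ≤ ∏ i, ((L : ℝ) * Real.exp (2 * (R i : ℝ) / L)) := by
        apply prod_le_prod
        · intro i _
          positivity
        · intro i _
          have h := Real.add_one_le_exp (2 * (R i : ℝ) / L)
          have h2 := mul_le_mul_of_nonneg_left h hL0.le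
          refine le_trans (le_of_eq ?_) h2
          field_simp
          ring
    _ = _ := by
        rw [prod_mul_distrib, prod_const, card_univ, Fintype.card_fin, ← Real.exp_sum]
        congr 2
        rw [mul_sum, sum_div]

lemma one_sub_sum_le {ι : Type} (s : Finset ι) (y : ι → ℝ) (h0 : ∀ i ∈ s, 0 ≤ y i) (h1 : ∀ i ∈ s, y i ≤ 1) :
    1 - ∑ i ∈ s, y i ≤ ∏ i ∈ s, (1 - y i) := by
  classical
  induction s using Finset.induction_on with
  | empty => simp
  | insert i s hi ih =>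
    rw [sum_insert hi, prod_insert hi]
    have a1 := ih (fun j hj => h0 j (mem_insert_of_mem hj)) (fun j hj => h1 j (mem_insert_of_mem hj))
    have a2 := h0 i (mem_insert_self _ _)
    have a3 := h1 i (mem_insert_self _ _)
    have a4 : 0 ≤ ∑ j ∈ s, y j := sum_nonneg fun j hj => h0 j (mem_insert_of_mem hj)
    have a5 := mul_le_mul_of_nonneg_left a1 (by linarith : 0 ≤ 1 - y i)
    nlinarith

lemma prod_low {N : ℕ} (L : ℕ) (hL : 0 < L) (R : Fin N → ℕ) (hR : ∀ i, 2 * R i ≤ L) :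
    (L : ℝ) ^ N * (1 - 2 * (∑ i, (R i : ℝ)) / L) ≤ ∏ i, ((L : ℝ) - 2 * R i) := by
  have hL0 : (0 : ℝ) < L := by exact_mod_cast hL
  have h1 := one_sub_sum_le (univ : Finset (Fin N)) (fun i => 2 * (R i : ℝ) / L) (fun i _ => by positivity) (fun i _ => by
    rw [div_le_one hL0]
    exact_mod_cast hR i)
  have e1 : ∏ i, ((L : ℝ) - 2 * R i) = (L : ℝ) ^ N * ∏ i, (1 - 2 * (R i : ℝ) / L) := by
    calc ∏ i, ((L : ℝ) - 2 * R i) = ∏ i, ((L : ℝ) * (1 - 2 * (R i : ℝ) / L)) := by
          apply prod_congr rfl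
          intro i _
          field_simp
      _ = _ := by
          rw [prod_mul_distrib, prod_const, card_univ, Fintype.card_fin]
  rw [e1]
  apply mul_le_mul_of_nonneg_left _ (by positivity)
  refine le_trans (le_of_eq ?_) h1
  rw [mul_sum, sum_div]

/-- the value at `n` of the polynomial with the coefficients `b` -/
def ev {N : ℕ} (b : Fin N → ℤ) (n : ℤ) : ℤ := ∑ i, b i * n ^ (i : ℕ)

lemma ev_add {N : ℕ} (a b : Fin N → ℤ) (n : ℤ) : ev (a + b) n = ev a n + ev b n := by
  unfold ev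
  rw [← sum_add_distrib]
  apply sum_congr rfl
  intro i _
  simp only [Pi.add_apply]
  ring

lemma ev_sub {N : ℕ} (a b : Fin N → ℤ) (n : ℤ) : ev (a - b) n = ev a n - ev b n := by
  unfold ev
  rw [← sum_sub_distrib]
  apply sum_congr rfl
  intro i _
  simp only [Pi.sub_apply]
  ring

lemma ev_smul {N : ℕ} (c : ℤ) (b : Fin N → ℤ) (n : ℤ) : ev (c • b) n = c * ev b n := by
  unfold ev
  rw [mul_sum]
  apply sum_congr rfl
  intro i _
  simp only [Pi.smul_apply, smul_eq_mul]
  ring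

/-- multiplication by `X` -/
def sX {N : ℕ} (b : Fin N → ℤ) : Fin (N + 1) → ℤ := Fin.cons 0 b

/-- the same polynomial, one coefficient more -/
def s1 {N : ℕ} (b : Fin N → ℤ) : Fin (N + 1) → ℤ := Fin.snoc b 0

lemma ev_sX {N : ℕ} (b : Fin N → ℤ) (n : ℤ) : ev (sX b) n = n * ev b n := by
  unfold ev sX
  rw [Fin.sum_univ_succ, mul_sum]
  simp only [Fin.cons_zero, zero_mul, zero_add, Fin.cons_succ, Fin.val_succ]
  apply sum_congr rfl
  intro i _
  ring

lemma ev_s1 {N : ℕ} (b : Fin N → ℤ) (n : ℤ) : ev (s1 b) n = ev b n := by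
  unfold ev s1
  rw [Fin.sum_univ_castSucc]
  simp only [Fin.snoc_last, zero_mul, add_zero, Fin.snoc_castSucc, Fin.val_castSucc]

/-- the digits -/
def dg {d n M : ℕ} (c : (Fin d → Fin n) × Fin M) : Fin (d + 1) → ℤ := Fin.snoc (fun i => ((c.1 i : ℕ) : ℤ)) ((c.2 : ℕ) : ℤ)

lemma ev_dg {d n M : ℕ} (c : (Fin d → Fin n) × Fin M) :
    ev (dg c) n = (((finFunctionFinEquiv c.1 : ℕ) + n ^ d * (c.2 : ℕ) : ℕ) : ℤ) := by
  unfold ev dg
  rw [Fin.sum_univ_castSucc]
  simp only [Fin.snoc_last, Fin.snoc_castSucc, Fin.val_castSucc, Fin.val_last, finFunctionFinEquiv_apply_val]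
  push_cast
  ring

lemma sum_dg {d n M : ℕ} (F : ℤ → ℝ) :
    ∑ c : (Fin d → Fin n) × Fin M, F (ev (dg c) n) = ∑ t ∈ range (M * n ^ d), F (t : ℤ) := by
  rw [← Fin.sum_univ_eq_sum_range (fun t : ℕ => F (t : ℤ)) (M * n ^ d)]
  have e : ((Fin d → Fin n) × Fin M) ≃ Fin (M * n ^ d) :=
    (Equiv.prodComm _ _).trans ((Equiv.prodCongr (Equiv.refl _) finFunctionFinEquiv).trans finProdFinEquiv)
  apply Fintype.sum_equiv ((Equiv.prodComm _ _).trans ((Equiv.prodCongr (Equiv.refl _) finFunctionFinEquiv).trans finProdFinEquiv))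
  intro c
  rw [ev_dg]
  rfl

lemma card_dg (d n M : ℕ) : Fintype.card ((Fin d → Fin n) × Fin M) = M * n ^ d := by
  simp [mul_comm]

end Pool.Agent.K1H93.SH
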