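import Mathlib
import Pool.Agent.K1H93.SH.A1
import Pool.Agent.K1H93.SH.A2

/-! One and two values of a random polynomial. -/

set_option autoImplicit false

namespace Pool.Agent.K1H93.SH

open Finset

/-- the sizes of the digits -/
def dB (d x M : ℕ) : Fin (d + 1) → ℕ := Fin.snoc (fun _ => x) M

lemma dB_sum (d x M : ℕ) : ∑ i, (dB d x M i : ℝ) = d * x + M := by
  unfold dB
  rw [Fin.sum_univ_castSucc]
  simp

lemma dB_le {d x M L : ℕ} (hx : x ≤ L) (hM : M ≤ L) (i : Fin (d + 1)) : dB d x M i ≤ L := by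
  unfold dB
  refine Fin.lastCases ?_ (fun i => ?_) i
  · simpa using hM
  · simpa using hx

lemma dg_bound {d n M x : ℕ} (hn : n ≤ x) (c : (Fin d → Fin n) × Fin M) (i : Fin (d + 1)) :
    0 ≤ dg c i ∧ dg c i ≤ dB d x M i := by
  unfold dg dB
  refine Fin.lastCases ?_ (fun i => ?_) i
  · simp only [Fin.snoc_last]
    have := c.2.isLt
    omega
  · simp only [Fin.snoc_castSucc]
    have := (c.1 i).isLt
    omega

lemma one_up (d x M L n : ℕ) (hn : n ≤ x) (hn1 : 1 ≤ n) (hM : 1 ≤ M) (hL : 0 < L) (hx : x ≤ L) (hML : M ≤ L)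
    (F : ℤ → ℝ) (hF : ∀ y, 0 ≤ F y) (U : ℝ) (hU : 0 ≤ U)
    (h : ∀ b : Fin (d + 1) → ℤ, (∀ i, |b i| ≤ 2 * L) → ∑ t ∈ range (M * n ^ d), F (ev b n + t) ≤ U * ((M * n ^ d : ℕ) : ℝ)) :
    ∑ b ∈ bx (d + 1) L, F (ev b n) ≤ U * ((L : ℝ) ^ (d + 1) * Real.exp (2 * (d * x + M) / L)) := by
  have hcard : 0 < Fintype.card ((Fin d → Fin n) × Fin M) := by
    rw [card_dg]
    positivity
  have h1 := transfer_up (fun c : (Fin d → Fin n) × Fin M => dg c) (dB d x M) (fun c i => by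
    rw [abs_le]
    have := dg_bound hn c i
    omega) hcard L (fun b => F (ev b n)) (fun b => hF _) U (by
    intro b hb
    simp only [ev_add]
    rw [sum_dg (fun y => F (ev b n + y)), card_dg]
    apply h
    intro i
    have h2 := hb i
    have h3 := dB_le (d := d) hx hML i
    rw [abs_le]
    omega)
  refine h1.trans ?_
  have h2 := prod_up L hL (dB d x M)
  rw [dB_sum] at h2
  exact mul_le_mul_of_nonneg_left h2 hU

lemma one_low (d x M L n : ℕ) (hn : n ≤ x) (hn1 : 1 ≤ n) (hM : 1 ≤ M) (hL : 0 < L) (hx : 2 * x ≤ L) (hML : 2 * M ≤ L)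
    (F : ℤ → ℝ) (hF : ∀ y, 0 ≤ F y) (U : ℝ) (hU : 0 ≤ U)
    (h : ∀ b : Fin (d + 1) → ℤ, (∀ i, |b i| ≤ 2 * L) → U * ((M * n ^ d : ℕ) : ℝ) ≤ ∑ t ∈ range (M * n ^ d), F (ev b n + t)) :
    U * ((L : ℝ) ^ (d + 1) * (1 - 2 * (d * x + M) / L)) ≤ ∑ b ∈ bx (d + 1) L, F (ev b n) := by
  have hcard : 0 < Fintype.card ((Fin d → Fin n) × Fin M) := by
    rw [card_dg]
    positivity
  have hR : ∀ i, 2 * dB d x M i ≤ L := by
    intro i
    unfold dB
    refine Fin.lastCases ?_ (fun i => ?_) i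
    · simpa using hML
    · simpa using hx
  have h1 := transfer_low (fun c : (Fin d → Fin n) × Fin M => dg c) (dB d x M) (fun c i => by
    rw [abs_le]
    have := dg_bound hn c i
    omega) hcard L hR (fun b => F (ev b n)) (fun b => hF _) U (by
    intro b hb
    simp only [ev_add]
    rw [sum_dg (fun y => F (ev b n + y)), card_dg]
    apply h
    intro i
    have h2 := hb i
    rw [abs_le]
    omega)
  refine le_trans ?_ h1
  have h2 := prod_low L hL (dB d x M) hR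
  rw [dB_sum] at h2
  exact mul_le_mul_of_nonneg_left h2 hU

/-- the sizes of the shifts for two values -/
def dB2 (d x M : ℕ) : Fin (d + 2) → ℕ := fun i =>
  2 * ((Fin.cons 0 (dB d x M) : Fin (d + 2) → ℕ) i + x * (Fin.snoc (dB d x M) 0 : Fin (d + 2) → ℕ) i)

lemma dB2_sum (d x M : ℕ) : ∑ i, (dB2 d x M i : ℝ) = 2 * ((1 + x) * (d * x + M)) := by
  have e1 : ∑ i, (((Fin.cons 0 (dB d x M) : Fin (d + 2) → ℕ) i : ℕ) : ℝ) = d * x + M := by
    rw [Fin.sum_univ_succ]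
    simp only [Fin.cons_zero, Fin.cons_succ, Nat.cast_zero, zero_add]
    exact dB_sum d x M
  have e2 : ∑ i, (((Fin.snoc (dB d x M) 0 : Fin (d + 2) → ℕ) i : ℕ) : ℝ) = d * x + M := by
    rw [Fin.sum_univ_castSucc]
    simp only [Fin.snoc_last, Fin.snoc_castSucc, Nat.cast_zero, add_zero]
    exact dB_sum d x M
  unfold dB2
  push_cast
  rw [← mul_sum, sum_add_distrib, ← mul_sum, e1, e2]
  ring

/-- the shift for two values -/
def sg {d n m M : ℕ} (c : ((Fin d → Fin n) × Fin M) × ((Fin d → Fin m) × Fin M)) : Fin (d + 2) → ℤ :=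
  (sX (dg c.1) - (m : ℤ) • s1 (dg c.1)) + (sX (dg c.2) - (n : ℤ) • s1 (dg c.2))

lemma ev_sg_left {d n m M : ℕ} (c : ((Fin d → Fin n) × Fin M) × ((Fin d → Fin m) × Fin M)) :
    ev (sg c) n = ((n : ℤ) - m) * ev (dg c.1) n := by
  unfold sg
  rw [ev_add, ev_sub, ev_sub, ev_smul, ev_smul, ev_sX, ev_sX, ev_s1, ev_s1]
  ring

lemma ev_sg_right {d n m M : ℕ} (c : ((Fin d → Fin n) × Fin M) × ((Fin d → Fin m) × Fin M)) :
    ev (sg c) m = ((m : ℤ) - n) * ev (dg c.2) m := by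
  unfold sg
  rw [ev_add, ev_sub, ev_sub, ev_smul, ev_smul, ev_sX, ev_sX, ev_s1, ev_s1]
  ring

lemma shift_bound {N : ℕ} (c : Fin N → ℤ) (B : Fin N → ℕ) (hc : ∀ i, 0 ≤ c i ∧ c i ≤ B i) (m x : ℕ) (hm : m ≤ x)
    (i : Fin (N + 1)) : |(sX c - (m : ℤ) • s1 c) i| ≤ (Fin.cons 0 B : Fin (N + 1) → ℕ) i + x * (Fin.snoc B 0 : Fin (N + 1) → ℕ) i := by
  have h1 : 0 ≤ sX c i ∧ sX c i ≤ ((Fin.cons 0 B : Fin (N + 1) → ℕ) i : ℤ) := by
    unfold sX
    refine Fin.cases ?_ (fun i => ?_) i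
    · simp
    · simp only [Fin.cons_succ]
      exact hc i
  have h2 : 0 ≤ s1 c i ∧ s1 c i ≤ ((Fin.snoc B 0 : Fin (N + 1) → ℕ) i : ℤ) := by
    unfold s1
    refine Fin.lastCases ?_ (fun i => ?_) i
    · simp
    · simp only [Fin.snoc_castSucc]
      exact hc i
  simp only [Pi.sub_apply, Pi.smul_apply, smul_eq_mul]
  have h3 : (m : ℤ) * s1 c i ≤ x * ((Fin.snoc B 0 : Fin (N + 1) → ℕ) i : ℤ) := by
    apply mul_le_mul (by exact_mod_cast hm) h2.2 h2.1 (by positivity)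
  have h4 : 0 ≤ (m : ℤ) * s1 c i := mul_nonneg (by positivity) h2.1
  have h5 : 0 ≤ ((Fin.cons 0 B : Fin (N + 1) → ℕ) i : ℤ) := by positivity
  rw [abs_le]
  constructor <;> linarith [h1.1, h1.2]

lemma sg_bound {d n m M x : ℕ} (hn : n ≤ x) (hm : m ≤ x) (c : ((Fin d → Fin n) × Fin M) × ((Fin d → Fin m) × Fin M))
    (i : Fin (d + 2)) : |sg c i| ≤ dB2 d x M i := by
  unfold sg dB2
  have h1 := shift_bound (dg c.1) (dB d x M) (fun i => dg_bound hn c.1 i) m x hm i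
  have h2 := shift_bound (dg c.2) (dB d x M) (fun i => dg_bound hm c.2 i) n x hn i
  rw [Pi.add_apply]
  refine (abs_add_le _ _).trans ?_
  push_cast
  linarith

lemma two_up (d x M L n m : ℕ) (hn : n ≤ x) (hn1 : 1 ≤ n) (hm : m ≤ x) (hm1 : 1 ≤ m) (hM : 1 ≤ M) (hL : 0 < L)
    (hR : ∀ i, dB2 d x M i ≤ L)
    (F1 F2 : ℤ → ℝ) (hF1 : ∀ y, 0 ≤ F1 y) (hF2 : ∀ y, 0 ≤ F2 y) (U1 U2 : ℝ) (hU1 : 0 ≤ U1) (hU2 : 0 ≤ U2)
    (h1 : ∀ b : Fin (d + 2) → ℤ, (∀ i, |b i| ≤ 2 * L) →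
      ∑ t ∈ range (M * n ^ d), F1 (ev b n + ((n : ℤ) - m) * t) ≤ U1 * ((M * n ^ d : ℕ) : ℝ))
    (h2 : ∀ b : Fin (d + 2) → ℤ, (∀ i, |b i| ≤ 2 * L) →
      ∑ t ∈ range (M * m ^ d), F2 (ev b m + ((m : ℤ) - n) * t) ≤ U2 * ((M * m ^ d : ℕ) : ℝ)) :
    ∑ b ∈ bx (d + 2) L, F1 (ev b n) * F2 (ev b m) ≤
      U1 * U2 * ((L : ℝ) ^ (d + 2) * Real.exp (2 * (2 * ((1 + x) * (d * x + M))) / L)) := by
  have hcard : 0 < Fintype.card (((Fin d → Fin n) × Fin M) × ((Fin d → Fin m) × Fin M)) := by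
    rw [Fintype.card_prod, card_dg, card_dg]
    positivity
  have h3 := transfer_up (fun c : ((Fin d → Fin n) × Fin M) × ((Fin d → Fin m) × Fin M) => sg c) (dB2 d x M)
    (fun c i => sg_bound hn hm c i) hcard L (fun b => F1 (ev b n) * F2 (ev b m)) (fun b => mul_nonneg (hF1 _) (hF2 _))
    (U1 * U2) (by
    intro b hb
    have hb' : ∀ i, |b i| ≤ 2 * L := by
      intro i
      have h2 := hb i
      have h3 := hR i
      rw [abs_le]
      omega
    simp only [ev_add, ev_sg_left, ev_sg_right]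
    rw [Fintype.sum_prod_type]
    simp only
    have e1 : ∀ c1 : (Fin d → Fin n) × Fin M,
        ∑ c2 : (Fin d → Fin m) × Fin M, F1 (ev b n + ((n : ℤ) - m) * ev (dg c1) n) * F2 (ev b m + ((m : ℤ) - n) * ev (dg c2) m) =
        F1 (ev b n + ((n : ℤ) - m) * ev (dg c1) n) * ∑ t ∈ range (M * m ^ d), F2 (ev b m + ((m : ℤ) - n) * t) := by
      intro c1
      rw [← mul_sum, sum_dg (fun y => F2 (ev b m + ((m : ℤ) - n) * y))]
    rw [sum_congr rfl (fun c1 _ => e1 c1), ← sum_mul, sum_dg (fun y => F1 (ev b n + ((n : ℤ) - m) * y)),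
      Fintype.card_prod, card_dg, card_dg]
    have a1 := h1 b hb'
    have a2 := h2 b hb'
    calc (∑ t ∈ range (M * n ^ d), F1 (ev b n + ((n : ℤ) - m) * t)) * ∑ t ∈ range (M * m ^ d), F2 (ev b m + ((m : ℤ) - n) * t)
        ≤ (U1 * ((M * n ^ d : ℕ) : ℝ)) * (U2 * ((M * m ^ d : ℕ) : ℝ)) :=
          mul_le_mul a1 a2 (sum_nonneg fun t _ => hF2 _) (by positivity)
      _ = _ := by push_cast; ring)
  refine h3.trans ?_
  have h4 := prod_up L hL (dB2 d x M)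
  rw [dB2_sum] at h4
  exact mul_le_mul_of_nonneg_left h4 (by positivity)

/-- the bound for the values of the polynomials with coefficients of size at most `2 L` -/
lemma ev_bound (N L n : ℕ) (hn : 1 ≤ n) (b : Fin (N + 1) → ℤ) (hb : ∀ i, |b i| ≤ 2 * L) :
    |((ev b n : ℤ) : ℝ)| ≤ 2 * L * ((N + 1) * (n : ℝ) ^ N) := by
  unfold ev
  push_cast
  refine (abs_sum_le_sum_abs _ _).trans ?_
  calc ∑ i : Fin (N + 1), |(b i : ℝ) * (n : ℝ) ^ (i : ℕ)| ≤ ∑ _i : Fin (N + 1), (2 * (L : ℝ)) * (n : ℝ) ^ N := by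
        apply sum_le_sum
        intro i _
        rw [abs_mul, abs_of_nonneg (by positivity : (0 : ℝ) ≤ (n : ℝ) ^ (i : ℕ))]
        have h1 : |(b i : ℝ)| ≤ 2 * L := by
          have := hb i
          have h2 : ((|b i| : ℤ) : ℝ) ≤ ((2 * L : ℤ) : ℝ) := by exact_mod_cast this
          push_cast at h2
          exact h2
        have h2 : (n : ℝ) ^ (i : ℕ) ≤ (n : ℝ) ^ N := by
          apply pow_le_pow_right₀
          · exact_mod_cast hn
          · have := i.isLt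
            omega
        exact mul_le_mul h1 h2 (by positivity) (by positivity)
    _ = _ := by
        rw [sum_const, card_univ, Fintype.card_fin, nsmul_eq_mul]
        push_cast
        ring

end Pool.Agent.K1H93.SH
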