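import Mathlib
import Pool.Agent.K1H93.SH.A3

/-! The choice of the parameters. -/

set_option autoImplicit false

namespace Pool.Agent.K1H93.SH

open Finset Filter

lemma evR (P : ℝ → Prop) (h : ∀ᶠ x : ℝ in Filter.atTop, P x) : ∃ x₀ : ℝ, 1 ≤ x₀ ∧ ∀ x, x₀ ≤ x → P x := by
  obtain ⟨x0, hx0⟩ := Filter.eventually_atTop.1 h
  exact ⟨max x0 1, le_max_right _ _, fun x hx => hx0 x ((le_max_left _ _).trans hx)⟩

lemma ev_loglin (c η : ℝ) (hη : 0 < η) : ∀ᶠ y : ℝ in atTop, c * Real.log y ≤ η * y := by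
  have h1 : ∀ᶠ y : ℝ in atTop, ‖Real.log y‖ ≤ (η / (|c| + 1)) * ‖y‖ :=
    (Real.isLittleO_log_id_atTop).def (by positivity)
  filter_upwards [h1, eventually_ge_atTop 1] with y hy hy1
  rw [Real.norm_of_nonneg (Real.log_nonneg hy1), Real.norm_of_nonneg (by linarith)] at hy
  have hc : 0 < |c| + 1 := by positivity
  calc c * Real.log y ≤ (|c| + 1) * Real.log y := by
        apply mul_le_mul_of_nonneg_right _ (Real.log_nonneg hy1)
        linarith [le_abs_self c]
    _ ≤ (|c| + 1) * ((η / (|c| + 1)) * y) := by gcongr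
    _ = η * y := by field_simp

lemma ev_logsqrt (c : ℝ) : ∀ᶠ y : ℝ in atTop, c * Real.log y ≤ Real.sqrt y := by
  have h := (Real.tendsto_sqrt_atTop).eventually (ev_loglin (2 * c) 1 one_pos)
  filter_upwards [h, eventually_ge_atTop 0] with y hy hy0
  rw [Real.log_sqrt hy0] at hy
  linarith

/-- the size of the values -/
noncomputable def ell (d x L : ℕ) : ℝ := Real.log L + (d + 1) * Real.log x

structure Setup (B : ℕ) (η : ℝ) (W Y0 : ℕ) (T1 : ℝ) (d x L M : ℕ) : Prop where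
  hM : 1 ≤ M
  hMx : x ≤ M
  hML : 2 * M ≤ L
  hx : 2 * x ≤ L
  hL : 0 < L
  sum_le : 2 * (2 * ((1 + (x : ℝ)) * (d * x + M))) ≤ η * L
  big : ∀ n : ℕ, 2 ≤ n → n ≤ x → Y0 ≤ M * n ^ d
  lg : ∀ n : ℕ, 2 ≤ n → n ≤ x → ell d x L / (8 * Real.log x) ≤ Real.log ((M * n ^ d : ℕ) : ℝ)
  q_le : ∀ n : ℕ, 2 ≤ n → n ≤ x → (W : ℝ) * x ≤ Real.log ((M * n ^ d : ℕ) : ℝ) ^ (6 * B + 6)
  V_le : ∀ n : ℕ, 2 ≤ n → n ≤ x → (L : ℝ) * (n : ℝ) ^ (d + 1) * ell d x L ^ (B + 2) ≤
    ((M * n ^ d : ℕ) : ℝ) * Real.log ((M * n ^ d : ℕ) : ℝ) ^ (6 * B + 6)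
  lg_big : ∀ n : ℕ, n ≤ x → (x : ℝ) ≤ 2 * T1 * n → (1 - η) * ell d x L ≤ Real.log ((M * n ^ d : ℕ) : ℝ)
  lg_mid : ∀ n : ℕ, n ≤ x → x ≤ n ^ 2 → ell d x L / 8 ≤ Real.log ((M * n ^ d : ℕ) : ℝ)

theorem setup (B : ℕ) (η : ℝ) (hη0 : 0 < η) (hη1 : η ≤ 1) (W Y0 : ℕ) (T1 : ℝ) (hT1 : 1 ≤ T1) (ℓ₀ : ℝ) : ∃ T : ℝ, 1 ≤ T ∧
    ∀ d x L : ℕ, T ≤ x → (x : ℝ) ≤ ell d x L ^ B → T * (d + 1) * (x : ℝ) ^ 2 ≤ L →
    ℓ₀ ≤ ell d x L ∧ ∃ M, Setup B η W Y0 T1 d x L M := by
  obtain ⟨z1, hz11, h1⟩ := evR _ (ev_loglin (2 * B) (η / 4) (by positivity))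
  obtain ⟨z2, hz21, h2⟩ := evR _ (ev_logsqrt (8 * B))
  set a : ℝ := Real.log (32 / η) with ha
  have h32 : 32 ≤ 32 / η := by rw [le_div_iff₀ hη0]; nlinarith
  have ha0 : 0 ≤ a := Real.log_nonneg (by linarith)
  set z : ℝ := max (max (max z1 z2) (max (4 * a / η) (32 / η))) (max ((1 + 2 * W) + Y0 : ℝ) (max ℓ₀ (((Y0 : ℝ) + 1) ^ 2))) with hz
  have hz1 : z1 ≤ z := by rw [hz]; simp
  have hz2 : z2 ≤ z := by rw [hz]; simp
  have hz3 : 4 * a / η ≤ z := by rw [hz]; simp
  have hz4 : 32 / η ≤ z := by rw [hz]; simp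
  have hz5 : ((1 + 2 * W) + Y0 : ℝ) ≤ z := by rw [hz]; simp
  have hz6 : ℓ₀ ≤ z := by rw [hz]; simp
  have hz7 : ((Y0 : ℝ) + 1) ^ 2 ≤ z := by rw [hz]; simp
  clear_value z
  set u : ℝ := max (2 * Real.log (2 * T1) / η) 2 with hu
  have hu1 : 2 * Real.log (2 * T1) / η ≤ u := le_max_left _ _
  have hu2 : 2 ≤ u := le_max_right _ _
  clear_value u
  have hlT1 : 0 ≤ Real.log (2 * T1) := Real.log_nonneg (by linarith)
  refine ⟨max (max (Real.exp z) (Real.exp u)) (max (Real.exp (4 * a)) (32 / η)), ?_, ?_⟩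
  · exact ((by linarith : (1 : ℝ) ≤ 32 / η).trans (le_max_right _ _)).trans (le_max_right _ _)
  intro d x L hTx hxB hTL
  set T : ℝ := max (max (Real.exp z) (Real.exp u)) (max (Real.exp (4 * a)) (32 / η)) with hT
  have hTz : Real.exp z ≤ T := by rw [hT]; simp
  have hTu : Real.exp u ≤ T := by rw [hT]; simp
  have hTa : Real.exp (4 * a) ≤ T := by rw [hT]; simp
  have hTη : 32 / η ≤ T := by rw [hT]; simp
  clear_value T
  have hT1' : 1 ≤ T := by linarith
  have hx1 : (1 : ℝ) ≤ x := hT1'.trans hTx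
  have hx0 : (0 : ℝ) < x := by linarith
  have hxn : 1 ≤ x := by exact_mod_cast hx1
  have hd0 : (0 : ℝ) ≤ d := Nat.cast_nonneg _
  have hx2 : (x : ℝ) ≤ (x : ℝ) ^ 2 := by nlinarith
  have hTL' : T * (x : ℝ) ^ 2 ≤ L := by
    refine le_trans ?_ hTL
    have e1 : T * (d + 1) * (x : ℝ) ^ 2 = T * (x : ℝ) ^ 2 + d * (T * (x : ℝ) ^ 2) := by ring
    have e2 : 0 ≤ d * (T * (x : ℝ) ^ 2) := by positivity
    linarith
  have hL32 : (32 / η) * (x : ℝ) ^ 2 ≤ L := le_trans (by gcongr) hTL'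
  have hxL : 32 * (x : ℝ) ≤ L := by
    refine le_trans ?_ hL32
    calc 32 * (x : ℝ) ≤ (32 / η) * (x : ℝ) ^ 2 := by gcongr
      _ ≤ _ := le_rfl
  have hL0 : (0 : ℝ) < L := by linarith
  obtain ⟨y, hy⟩ : ∃ y, y = Real.log x := ⟨_, rfl⟩
  obtain ⟨lam, hlam⟩ : ∃ lam, lam = Real.log L := ⟨_, rfl⟩
  have hy0 : 0 ≤ y := by rw [hy]; exact Real.log_nonneg hx1
  have hyu : u ≤ y := by
    rw [hy, Real.le_log_iff_exp_le hx0]
    exact hTu.trans hTx
  have hlamT : Real.log T + 2 * y ≤ lam := by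
    have e : Real.log (T * (x : ℝ) ^ 2) = Real.log T + 2 * y := by
      rw [Real.log_mul (by positivity) (by positivity), Real.log_pow, hy]
      push_cast
      ring
    rw [hlam, ← e]
    exact Real.log_le_log (by positivity) hTL'
  have hlogTz : z ≤ Real.log T := (Real.le_log_iff_exp_le (by linarith)).2 hTz
  have hlogTa : 4 * a ≤ Real.log T := (Real.le_log_iff_exp_le (by linarith)).2 hTa
  obtain ⟨l, hl⟩ : ∃ l, l = ell d x L := ⟨_, rfl⟩
  have hl' : l = lam + (d + 1) * y := by rw [hl, hlam, hy]; rfl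
  have hzl : z ≤ l := by
    rw [hl']
    have : 0 ≤ (d + 1) * y := by positivity
    linarith
  rw [← hl] at hxB ⊢
  have hl32 : 32 / η ≤ l := hz4.trans hzl
  have hl0 : 0 < l := by linarith
  have hl1 : 1 ≤ l := by linarith
  have hyB : y ≤ B * Real.log l := by
    rw [hy, ← Real.log_pow]
    exact Real.log_le_log hx0 hxB
  have hy2 : 2 * y ≤ (η / 4) * l := by
    have := h1 l (hz1.trans hzl)
    linarith
  have hy8 : 8 * y ≤ Real.sqrt l := by
    have := h2 l (hz2.trans hzl)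
    linarith
  -- the choice of `M`
  obtain ⟨M, hMd⟩ : ∃ M : ℕ, M = ⌊η * L / (16 * x)⌋₊ := ⟨_, rfl⟩
  have hMup : (M : ℝ) ≤ η * L / (16 * x) := by rw [hMd]; exact Nat.floor_le (by positivity)
  have hMlow : η * L / (32 * x) ≤ (M : ℝ) := by
    have e1 : 1 ≤ η * L / (32 * x) := by
      rw [le_div_iff₀ (by positivity)]
      rw [div_mul_eq_mul_div, div_le_iff₀ hη0] at hL32
      linarith
    have e2 := Nat.lt_floor_add_one (η * L / (16 * x))
    rw [← hMd] at e2
    have e3 : η * L / (16 * x) = 2 * (η * L / (32 * x)) := by field_simp; norm_num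
    linarith
  have hM0 : (0 : ℝ) < M := lt_of_lt_of_le (by positivity) hMlow
  have hM1 : 1 ≤ M := by
    have : 0 < M := by exact_mod_cast hM0
    omega
  have hlogM : lam - a - y ≤ Real.log M := by
    have e : Real.log (η * L / (32 * x)) = lam - a - y := by
      have e2 : η * L / (32 * x) = L / (32 / η) / x := by field_simp
      rw [e2, Real.log_div (by positivity) (by positivity), Real.log_div (by positivity) (by positivity), hlam, hy]
    rw [← e]
    exact Real.log_le_log (by positivity) hMlow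
  have hlogM2 : lam / 4 + y / 2 ≤ Real.log M := by linarith
  have hlogY : ∀ n : ℕ, 1 ≤ n → Real.log ((M * n ^ d : ℕ) : ℝ) = Real.log M + d * Real.log n := by
    intro n hn
    have hn0 : (0 : ℝ) < n := by exact_mod_cast (by omega : 0 < n)
    push_cast
    rw [Real.log_mul hM0.ne' (by positivity), Real.log_pow]
  have hlogn : ∀ n : ℕ, 1 ≤ n → n ≤ x → Real.log n ≤ y := by
    intro n hn hnx
    rw [hy]
    exact Real.log_le_log (by exact_mod_cast (by omega : 0 < n)) (by exact_mod_cast hnx)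
  have hkey : ∀ n : ℕ, 1 ≤ n → n ≤ x → lam / 4 + (d + 1) / 2 * Real.log n ≤ Real.log ((M * n ^ d : ℕ) : ℝ) := by
    intro n hn hnx
    rw [hlogY n hn]
    have e1 := hlogn n hn hnx
    have e2 : 0 ≤ Real.log n := Real.log_nonneg (by exact_mod_cast hn)
    have e3 : 0 ≤ (d : ℝ) * Real.log n := by positivity
    have e4 : ((d : ℝ) + 1) / 2 * Real.log n = (d : ℝ) * Real.log n / 2 + Real.log n / 2 := by ring
    linarith
  have hlg : ∀ n : ℕ, 2 ≤ n → n ≤ x → l / (8 * Real.log x) ≤ Real.log ((M * n ^ d : ℕ) : ℝ) := by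
    intro n hn hnx
    refine le_trans ?_ (hkey n (by omega) hnx)
    have e1 : (1 : ℝ) / 2 ≤ Real.log n := by
      have h5 := Real.log_two_gt_d9
      have h6 : Real.log 2 ≤ Real.log n := Real.log_le_log (by norm_num) (by exact_mod_cast hn)
      linarith
    rw [← hy, hl', div_le_iff₀ (by linarith)]
    have hlam0 : 0 ≤ lam := by linarith
    have e2 : (lam / 4 + (d + 1) / 2 * Real.log n) * (8 * y) = 2 * y * lam + 4 * ((d + 1) * y) * Real.log n := by ring
    rw [e2]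
    have e3 : (4 * (((d : ℝ) + 1) * y)) * (1 / 2) ≤ (4 * ((d + 1) * y)) * Real.log n := by gcongr
    have e4 : 0 ≤ (d + 1) * y := by positivity
    have e5 : 2 * 2 * lam ≤ 2 * y * lam := by gcongr; linarith
    linarith
  have hsq : ∀ n : ℕ, 2 ≤ n → n ≤ x → Real.sqrt l ≤ Real.log ((M * n ^ d : ℕ) : ℝ) := by
    intro n hn hnx
    refine le_trans ?_ (hlg n hn hnx)
    rw [← hy, le_div_iff₀ (by linarith)]
    have e1 := Real.mul_self_sqrt hl0.le
    have e2 : 0 ≤ Real.sqrt l := Real.sqrt_nonneg _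
    have e3 := mul_le_mul_of_nonneg_left hy8 e2
    linarith
  have hle : ∀ n : ℕ, 2 ≤ n → n ≤ x → l ≤ Real.log ((M * n ^ d : ℕ) : ℝ) ^ 2 := by
    intro n hn hnx
    calc l = Real.sqrt l ^ 2 := (Real.sq_sqrt hl0.le).symm
      _ ≤ _ := pow_le_pow_left₀ (Real.sqrt_nonneg _) (hsq n hn hnx) 2
  have hsq1 : 1 ≤ Real.sqrt l := Real.one_le_sqrt.2 hl1
  refine ⟨hz6.trans hzl, M, ?_⟩
  refine ⟨hM1, ?_, ?_, ?_, ?_, ?_, ?_, ?_, ?_, ?_, ?_, ?_⟩
  · have e1 : (x : ℝ) ≤ η * L / (32 * x) := by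
      rw [le_div_iff₀ (by positivity)]
      rw [div_mul_eq_mul_div, div_le_iff₀ hη0] at hL32
      calc (x : ℝ) * (32 * x) = 32 * (x : ℝ) ^ 2 := by ring
        _ ≤ L * η := hL32
        _ = _ := by ring
    exact_mod_cast e1.trans hMlow
  · have : (2 : ℝ) * M ≤ L := by
      have e1 : η * L / (16 * x) ≤ L / 2 := by
        rw [div_le_div_iff₀ (by positivity) (by norm_num)]
        have e2 : η * (L : ℝ) ≤ 1 * L := by gcongr
        have e3 : (L : ℝ) * 1 ≤ L * x := by gcongr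
        linarith
      linarith
    exact_mod_cast this
  · have : (2 : ℝ) * x ≤ L := by linarith
    exact_mod_cast this
  · exact_mod_cast hL0
  · have e1 : (1 + (x : ℝ)) ≤ 2 * x := by linarith
    have e2 : (x : ℝ) * M ≤ η * L / 16 := by
      calc (x : ℝ) * M ≤ x * (η * L / (16 * x)) := by gcongr
        _ = _ := by field_simp
    have e3 : 8 * (d * (x : ℝ) ^ 2) ≤ η / 4 * L := by
      have e4 : 32 ≤ η * T := by
        rw [div_le_iff₀ hη0] at hTη
        linarith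
      calc 8 * (d * (x : ℝ) ^ 2) ≤ (η * T / 4) * (d * (x : ℝ) ^ 2) := by
            apply mul_le_mul_of_nonneg_right _ (by positivity)
            linarith
        _ = η / 4 * (T * d * (x : ℝ) ^ 2) := by ring
        _ ≤ η / 4 * L := by
            apply mul_le_mul_of_nonneg_left _ (by positivity)
            refine le_trans ?_ hTL
            have e5 : T * (d + 1) * (x : ℝ) ^ 2 = T * (x : ℝ) ^ 2 + T * d * (x : ℝ) ^ 2 := by ring
            have e6 : 0 ≤ T * (x : ℝ) ^ 2 := by positivity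
            linarith
    calc 2 * (2 * ((1 + (x : ℝ)) * (d * x + M))) ≤ 2 * (2 * ((2 * x) * (d * x + M))) := by gcongr
      _ = 8 * (d * (x : ℝ) ^ 2) + 8 * (x * M) := by ring
      _ ≤ η / 4 * L + 8 * (η * L / 16) := by linarith
      _ ≤ η * L := by
          have := mul_pos hη0 hL0
          linarith
  · intro n hn hnx
    have e1 := hsq n hn hnx
    have e2 : (Y0 : ℝ) + 1 ≤ Real.sqrt l := Real.le_sqrt_of_sq_le (hz7.trans hzl)
    have hn0 : 0 < n := by omega
    have e3 : Real.log ((M * n ^ d : ℕ) : ℝ) ≤ ((M * n ^ d : ℕ) : ℝ) := by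
      have := Real.log_le_sub_one_of_pos (x := ((M * n ^ d : ℕ) : ℝ)) (by exact_mod_cast (by positivity : 0 < M * n ^ d))
      linarith
    have e4 : (Y0 : ℝ) ≤ ((M * n ^ d : ℕ) : ℝ) := by linarith
    exact_mod_cast e4
  · rw [← hl]
    exact hlg
  · intro n hn hnx
    have e1 := hsq n hn hnx
    have e2 := hle n hn hnx
    calc (W : ℝ) * x ≤ l * l ^ B := by
          apply mul_le_mul _ hxB (by positivity) (by positivity)
          have : (0 : ℝ) ≤ Y0 := Nat.cast_nonneg _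
          have h7 := hz5.trans hzl
          have : (0 : ℝ) ≤ W := Nat.cast_nonneg _
          linarith
      _ = l ^ (B + 1) := by ring
      _ ≤ (Real.log ((M * n ^ d : ℕ) : ℝ) ^ 2) ^ (B + 1) := pow_le_pow_left₀ hl0.le e2 _
      _ = Real.log ((M * n ^ d : ℕ) : ℝ) ^ (2 * B + 2) := by rw [← pow_mul]; congr 1
      _ ≤ _ := pow_le_pow_right₀ (by linarith) (by omega)
  · intro n hn hnx
    rw [← hl]
    have e1 := hsq n hn hnx
    have e2 := hle n hn hnx
    have hn0 : (0 : ℝ) < n := by exact_mod_cast (by omega : 0 < n)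
    have e3 : (L : ℝ) ≤ (32 / η) * x * M := by
      rw [div_le_iff₀ (by positivity)] at hMlow
      have : (32 / η) * x * M = (M * (32 * x)) / η := by ring
      rw [this, le_div_iff₀ hη0]
      linarith
    have hnx' : (n : ℝ) ≤ x := by exact_mod_cast hnx
    calc (L : ℝ) * (n : ℝ) ^ (d + 1) * l ^ (B + 2)
        ≤ ((32 / η) * x * M) * ((n : ℝ) ^ d * x) * l ^ (B + 2) := by
          rw [pow_succ]
          gcongr
      _ ≤ (l * l ^ B * M) * ((n : ℝ) ^ d * l ^ B) * l ^ (B + 2) := by gcongr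
      _ = (M * (n : ℝ) ^ d) * l ^ (3 * B + 3) := by ring
      _ ≤ (M * (n : ℝ) ^ d) * (Real.log ((M * n ^ d : ℕ) : ℝ) ^ 2) ^ (3 * B + 3) := by gcongr
      _ = _ := by
          rw [← pow_mul]
          push_cast
          congr 2
          ring
  · intro n hnx hxn
    rw [← hl]
    have hn1 : 1 ≤ n := by
      rcases Nat.eq_zero_or_pos n with h | h
      · subst h
        push_cast at hxn
        linarith
      · exact h
    have hn0 : (0 : ℝ) < n := by exact_mod_cast (by omega : 0 < n)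
    rw [hlogY n hn1]
    have e1 : y - Real.log (2 * T1) ≤ Real.log n := by
      have : Real.log x ≤ Real.log (2 * T1 * n) := Real.log_le_log hx0 hxn
      rw [Real.log_mul (by positivity) hn0.ne'] at this
      linarith
    have e2 : (d : ℝ) * (y - Real.log (2 * T1)) ≤ d * Real.log n := by gcongr
    have e3 : Real.log (2 * T1) ≤ η / 2 * y := by
      rw [div_le_iff₀ hη0] at hu1
      have := mul_le_mul_of_nonneg_right hyu hη0.le
      linarith
    have e4 : (d : ℝ) * Real.log (2 * T1) ≤ d * (η / 2 * y) := by gcongr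
    have e5 : a ≤ (η / 4) * l := by
      have := hz3.trans hzl
      rw [div_le_iff₀ hη0] at this
      linarith
    have e6 : d * (η / 2 * y) ≤ (η / 2) * l := by
      rw [hl']
      have e7 : 0 ≤ (η / 2) * (lam + y) := by
        have : 0 ≤ lam := by linarith
        positivity
      have e8 : η / 2 * (lam + (d + 1) * y) = d * (η / 2 * y) + (η / 2) * (lam + y) := by ring
      linarith
    have e7 : lam = l - (d + 1) * y := by linarith
    rw [e7] at hlogM
    have e8 : (d : ℝ) * (y - Real.log (2 * T1)) = d * y - d * Real.log (2 * T1) := by ring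
    have e9 : l - (d + 1) * y - a - y = l - d * y - 2 * y - a := by ring
    linarith
  · intro n hnx hxn
    rw [← hl]
    have hn1 : 1 ≤ n := by
      rcases Nat.eq_zero_or_pos n with h | h
      · subst h
        omega
      · exact h
    have hn0 : (0 : ℝ) < n := by exact_mod_cast (by omega : 0 < n)
    refine le_trans ?_ (hkey n hn1 hnx)
    have e1 : y ≤ 2 * Real.log n := by
      have : Real.log x ≤ Real.log ((n : ℝ) ^ 2) := Real.log_le_log hx0 (by exact_mod_cast hxn)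
      rw [Real.log_pow] at this
      push_cast at this
      rw [hy]; exact this
    have e2 : ((d : ℝ) + 1) / 2 * (y / 2) ≤ (d + 1) / 2 * Real.log n := by
      apply mul_le_mul_of_nonneg_left _ (by positivity)
      linarith
    have hlam0 : 0 ≤ lam := by linarith
    have e4 : 0 ≤ (d + 1) * y := by positivity
    rw [hl']
    linarith

end Pool.Agent.K1H93.SH
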