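import Mathlib
import Pool.Agent.K1H93.SH.A4

/-! The probabilities that one or two values of a random polynomial are primes. -/

set_option autoImplicit false

namespace Pool.Agent.K1H93.SH

open Finset Pool.Agent.K1H89.PL

/-- `1` if `|G + W y|` is a prime, `0` otherwise -/
noncomputable def Fp (G : ℤ) (W : ℕ) (y : ℤ) : ℝ := if (G + W * y).natAbs.Prime then 1 else 0

lemma Fp_nonneg (G : ℤ) (W : ℕ) (y : ℤ) : 0 ≤ Fp G W y := by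
  unfold Fp
  split_ifs <;> norm_num

lemma sum_Fp (G : ℤ) (W Y : ℕ) (v : ℤ) : ∑ t ∈ range Y, Fp G W (v + (t : ℤ)) = cn (G + W * v) W Y := by
  unfold Fp cn
  rw [← sum_filter, sum_const, nsmul_eq_mul, mul_one]
  congr 2
  apply filter_congr
  intro t _
  rw [mul_add, add_assoc]

lemma sum_Fp_mul (G : ℤ) (W Y : ℕ) (v : ℤ) (n m : ℕ) (h : m < n) :
    ∑ t ∈ range Y, Fp G W (v + ((n : ℤ) - m) * (t : ℤ)) = cn (G + W * v) (W * (n - m)) Y := by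
  unfold Fp cn
  rw [← sum_filter, sum_const, nsmul_eq_mul, mul_one]
  congr 2
  apply filter_congr
  intro t _
  have e : G + (W : ℤ) * (v + ((n : ℤ) - m) * t) = G + W * v + ((W * (n - m) : ℕ) : ℤ) * t := by
    rw [Nat.cast_mul, Nat.cast_sub h.le]
    ring
  rw [e]

lemma sum_Fp_mul' (G : ℤ) (W Y : ℕ) (v : ℤ) (n m : ℕ) (h : m < n) :
    ∑ t ∈ range Y, Fp G W (v + ((m : ℤ) - n) * (t : ℤ)) = cn (-(G + W * v)) (W * (n - m)) Y := by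
  unfold Fp cn
  rw [← sum_filter, sum_const, nsmul_eq_mul, mul_one]
  congr 2
  apply filter_congr
  intro t _
  have e : G + (W : ℤ) * (v + ((m : ℤ) - n) * t) = -(-(G + W * v) + ((W * (n - m) : ℕ) : ℤ) * t) := by
    rw [Nat.cast_mul, Nat.cast_sub h.le]
    ring
  rw [e, Int.natAbs_neg]

/-- the number of the polynomials of the box with a prime value -/
noncomputable def pc (N L W : ℕ) (G : ℤ) (n : ℕ) : ℝ := ∑ b ∈ bx N L, Fp G W (ev b n)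

/-- the number of the polynomials of the box with two prime values -/
noncomputable def pc2 (N L W : ℕ) (G G' : ℤ) (n m : ℕ) : ℝ := ∑ b ∈ bx N L, Fp G W (ev b n) * Fp G' W (ev b m)

/-- the theorem of Siegel and Walfisz in the form of use -/
def CN (B' : ℕ) (η : ℝ) (Y0 : ℕ) : Prop := ∀ Y : ℕ, Y0 ≤ Y → ∀ q : ℕ, 1 ≤ q →
    (q : ℝ) ≤ Real.log Y ^ B' → ∀ V : ℤ, |(V : ℝ)| ≤ Y * Real.log Y ^ B' →
    (cn V q Y : ℝ) ≤ (1 + η) * (rho q * Y / Real.log Y) ∧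
    (IsCoprime V (q : ℤ) → (1 - η) * (rho q * Y / Real.log Y) ≤ cn V q Y)

lemma lg_pos {B : ℕ} {η : ℝ} {W Y0 : ℕ} {T1 : ℝ} {d x L M : ℕ} (hS : Setup B η W Y0 T1 d x L M) (hW : 1 ≤ W)
    {n : ℕ} (hn : 2 ≤ n) (hnx : n ≤ x) : 0 < Real.log ((M * n ^ d : ℕ) : ℝ) := by
  have h1 := hS.q_le n hn hnx
  have h2 : (0 : ℝ) < W * x := by
    have : (0 : ℝ) < W := by exact_mod_cast hW
    have : (0 : ℝ) < x := by exact_mod_cast (by omega : 0 < x)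
    positivity
  have h3 : 0 ≤ Real.log ((M * n ^ d : ℕ) : ℝ) := Real.log_natCast_nonneg _
  rcases h3.lt_or_eq with h | h
  · exact h
  · exfalso
    rw [← h, zero_pow (by omega)] at h1
    linarith

lemma V_bound {B : ℕ} {η : ℝ} {W Y0 : ℕ} {T1 : ℝ} {d x L M : ℕ} (hS : Setup B η W Y0 T1 d x L M)
    (hell : ((d : ℝ) + 2) * (ell d x L ^ B + 2 * W) ≤ ell d x L ^ (B + 2)) {n : ℕ} (hn : 2 ≤ n) (hnx : n ≤ x)
    (G : ℤ) (hG : |(G : ℝ)| ≤ (d + 2) * L * ell d x L ^ B * (n : ℝ) ^ (d + 1)) (b : Fin (d + 2) → ℤ)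
    (hb : ∀ i, |b i| ≤ 2 * L) :
    |((G + W * ev b n : ℤ) : ℝ)| ≤ ((M * n ^ d : ℕ) : ℝ) * Real.log ((M * n ^ d : ℕ) : ℝ) ^ (6 * B + 6) := by
  refine le_trans ?_ (hS.V_le n hn hnx)
  have h1 := ev_bound (d + 1) L n (by omega) b hb
  push_cast at h1 ⊢
  calc |(G : ℝ) + W * (ev b n : ℝ)| ≤ |(G : ℝ)| + |(W : ℝ) * (ev b n : ℝ)| := abs_add_le _ _
    _ = |(G : ℝ)| + W * |(ev b n : ℝ)| := by rw [abs_mul, abs_of_nonneg (by positivity : (0 : ℝ) ≤ W)]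
    _ ≤ (d + 2) * L * ell d x L ^ B * (n : ℝ) ^ (d + 1) + W * (2 * L * ((d + 1 + 1) * (n : ℝ) ^ (d + 1))) := by gcongr
    _ = (L : ℝ) * (n : ℝ) ^ (d + 1) * (((d : ℝ) + 2) * (ell d x L ^ B + 2 * W)) := by ring
    _ ≤ _ := by gcongr

/-- the bounds for one value -/
lemma cn_one {B : ℕ} {η : ℝ} {W Y0 : ℕ} {T1 : ℝ} {d x L M : ℕ} (hS : Setup B η W Y0 T1 d x L M)
    (hell : ((d : ℝ) + 2) * (ell d x L ^ B + 2 * W) ≤ ell d x L ^ (B + 2)) (hCN : CN (6 * B + 6) η Y0) (hW : 1 ≤ W)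
    {n : ℕ} (hn : 2 ≤ n) (hnx : n ≤ x)
    (G : ℤ) (hG : |(G : ℝ)| ≤ (d + 2) * L * ell d x L ^ B * (n : ℝ) ^ (d + 1)) (b : Fin (d + 2) → ℤ)
    (hb : ∀ i, |b i| ≤ 2 * L) :
    (cn (G + W * ev b n) W (M * n ^ (d + 1)) : ℝ) ≤
      (1 + η) * (rho W * ((M * n ^ (d + 1) : ℕ) : ℝ) / Real.log ((M * n ^ (d + 1) : ℕ) : ℝ)) ∧
    (IsCoprime (G + W * ev b n) (W : ℤ) →
      (1 - η) * (rho W * ((M * n ^ (d + 1) : ℕ) : ℝ) / Real.log ((M * n ^ (d + 1) : ℕ) : ℝ)) ≤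
        cn (G + W * ev b n) W (M * n ^ (d + 1))) := by
  have hle : M * n ^ d ≤ M * n ^ (d + 1) := Nat.mul_le_mul_left _ (Nat.pow_le_pow_right (by omega) (by omega))
  have hM := hS.hM
  have hn0 : 0 < n := by omega
  have hpos : 0 < M * n ^ d := by positivity
  have hle' : ((M * n ^ d : ℕ) : ℝ) ≤ ((M * n ^ (d + 1) : ℕ) : ℝ) := by exact_mod_cast hle
  have hlog : Real.log ((M * n ^ d : ℕ) : ℝ) ≤ Real.log ((M * n ^ (d + 1) : ℕ) : ℝ) :=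
    Real.log_le_log (by exact_mod_cast hpos) hle'
  have hlog0 := lg_pos hS hW hn hnx
  have hx1 : (1 : ℝ) ≤ x := by exact_mod_cast (by omega : 1 ≤ x)
  apply hCN _ ((hS.big n hn hnx).trans hle) W hW
  · refine le_trans ?_ ((hS.q_le n hn hnx).trans (pow_le_pow_left₀ hlog0.le hlog _))
    have : (0 : ℝ) ≤ W := Nat.cast_nonneg _
    nlinarith
  · refine (V_bound hS hell hn hnx G hG b hb).trans ?_
    exact mul_le_mul hle' (pow_le_pow_left₀ hlog0.le hlog _) (by positivity) (by positivity)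

/-- the bounds for two values -/
lemma cn_two {B : ℕ} {η : ℝ} {W Y0 : ℕ} {T1 : ℝ} {d x L M : ℕ} (hS : Setup B η W Y0 T1 d x L M)
    (hCN : CN (6 * B + 6) η Y0) (hW : 1 ≤ W)
    {n : ℕ} (hn : 2 ≤ n) (hnx : n ≤ x) (Δ : ℕ) (hΔ : 1 ≤ Δ) (hΔx : Δ ≤ x)
    (V : ℤ) (hV : |(V : ℝ)| ≤ ((M * n ^ d : ℕ) : ℝ) * Real.log ((M * n ^ d : ℕ) : ℝ) ^ (6 * B + 6)) :
    (cn V (W * Δ) (M * n ^ d) : ℝ) ≤
      (1 + η) * (rho (W * Δ) * ((M * n ^ d : ℕ) : ℝ) / Real.log ((M * n ^ d : ℕ) : ℝ)) := by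
  refine (hCN _ (hS.big n hn hnx) (W * Δ) (Nat.mul_pos hW hΔ) ?_ V hV).1
  refine le_trans ?_ (hS.q_le n hn hnx)
  push_cast
  gcongr

end Pool.Agent.K1H93.SH
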