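import Mathlib
import Pool.Agent.K1H93.SH.A5

/-! The probabilities that one or two values of a random polynomial are primes: the final bounds. -/

set_option autoImplicit false

namespace Pool.Agent.K1H93.SH

open Finset Pool.Agent.K1H89.PL

lemma exp_le {η : ℝ} (h0 : 0 < η) (h1 : η ≤ 1 / 8) : Real.exp η ≤ 1 + η + η ^ 2 := by
  have := Real.abs_exp_sub_one_sub_id_le (x := η) (by rw [abs_of_pos h0]; linarith)
  have h5 := (abs_le.1 this).2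
  linarith

lemma sum_small {B : ℕ} {η : ℝ} {W Y0 : ℕ} {T1 : ℝ} {d x L M : ℕ} (hS : Setup B η W Y0 T1 d x L M) (hx : 1 ≤ x) :
    2 * (((d + 1 : ℕ) : ℝ) * x + M) / L ≤ η := by
  have h1 := hS.sum_le
  have hL : (0 : ℝ) < L := by exact_mod_cast hS.hL
  have hM : (1 : ℝ) ≤ M := by exact_mod_cast hS.hM
  have hx1 : (1 : ℝ) ≤ x := by exact_mod_cast hx
  have hd : (0 : ℝ) ≤ d := Nat.cast_nonneg _
  rw [div_le_iff₀ hL]
  refine le_trans ?_ h1
  push_cast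
  have e1 : 0 ≤ (d : ℝ) * x := by positivity
  have e2 : (x : ℝ) * 1 ≤ x * M := by gcongr
  have e3 : 0 ≤ (x : ℝ) * (d * x) := by positivity
  have e4 : 2 * (2 * ((1 + (x : ℝ)) * (d * x + M))) = 4 * (d * x) + 4 * M + 4 * (x * (d * x)) + 4 * (x * M) := by ring
  have e5 : 2 * (((d : ℝ) + 1) * x + M) = 2 * (d * x) + 2 * x + 2 * M := by ring
  rw [e4, e5]
  linarith

lemma exp_sum_small {B : ℕ} {η : ℝ} {W Y0 : ℕ} {T1 : ℝ} {d x L M : ℕ} (hS : Setup B η W Y0 T1 d x L M) (hx : 1 ≤ x)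
    (h0 : 0 < η) (h1 : η ≤ 1 / 8) : Real.exp (2 * (((d + 1 : ℕ) : ℝ) * x + M) / L) ≤ 1 + η + η ^ 2 :=
  (Real.exp_le_exp.2 (sum_small hS hx)).trans (exp_le h0 h1)

/-- the common upper bound for one value -/
lemma pc_up {B : ℕ} {η : ℝ} {W Y0 : ℕ} {T1 : ℝ} {d x L M : ℕ} (hS : Setup B η W Y0 T1 d x L M)
    (hell : ((d : ℝ) + 2) * (ell d x L ^ B + 2 * W) ≤ ell d x L ^ (B + 2)) (hCN : CN (6 * B + 6) η Y0) (hW : 1 ≤ W)
    (h0 : 0 < η) (h1 : η ≤ 1 / 8)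
    {n : ℕ} (hn : 2 ≤ n) (hnx : n ≤ x)
    (G : ℤ) (hG : |(G : ℝ)| ≤ (d + 2) * L * ell d x L ^ B * (n : ℝ) ^ (d + 1)) :
    pc (d + 2) L W G n ≤ (1 + η) * (1 + η + η ^ 2) * (rho W / Real.log ((M * n ^ d : ℕ) : ℝ)) * (L : ℝ) ^ (d + 2) := by
  have hM := hS.hM
  have hn0 : 0 < n := by omega
  have hρ : 1 ≤ rho W := rho_ge hW
  have hpos : 0 < M * n ^ d := by positivity
  have hle' : ((M * n ^ d : ℕ) : ℝ) ≤ ((M * n ^ (d + 1) : ℕ) : ℝ) := by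
    exact_mod_cast Nat.mul_le_mul_left _ (Nat.pow_le_pow_right (by omega) (by omega))
  have hlog : Real.log ((M * n ^ d : ℕ) : ℝ) ≤ Real.log ((M * n ^ (d + 1) : ℕ) : ℝ) :=
    Real.log_le_log (by exact_mod_cast hpos) hle'
  have hlog0 := lg_pos hS hW hn hnx
  have h2 := one_up (d + 1) x M L n hnx (by omega) hS.hM hS.hL (by have := hS.hx; omega) (by have := hS.hML; omega)
    (Fp G W) (Fp_nonneg G W) ((1 + η) * (rho W / Real.log ((M * n ^ (d + 1) : ℕ) : ℝ)))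
    (mul_nonneg (by linarith) (div_nonneg (by linarith) (by linarith))) (by
    intro b hb
    rw [sum_Fp]
    refine (cn_one hS hell hCN hW hn hnx G hG b hb).1.trans (le_of_eq ?_)
    ring)
  refine h2.trans ?_
  have h3 := exp_sum_small hS (by omega) h0 h1
  calc (1 + η) * (rho W / Real.log ((M * n ^ (d + 1) : ℕ) : ℝ)) *
        ((L : ℝ) ^ (d + 1 + 1) * Real.exp (2 * (((d + 1 : ℕ) : ℝ) * x + M) / L))
      ≤ (1 + η) * (rho W / Real.log ((M * n ^ d : ℕ) : ℝ)) * ((L : ℝ) ^ (d + 1 + 1) * (1 + η + η ^ 2)) := by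
        gcongr
    _ = _ := by ring

/-- all the values `n ≥ 2` -/
lemma pc_small {B : ℕ} {η : ℝ} {W Y0 : ℕ} {T1 : ℝ} {d x L M : ℕ} (hS : Setup B η W Y0 T1 d x L M)
    (hell : ((d : ℝ) + 2) * (ell d x L ^ B + 2 * W) ≤ ell d x L ^ (B + 2)) (hCN : CN (6 * B + 6) η Y0) (hW : 1 ≤ W)
    (h0 : 0 < η) (h1 : η ≤ 1 / 8) (hl : 0 < ell d x L)
    {n : ℕ} (hn : 2 ≤ n) (hnx : n ≤ x)
    (G : ℤ) (hG : |(G : ℝ)| ≤ (d + 2) * L * ell d x L ^ B * (n : ℝ) ^ (d + 1)) :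
    pc (d + 2) L W G n ≤ 16 * Real.log x * rho W / ell d x L * (L : ℝ) ^ (d + 2) := by
  refine (pc_up hS hell hCN hW h0 h1 hn hnx G hG).trans ?_
  have hρ : 1 ≤ rho W := rho_ge hW
  have hx : 0 < Real.log x := Real.log_pos (by exact_mod_cast (by omega : 1 < x))
  have h2 := hS.lg n hn hnx
  have h3 : rho W / Real.log ((M * n ^ d : ℕ) : ℝ) ≤ rho W / (ell d x L / (8 * Real.log x)) := by
    apply div_le_div_of_nonneg_left (by linarith) (by positivity) h2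
  have h4 : (1 + η) * (1 + η + η ^ 2) ≤ 2 := by nlinarith
  have h5 : 0 ≤ (1 + η) * (1 + η + η ^ 2) := by positivity
  apply mul_le_mul_of_nonneg_right _ (by positivity)
  calc (1 + η) * (1 + η + η ^ 2) * (rho W / Real.log ((M * n ^ d : ℕ) : ℝ))
      ≤ 2 * (rho W / (ell d x L / (8 * Real.log x))) := by
        apply mul_le_mul h4 h3 (div_nonneg (by linarith) (lg_pos hS hW hn hnx).le) (by norm_num)
    _ = _ := by field_simp; norm_num

lemma pc_mid {B : ℕ} {η : ℝ} {W Y0 : ℕ} {T1 : ℝ} {d x L M : ℕ} (hS : Setup B η W Y0 T1 d x L M)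
    (hell : ((d : ℝ) + 2) * (ell d x L ^ B + 2 * W) ≤ ell d x L ^ (B + 2)) (hCN : CN (6 * B + 6) η Y0) (hW : 1 ≤ W)
    (h0 : 0 < η) (h1 : η ≤ 1 / 8) (hl : 0 < ell d x L)
    {n : ℕ} (hn : 2 ≤ n) (hnx : n ≤ x) (hxn : x ≤ n ^ 2)
    (G : ℤ) (hG : |(G : ℝ)| ≤ (d + 2) * L * ell d x L ^ B * (n : ℝ) ^ (d + 1)) :
    pc (d + 2) L W G n ≤ 16 * rho W / ell d x L * (L : ℝ) ^ (d + 2) := by
  refine (pc_up hS hell hCN hW h0 h1 hn hnx G hG).trans ?_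
  have hρ : 1 ≤ rho W := rho_ge hW
  have h2 := hS.lg_mid n hnx hxn
  have h3 : rho W / Real.log ((M * n ^ d : ℕ) : ℝ) ≤ rho W / (ell d x L / 8) := by
    apply div_le_div_of_nonneg_left (by linarith) (by positivity) h2
  have h4 : (1 + η) * (1 + η + η ^ 2) ≤ 2 := by nlinarith
  have h5 : 0 ≤ (1 + η) * (1 + η + η ^ 2) := by positivity
  apply mul_le_mul_of_nonneg_right _ (by positivity)
  calc (1 + η) * (1 + η + η ^ 2) * (rho W / Real.log ((M * n ^ d : ℕ) : ℝ))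
      ≤ 2 * (rho W / (ell d x L / 8)) := by
        apply mul_le_mul h4 h3 (div_nonneg (by linarith) (lg_pos hS hW hn hnx).le) (by norm_num)
    _ = _ := by field_simp; norm_num

lemma pc_big {B : ℕ} {η : ℝ} {W Y0 : ℕ} {T1 : ℝ} {d x L M : ℕ} (hS : Setup B η W Y0 T1 d x L M)
    (hell : ((d : ℝ) + 2) * (ell d x L ^ B + 2 * W) ≤ ell d x L ^ (B + 2)) (hCN : CN (6 * B + 6) η Y0) (hW : 1 ≤ W)
    (h0 : 0 < η) (h1 : η ≤ 1 / 8) (hl : 0 < ell d x L)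
    {n : ℕ} (hn : 2 ≤ n) (hnx : n ≤ x) (hxn : (x : ℝ) ≤ 2 * T1 * n)
    (G : ℤ) (hG : |(G : ℝ)| ≤ (d + 2) * L * ell d x L ^ B * (n : ℝ) ^ (d + 1)) :
    pc (d + 2) L W G n ≤ (1 + 8 * η) * (rho W / ell d x L) * (L : ℝ) ^ (d + 2) := by
  refine (pc_up hS hell hCN hW h0 h1 hn hnx G hG).trans ?_
  have hρ : 1 ≤ rho W := rho_ge hW
  have h2 := hS.lg_big n hnx hxn
  have hη : 0 < 1 - η := by linarith
  have h3 : rho W / Real.log ((M * n ^ d : ℕ) : ℝ) ≤ rho W / ((1 - η) * ell d x L) := by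
    apply div_le_div_of_nonneg_left (by linarith) (by positivity) h2
  have h4 : (1 + η) * (1 + η + η ^ 2) ≤ (1 + 8 * η) * (1 - η) := by nlinarith
  apply mul_le_mul_of_nonneg_right _ (by positivity)
  calc (1 + η) * (1 + η + η ^ 2) * (rho W / Real.log ((M * n ^ d : ℕ) : ℝ))
      ≤ ((1 + 8 * η) * (1 - η)) * (rho W / ((1 - η) * ell d x L)) := by
        apply mul_le_mul h4 h3 (div_nonneg (by linarith) (lg_pos hS hW hn hnx).le) (by positivity)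
    _ = _ := by field_simp

lemma cop_add {W : ℕ} (G y : ℤ) : IsCoprime (G + W * y) (W : ℤ) ↔ IsCoprime G (W : ℤ) :=
  IsCoprime.add_mul_left_left_iff

lemma log_le_ell {d x L M n : ℕ} (hM : 1 ≤ M) (hML : M ≤ L) (hn : 1 ≤ n) (hnx : n ≤ x) :
    Real.log ((M * n ^ (d + 1) : ℕ) : ℝ) ≤ ell d x L := by
  have hM0 : (0 : ℝ) < M := by exact_mod_cast hM
  have hL0 : (0 : ℝ) < L := by exact_mod_cast (by omega : 0 < L)
  have hn0 : (0 : ℝ) < n := by exact_mod_cast hn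
  have hx0 : (0 : ℝ) < x := by exact_mod_cast (by omega : 0 < x)
  have e : ell d x L = Real.log ((L : ℝ) * (x : ℝ) ^ (d + 1)) := by
    rw [Real.log_mul hL0.ne' (by positivity), Real.log_pow]
    unfold ell
    push_cast
    rfl
  rw [e]
  push_cast
  apply Real.log_le_log (by positivity)
  gcongr

lemma pc_low {B : ℕ} {η : ℝ} {W Y0 : ℕ} {T1 : ℝ} {d x L M : ℕ} (hS : Setup B η W Y0 T1 d x L M)
    (hell : ((d : ℝ) + 2) * (ell d x L ^ B + 2 * W) ≤ ell d x L ^ (B + 2)) (hCN : CN (6 * B + 6) η Y0) (hW : 1 ≤ W)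
    (h0 : 0 < η) (h1 : η ≤ 1 / 8)
    {n : ℕ} (hn : 2 ≤ n) (hnx : n ≤ x)
    (G : ℤ) (hG : |(G : ℝ)| ≤ (d + 2) * L * ell d x L ^ B * (n : ℝ) ^ (d + 1)) (hc : IsCoprime G (W : ℤ)) :
    (1 - 2 * η) * (rho W / ell d x L) * (L : ℝ) ^ (d + 2) ≤ pc (d + 2) L W G n := by
  have hM := hS.hM
  have hn0 : 0 < n := by omega
  have hρ : 1 ≤ rho W := rho_ge hW
  have hpos : 0 < M * n ^ d := by positivity
  have hle' : ((M * n ^ d : ℕ) : ℝ) ≤ ((M * n ^ (d + 1) : ℕ) : ℝ) := by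
    exact_mod_cast Nat.mul_le_mul_left _ (Nat.pow_le_pow_right (by omega) (by omega))
  have hlog : Real.log ((M * n ^ d : ℕ) : ℝ) ≤ Real.log ((M * n ^ (d + 1) : ℕ) : ℝ) :=
    Real.log_le_log (by exact_mod_cast hpos) hle'
  have hlog0 := lg_pos hS hW hn hnx
  have hlog1 : 0 < Real.log ((M * n ^ (d + 1) : ℕ) : ℝ) := lt_of_lt_of_le hlog0 hlog
  have hlogl : Real.log ((M * n ^ (d + 1) : ℕ) : ℝ) ≤ ell d x L :=
    log_le_ell hS.hM (by have := hS.hML; omega) (by omega) hnx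
  have h2 := one_low (d + 1) x M L n hnx (by omega) hS.hM hS.hL hS.hx hS.hML
    (Fp G W) (Fp_nonneg G W) ((1 - η) * (rho W / Real.log ((M * n ^ (d + 1) : ℕ) : ℝ)))
    (mul_nonneg (by linarith) (div_nonneg (by linarith) (by linarith))) (by
    intro b hb
    rw [sum_Fp]
    refine le_trans (le_of_eq ?_) ((cn_one hS hell hCN hW hn hnx G hG b hb).2 ((cop_add _ _).2 hc))
    ring)
  refine le_trans ?_ h2
  have h3 := sum_small hS (by omega : 1 ≤ x)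
  have hη : 0 ≤ 1 - η := by linarith
  calc (1 - 2 * η) * (rho W / ell d x L) * (L : ℝ) ^ (d + 2)
      ≤ ((1 - η) * (1 - η)) * (rho W / ell d x L) * (L : ℝ) ^ (d + 2) := by
        apply mul_le_mul_of_nonneg_right _ (by positivity)
        apply mul_le_mul_of_nonneg_right _ (div_nonneg (by linarith) (by linarith))
        nlinarith
    _ = (1 - η) * (rho W / ell d x L) * ((L : ℝ) ^ (d + 1 + 1) * (1 - η)) := by ring
    _ ≤ _ := by
        gcongr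

lemma pc_bad {B : ℕ} {η : ℝ} {W Y0 : ℕ} {T1 : ℝ} {d x L M : ℕ} (hS : Setup B η W Y0 T1 d x L M) (hW : 1 ≤ W)
    (h0 : 0 < η) (h1 : η ≤ 1 / 8)
    {n : ℕ} (hn : 1 ≤ n) (hnx : n ≤ x)
    (G : ℤ) (hc : ¬ IsCoprime G (W : ℤ)) :
    pc (d + 2) L W G n ≤ 4 / (x * n) * (L : ℝ) ^ (d + 2) := by
  have hM := hS.hM
  have hn0 : 0 < n := by omega
  have hx0 : (0 : ℝ) < x := by exact_mod_cast (by omega : 0 < x)
  have hn0' : (0 : ℝ) < n := by exact_mod_cast hn0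
  have hpos : 0 < M * n ^ (d + 1) := by positivity
  have hpos' : (0 : ℝ) < ((M * n ^ (d + 1) : ℕ) : ℝ) := by exact_mod_cast hpos
  have h2 := one_up (d + 1) x M L n hnx (by omega) hS.hM hS.hL (by have := hS.hx; omega) (by have := hS.hML; omega)
    (Fp G W) (Fp_nonneg G W) (2 / ((M * n ^ (d + 1) : ℕ) : ℝ)) (by positivity) (by
    intro b hb
    rw [sum_Fp, div_mul_cancel₀ _ hpos'.ne']
    exact_mod_cast cn_not_coprime _ W _ hW (fun h => hc ((cop_add _ _).1 h)))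
  refine h2.trans ?_
  have h3 := exp_sum_small hS (by omega) h0 h1
  have h4 : (x : ℝ) * n ≤ ((M * n ^ (d + 1) : ℕ) : ℝ) := by
    push_cast
    have e1 : (x : ℝ) ≤ M := by exact_mod_cast hS.hMx
    have e2 : (n : ℝ) ≤ (n : ℝ) ^ (d + 1) := by
      calc (n : ℝ) = (n : ℝ) ^ 1 := (pow_one _).symm
        _ ≤ _ := pow_le_pow_right₀ (by exact_mod_cast hn) (by omega)
    gcongr
  calc 2 / ((M * n ^ (d + 1) : ℕ) : ℝ) * ((L : ℝ) ^ (d + 1 + 1) * Real.exp (2 * (((d + 1 : ℕ) : ℝ) * x + M) / L))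
      ≤ 2 / ((x : ℝ) * n) * ((L : ℝ) ^ (d + 1 + 1) * 2) := by
        gcongr
        nlinarith
    _ = _ := by ring

/-- two values -/
lemma pc2_up {B : ℕ} {η : ℝ} {W Y0 : ℕ} {T1 : ℝ} {d x L M : ℕ} (hS : Setup B η W Y0 T1 d x L M)
    (hell : ((d : ℝ) + 2) * (ell d x L ^ B + 2 * W) ≤ ell d x L ^ (B + 2)) (hCN : CN (6 * B + 6) η Y0) (hW : 1 ≤ W)
    (h0 : 0 < η) (h1 : η ≤ 1 / 8) (hl : 0 < ell d x L)
    {n m : ℕ} (hmn : m < n) (hnx : n ≤ x) (hxn : (x : ℝ) ≤ 2 * T1 * n) (hm : 2 ≤ m) (hxm : (x : ℝ) ≤ 2 * T1 * m)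
    (G G' : ℤ) (hG : |(G : ℝ)| ≤ (d + 2) * L * ell d x L ^ B * (n : ℝ) ^ (d + 1))
    (hG' : |(G' : ℝ)| ≤ (d + 2) * L * ell d x L ^ B * (m : ℝ) ^ (d + 1)) :
    pc2 (d + 2) L W G G' n m ≤ (1 + 8 * η) * (rho (W * (n - m)) / ell d x L) ^ 2 * (L : ℝ) ^ (d + 2) := by
  have hΔ : 1 ≤ n - m := by omega
  have hρ : 1 ≤ rho (W * (n - m)) := rho_ge (Nat.mul_pos hW hΔ)
  have hL0 : (0 : ℝ) < L := by exact_mod_cast hS.hL
  have hη : 0 < 1 - η := by linarith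
  have hx0 : (0 : ℝ) < x := by exact_mod_cast (by omega : 0 < x)
  obtain ⟨U, hU⟩ : ∃ U : ℝ, U = (1 + η) * (rho (W * (n - m)) / ((1 - η) * ell d x L)) := ⟨_, rfl⟩
  have hU0 : 0 ≤ U := by rw [hU]; positivity
  have hlogU : ∀ r : ℕ, 2 ≤ r → r ≤ x → (x : ℝ) ≤ 2 * T1 * r → ∀ V : ℤ,
      |(V : ℝ)| ≤ ((M * r ^ d : ℕ) : ℝ) * Real.log ((M * r ^ d : ℕ) : ℝ) ^ (6 * B + 6) →
      (cn V (W * (n - m)) (M * r ^ d) : ℝ) ≤ U * ((M * r ^ d : ℕ) : ℝ) := by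
    intro r hr hrx hxr V hV
    refine (cn_two hS hCN hW hr hrx (n - m) hΔ (by omega) V hV).trans ?_
    have h2 := hS.lg_big r hrx hxr
    rw [hU]
    have h3 : rho (W * (n - m)) / Real.log ((M * r ^ d : ℕ) : ℝ) ≤ rho (W * (n - m)) / ((1 - η) * ell d x L) := by
      apply div_le_div_of_nonneg_left (by linarith) (by positivity) h2
    calc (1 + η) * (rho (W * (n - m)) * ((M * r ^ d : ℕ) : ℝ) / Real.log ((M * r ^ d : ℕ) : ℝ))
        = (1 + η) * (rho (W * (n - m)) / Real.log ((M * r ^ d : ℕ) : ℝ)) * ((M * r ^ d : ℕ) : ℝ) := by ring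
      _ ≤ _ := by gcongr
  have hR : ∀ i, dB2 d x M i ≤ L := by
    intro i
    have h5 : (dB2 d x M i : ℝ) ≤ ∑ i, (dB2 d x M i : ℝ) :=
      single_le_sum (f := fun i => (dB2 d x M i : ℝ)) (fun _ _ => Nat.cast_nonneg _) (mem_univ i)
    rw [dB2_sum] at h5
    have h6 := hS.sum_le
    have h7 : 0 ≤ 2 * ((1 + (x : ℝ)) * (d * x + M)) := by positivity
    have h8 : η * (L : ℝ) ≤ 1 * L := by gcongr; linarith
    have h9 : (dB2 d x M i : ℝ) ≤ L := by linarith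
    exact_mod_cast h9
  have h2 := two_up d x M L n m hnx (by omega) (by omega) (by omega) hS.hM hS.hL hR (Fp G W) (Fp G' W) (Fp_nonneg G W)
    (Fp_nonneg G' W) U U hU0 hU0 (by
    intro b hb
    rw [sum_Fp_mul G W _ _ n m hmn]
    exact hlogU n (by omega) hnx hxn _ (V_bound hS hell (by omega) hnx G hG b hb)) (by
    intro b hb
    rw [sum_Fp_mul' G' W _ _ n m hmn]
    apply hlogU m hm (by omega) hxm
    rw [Int.cast_neg, abs_neg]
    exact V_bound hS hell hm (by omega) G' hG' b hb)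
  refine h2.trans ?_
  have h3 : Real.exp (2 * (2 * ((1 + (x : ℝ)) * (d * x + M))) / L) ≤ 1 + η + η ^ 2 := by
    refine (Real.exp_le_exp.2 ?_).trans (exp_le h0 h1)
    rw [div_le_iff₀ hL0]
    exact hS.sum_le
  have h4 : (1 + η) ^ 2 * (1 + η + η ^ 2) ≤ (1 + 8 * η) * (1 - η) ^ 2 := by
    have e1 : η ^ 3 ≤ η := by
      calc η ^ 3 = η * η ^ 2 := by ring
        _ ≤ η * 1 := by
          apply mul_le_mul_of_nonneg_left _ h0.le
          nlinarith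
        _ = η := mul_one _
    have e2 : 0 ≤ η * (3 - 19 * η + 5 * η ^ 2 - η ^ 3) := by
      apply mul_nonneg h0.le
      have := sq_nonneg η
      linarith
    have e3 : (1 + 8 * η) * (1 - η) ^ 2 - (1 + η) ^ 2 * (1 + η + η ^ 2) = η * (3 - 19 * η + 5 * η ^ 2 - η ^ 3) := by ring
    linarith
  have h5 : U * U = (1 + η) ^ 2 * ((rho (W * (n - m)) / ell d x L) ^ 2 / (1 - η) ^ 2) := by
    rw [hU]
    field_simp
  calc U * U * ((L : ℝ) ^ (d + 2) * Real.exp (2 * (2 * ((1 + (x : ℝ)) * (d * x + M))) / L))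
      ≤ U * U * ((L : ℝ) ^ (d + 2) * (1 + η + η ^ 2)) := by gcongr
    _ = ((1 + η) ^ 2 * (1 + η + η ^ 2)) * ((rho (W * (n - m)) / ell d x L) ^ 2 / (1 - η) ^ 2) * (L : ℝ) ^ (d + 2) := by
        rw [h5]; ring
    _ ≤ ((1 + 8 * η) * (1 - η) ^ 2) * ((rho (W * (n - m)) / ell d x L) ^ 2 / (1 - η) ^ 2) * (L : ℝ) ^ (d + 2) := by
        gcongr
    _ = _ := by field_simp

/-- few polynomials have a small value at `x` -/
lemma small_value {B : ℕ} {η : ℝ} {W Y0 : ℕ} {T1 : ℝ} {d x L M : ℕ} (hS : Setup B η W Y0 T1 d x L M) (hW : 1 ≤ W)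
    (h0 : 0 < η) (h1 : η ≤ 1 / 8) (hx : 1 ≤ x) (G : ℤ) :
    ∑ b ∈ bx (d + 2) L, (if |((G + W * ev b x : ℤ) : ℝ)| ≤ ((M * x ^ d : ℕ) : ℝ) then (1 : ℝ) else 0) ≤
      6 / x * (L : ℝ) ^ (d + 2) := by
  have hM := hS.hM
  have hx0 : (0 : ℝ) < x := by exact_mod_cast hx
  have hpos : (1 : ℝ) ≤ ((M * x ^ d : ℕ) : ℝ) := by
    have : 0 < M * x ^ d := by positivity
    exact_mod_cast this
  have h2 := one_up (d + 1) x M L x le_rfl hx hS.hM hS.hL (by have := hS.hx; omega) (by have := hS.hML; omega)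
    (fun y => if |((G + W * y : ℤ) : ℝ)| ≤ ((M * x ^ d : ℕ) : ℝ) then (1 : ℝ) else 0) (fun y => by
      split_ifs <;> norm_num) (3 / x) (by positivity) (by
    intro b hb
    have e : ∑ t ∈ range (M * x ^ (d + 1)), (if |((G + W * (ev b x + (t : ℤ)) : ℤ) : ℝ)| ≤ ((M * x ^ d : ℕ) : ℝ) then (1 : ℝ) else 0) =
        (((range (M * x ^ (d + 1))).filter (fun t : ℕ => |((((G + W * ev b x) + W * (t : ℤ)) : ℤ) : ℝ)| ≤ ((M * x ^ d : ℕ) : ℝ))).card : ℝ) := by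
      rw [← sum_filter, sum_const, nsmul_eq_mul, mul_one]
      congr 2
      apply filter_congr
      intro t _
      have e0 : G + (W : ℤ) * (ev b x + (t : ℤ)) = G + W * ev b x + W * (t : ℤ) := by ring
      rw [e0]
    rw [e]
    refine (few_le _ W _ hW _ (by positivity)).trans ?_
    have e2 : 3 / (x : ℝ) * ((M * x ^ (d + 1) : ℕ) : ℝ) = 3 * ((M * x ^ d : ℕ) : ℝ) := by
      push_cast
      rw [pow_succ]
      field_simp
    rw [e2]
    linarith)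
  refine h2.trans ?_
  have h3 := exp_sum_small hS hx h0 h1
  calc 3 / (x : ℝ) * ((L : ℝ) ^ (d + 1 + 1) * Real.exp (2 * (((d + 1 : ℕ) : ℝ) * x + M) / L))
      ≤ 3 / (x : ℝ) * ((L : ℝ) ^ (d + 1 + 1) * 2) := by
        gcongr
        nlinarith
    _ = _ := by ring

end Pool.Agent.K1H93.SH
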