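import Mathlib
import Pool.Agent.K1H93.SH.A6

/-! The sum of the local factors over the pairs of points of a periodic set. -/

set_option autoImplicit false

namespace Pool.Agent.K1H93.SH

open Finset Pool.Agent.K1H89.PL

lemma count_class (a b v K : ℕ) (hK : 1 ≤ K) (hab : a ≤ b) :
    (((Ioc a b).filter (fun m => m ≡ v [MOD K])).card : ℝ) ≤ ((b : ℝ) - a) / K + 1 := by
  have h := Nat.Ioc_filter_modEq_card a b (r := K) hK v
  have hK0 : (0 : ℚ) < K := by exact_mod_cast hK
  have h1 := Int.floor_le (((b : ℚ) - v) / K)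
  have h2 := Int.lt_floor_add_one (((a : ℚ) - v) / K)
  have h3 : (((⌊((b : ℚ) - v) / K⌋ - ⌊((a : ℚ) - v) / K⌋ : ℤ)) : ℚ) ≤ ((b : ℚ) - a) / K + 1 := by
    push_cast
    have e : ((b : ℚ) - a) / K = ((b : ℚ) - v) / K - ((a : ℚ) - v) / K := by rw [← sub_div]; congr 1; ring
    rw [e]
    linarith
  have h4 : (0 : ℚ) ≤ ((b : ℚ) - a) / K + 1 := by
    have : (a : ℚ) ≤ b := by exact_mod_cast hab
    have : 0 ≤ ((b : ℚ) - a) / K := div_nonneg (by linarith) hK0.le
    linarith
  have h5 : ((((Ioc a b).filter (fun m => m ≡ v [MOD K])).card : ℤ) : ℚ) ≤ ((b : ℚ) - a) / K + 1 := by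
    rw [h]
    push_cast
    apply max_le _ h4
    have := h3
    push_cast at this
    exact this
  have h6 : ((((Ioc a b).filter (fun m => m ≡ v [MOD K])).card : ℚ) : ℝ) ≤ ((((b : ℚ) - a) / K + 1 : ℚ) : ℝ) := by
    exact_mod_cast h5
  push_cast at h6
  exact h6

lemma count_two (P : ℕ → Prop) [DecidablePred P] (W : ℕ) (hW : 1 ≤ W) (hP : ∀ m, P m ↔ P (m % W)) (e n a b : ℕ) (he : 1 ≤ e)
    (hWe : W.Coprime e) (hab : a ≤ b) :
    (((Ioc a b).filter (fun m => P m ∧ m ≡ n [MOD e])).card : ℝ) ≤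
      (((range W).filter P).card : ℝ) * (((b : ℝ) - a) / ((W : ℝ) * e) + 1) := by
  have hsub : (Ioc a b).filter (fun m => P m ∧ m ≡ n [MOD e]) ⊆
      ((range W).filter P).biUnion (fun r => (Ioc a b).filter (fun m => m ≡ (Nat.chineseRemainder hWe r n : ℕ) [MOD (W * e)])) := by
    intro m hm
    rw [mem_filter] at hm
    obtain ⟨hm1, hm2, hm3⟩ := hm
    rw [mem_biUnion]
    refine ⟨m % W, ?_, ?_⟩
    · rw [mem_filter, mem_range]
      exact ⟨Nat.mod_lt _ hW, (hP m).1 hm2⟩
    · rw [mem_filter]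
      refine ⟨hm1, ?_⟩
      rw [← Nat.modEq_and_modEq_iff_modEq_mul hWe]
      have h1 := (Nat.chineseRemainder hWe (m % W) n).2
      refine ⟨?_, hm3.trans h1.2.symm⟩
      exact (Nat.mod_modEq m W).symm.trans h1.1.symm
  have h1 := (card_le_card hsub).trans card_biUnion_le
  have h2 : (((Ioc a b).filter (fun m => P m ∧ m ≡ n [MOD e])).card : ℝ) ≤
      ∑ r ∈ (range W).filter P, (((Ioc a b).filter (fun m => m ≡ (Nat.chineseRemainder hWe r n : ℕ) [MOD (W * e)])).card : ℝ) := by
    exact_mod_cast h1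
  refine h2.trans ?_
  calc ∑ r ∈ (range W).filter P, (((Ioc a b).filter (fun m => m ≡ (Nat.chineseRemainder hWe r n : ℕ) [MOD (W * e)])).card : ℝ)
      ≤ ∑ _r ∈ (range W).filter P, (((b : ℝ) - a) / ((W : ℝ) * e) + 1) := by
        apply sum_le_sum
        intro r _
        have := count_class a b (Nat.chineseRemainder hWe r n : ℕ) (W * e) (Nat.mul_pos hW he) hab
        push_cast at this
        exact this
    _ = _ := by rw [sum_const, nsmul_eq_mul]

/-- the distance -/
def ds (n m : ℕ) : ℕ := (n - m) + (m - n)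

lemma ds_dvd {n m e : ℕ} : e ∣ ds n m ↔ m ≡ n [MOD e] := by
  unfold ds
  rw [Nat.modEq_iff_dvd]
  rcases le_total m n with h | h
  · have e1 : n - m + (m - n) = n - m := by omega
    rw [e1, ← Int.natCast_dvd_natCast, Nat.cast_sub h]
  · have e1 : n - m + (m - n) = m - n := by omega
    rw [e1, ← Int.natCast_dvd_natCast, Nat.cast_sub h, ← dvd_neg]
    congr! 1
    ring

lemma GG_class (w W C : ℕ) (hw : ∀ p : ℕ, p.Prime → p ≤ w → p ∣ W) (hW : 1 ≤ W) (P : ℕ → Prop) [DecidablePred P]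
    (hP : ∀ m, P m ↔ P (m % W)) (n a b : ℕ) (hab : a ≤ b) (hnb : n ≤ b) :
    ∑ m ∈ (Ioc a b).filter (fun m => P m ∧ m ≠ n), GG W (ds n m) C ≤
      ((((range W).filter P).card : ℝ) / W) *
        (((b : ℝ) - a) * ∏ p ∈ (prN b).filter (fun p => w < p), (1 + (C : ℝ) / (p : ℝ) ^ 2) +
          W * ∏ p ∈ prN b, (1 + (C : ℝ) / p)) := by
  classical
  have hW0 : (0 : ℝ) < W := by exact_mod_cast hW
  have hba : (0 : ℝ) ≤ (b : ℝ) - a := by
    have : (a : ℝ) ≤ b := by exact_mod_cast hab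
    linarith
  set Q := (prN b).filter (fun p => ¬ p ∣ W) with hQ
  have hQp : ∀ p ∈ Q, p.Prime := by
    intro p hp
    rw [hQ, mem_filter] at hp
    exact (mem_prN.1 hp.1).2
  have hterm : ∀ m ∈ (Ioc a b).filter (fun m => P m ∧ m ≠ n), GG W (ds n m) C ≤
      ∑ T ∈ Q.powerset, if m ≡ n [MOD (∏ p ∈ T, p)] then ∏ p ∈ T, ((C : ℝ) / p) else 0 := by
    intro m hm
    rw [mem_filter, mem_Ioc] at hm
    obtain ⟨hm1, _, hm3⟩ := hm
    have hds1 : 1 ≤ ds n m := by unfold ds; omega
    have hds2 : ds n m ≤ b := by unfold ds; omega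
    have h1 : GG W (ds n m) C ≤ ∏ p ∈ Q.filter (fun p => p ∣ ds n m), (1 + (C : ℝ) / p) := by
      unfold GG
      apply prod_le_prod_of_subset_of_one_le
      · intro p hp
        obtain ⟨q1, q2, q3⟩ := pf_prime hp
        rw [mem_filter, hQ, mem_filter, mem_prN]
        exact ⟨⟨⟨(Nat.le_of_dvd (by omega) q2).trans (by omega), q1⟩, q3⟩, q2⟩
      · intro p _
        positivity
      · intro p _ _
        have : (0 : ℝ) ≤ C / p := by positivity
        linarith
    refine h1.trans (le_of_eq ?_)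
    rw [prod_one_add, ← sum_filter]
    apply sum_congr _ (fun _ _ => rfl)
    ext T
    simp only [mem_powerset, mem_filter, subset_iff]
    constructor
    · intro hT
      refine ⟨fun p hp => (hT hp).1, ?_⟩
      rw [← ds_dvd]
      apply Finset.prod_primes_dvd
      · intro p hp
        exact (hQp p (hT hp).1).prime
      · intro p hp
        exact (hT hp).2
    · rintro ⟨hT1, hT2⟩ p hp
      rw [← ds_dvd] at hT2
      exact ⟨hT1 hp, (dvd_prod_of_mem _ hp).trans hT2⟩
  calc ∑ m ∈ (Ioc a b).filter (fun m => P m ∧ m ≠ n), GG W (ds n m) C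
      ≤ ∑ m ∈ (Ioc a b).filter (fun m => P m ∧ m ≠ n), ∑ T ∈ Q.powerset, if m ≡ n [MOD (∏ p ∈ T, p)] then ∏ p ∈ T, ((C : ℝ) / p) else 0 :=
        sum_le_sum hterm
    _ = ∑ T ∈ Q.powerset, ∑ m ∈ (Ioc a b).filter (fun m => P m ∧ m ≠ n), if m ≡ n [MOD (∏ p ∈ T, p)] then ∏ p ∈ T, ((C : ℝ) / p) else 0 :=
        sum_comm
    _ ≤ ∑ T ∈ Q.powerset, ((((range W).filter P).card : ℝ) * (((b : ℝ) - a) / ((W : ℝ) * ((∏ p ∈ T, p : ℕ) : ℝ)) + 1)) *
          ∏ p ∈ T, ((C : ℝ) / p) := by
        apply sum_le_sum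
        intro T hT
        rw [mem_powerset] at hT
        have h0 : 0 ≤ ∏ p ∈ T, ((C : ℝ) / p) := prod_nonneg fun p _ => by positivity
        rw [← sum_filter, sum_const, nsmul_eq_mul, filter_filter]
        apply mul_le_mul_of_nonneg_right _ h0
        have he1 : 1 ≤ ∏ p ∈ T, p := Nat.one_le_iff_ne_zero.2 (prod_ne_zero_iff.2 fun p hp => (hQp p (hT hp)).ne_zero)
        have hcop : W.Coprime (∏ p ∈ T, p) := by
          apply Nat.Coprime.prod_right
          intro p hp
          have hpQ := hT hp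
          have := hQp p hpQ
          rw [hQ, mem_filter] at hpQ
          exact ((Nat.Prime.coprime_iff_not_dvd this).2 hpQ.2).symm
        refine le_trans ?_ (count_two P W hW hP (∏ p ∈ T, p) n a b he1 hcop hab)
        have : (Ioc a b).filter (fun m => (P m ∧ m ≠ n) ∧ m ≡ n [MOD (∏ p ∈ T, p)]) ⊆
            (Ioc a b).filter (fun m => P m ∧ m ≡ n [MOD (∏ p ∈ T, p)]) := by
          intro m hm
          rw [mem_filter] at hm ⊢
          exact ⟨hm.1, hm.2.1.1, hm.2.2⟩
        exact_mod_cast card_le_card this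
    _ = ((((range W).filter P).card : ℝ) / W) * (((b : ℝ) - a) * ∑ T ∈ Q.powerset, ∏ p ∈ T, ((C : ℝ) / (p : ℝ) ^ 2) +
          W * ∑ T ∈ Q.powerset, ∏ p ∈ T, ((C : ℝ) / p)) := by
        rw [mul_sum, mul_sum, ← sum_add_distrib, mul_sum]
        apply sum_congr rfl
        intro T hT
        rw [mem_powerset] at hT
        have he1 : (0 : ℝ) < ((∏ p ∈ T, p : ℕ) : ℝ) := by
          exact_mod_cast Nat.pos_of_ne_zero (prod_ne_zero_iff.2 fun p hp => (hQp p (hT hp)).ne_zero)
        have e1 : ∏ p ∈ T, ((C : ℝ) / (p : ℝ) ^ 2) = (∏ p ∈ T, ((C : ℝ) / p)) / ((∏ p ∈ T, p : ℕ) : ℝ) := by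
          push_cast
          rw [← prod_div_distrib]
          apply prod_congr rfl
          intro p _
          rw [div_div, sq]
        rw [e1]
        generalize (∏ p ∈ T, ((C : ℝ) / p)) = z1
        generalize ((∏ p ∈ T, p : ℕ) : ℝ) = z2 at he1
        generalize (((range W).filter P).card : ℝ) = z3
        generalize ((b : ℝ) - a) = z4
        rw [mul_add, add_mul]
        · field_simp
    _ = ((((range W).filter P).card : ℝ) / W) * (((b : ℝ) - a) * ∏ p ∈ Q, (1 + (C : ℝ) / (p : ℝ) ^ 2) +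
          W * ∏ p ∈ Q, (1 + (C : ℝ) / p)) := by
        rw [prod_one_add, prod_one_add]
    _ ≤ _ := by
        have hsub1 : Q ⊆ (prN b).filter (fun p => w < p) := by
          intro p hp
          have := hQp p hp
          rw [hQ, mem_filter] at hp
          rw [mem_filter]
          refine ⟨hp.1, ?_⟩
          by_contra hcon
          exact hp.2 (hw p this (by omega))
        have h1 : ∏ p ∈ Q, (1 + (C : ℝ) / (p : ℝ) ^ 2) ≤ ∏ p ∈ (prN b).filter (fun p => w < p), (1 + (C : ℝ) / (p : ℝ) ^ 2) := by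
          apply prod_le_prod_of_subset_of_one_le hsub1
          · intro p _
            positivity
          · intro p _ _
            have : (0 : ℝ) ≤ (C : ℝ) / (p : ℝ) ^ 2 := by positivity
            linarith
        have h2 : ∏ p ∈ Q, (1 + (C : ℝ) / p) ≤ ∏ p ∈ prN b, (1 + (C : ℝ) / p) := by
          apply prod_le_prod_of_subset_of_one_le (filter_subset _ _)
          · intro p _
            positivity
          · intro p _ _
            have : (0 : ℝ) ≤ (C : ℝ) / p := by positivity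
            linarith
        apply mul_le_mul_of_nonneg_left _ (div_nonneg (Nat.cast_nonneg _) hW0.le)
        exact add_le_add (mul_le_mul_of_nonneg_left h1 hba) (mul_le_mul_of_nonneg_left h2 hW0.le)

end Pool.Agent.K1H93.SH
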