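import Mathlib
import Pool.Agent.K1H93.SH.A7

/-! The first two moments. -/

set_option autoImplicit false

namespace Pool.Agent.K1H93.SH

open Finset Pool.Agent.K1H89.PL

lemma cheb {Ω : Type} (S : Finset Ω) (N : Ω → ℝ) (μ κ V : ℝ) (hμ : 0 < μ) (hκ : 0 < κ)
    (hV : ∑ b ∈ S, (N b - μ) ^ 2 ≤ V * μ ^ 2 * S.card) :
    ((S.filter (fun b => κ * μ < |N b - μ|)).card : ℝ) ≤ V / κ ^ 2 * S.card := by
  classical
  have h1 : ((S.filter (fun b => κ * μ < |N b - μ|)).card : ℝ) * (κ * μ) ^ 2 ≤ ∑ b ∈ S, (N b - μ) ^ 2 := by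
    rw [← nsmul_eq_mul, ← sum_const]
    refine le_trans (sum_le_sum ?_) (sum_le_sum_of_subset_of_nonneg (filter_subset _ _) fun b _ _ => sq_nonneg _)
    intro b hb
    rw [mem_filter] at hb
    rw [← sq_abs (N b - μ)]
    exact pow_le_pow_left₀ (by positivity) hb.2.le 2
  have h2 : ((S.filter (fun b => κ * μ < |N b - μ|)).card : ℝ) * (κ * μ) ^ 2 ≤ (V / κ ^ 2 * S.card) * (κ * μ) ^ 2 := by
    refine (h1.trans hV).trans (le_of_eq ?_)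
    field_simp
  exact le_of_mul_le_mul_right h2 (by positivity)

lemma mark {Ω : Type} (S : Finset Ω) (N : Ω → ℝ) (μ κ V : ℝ) (hμ : 0 < μ) (hκ : 0 < κ) (hN : ∀ b ∈ S, 0 ≤ N b)
    (hV : ∑ b ∈ S, N b ≤ V * μ * S.card) :
    ((S.filter (fun b => κ * μ < N b)).card : ℝ) ≤ V / κ * S.card := by
  classical
  have h1 : ((S.filter (fun b => κ * μ < N b)).card : ℝ) * (κ * μ) ≤ ∑ b ∈ S, N b := by
    rw [← nsmul_eq_mul, ← sum_const]
    refine le_trans (sum_le_sum ?_) (sum_le_sum_of_subset_of_nonneg (filter_subset _ _) fun b hb _ => hN b hb)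
    intro b hb
    rw [mem_filter] at hb
    exact hb.2.le
  have h2 : ((S.filter (fun b => κ * μ < N b)).card : ℝ) * (κ * μ) ≤ (V / κ * S.card) * (κ * μ) := by
    refine (h1.trans hV).trans (le_of_eq ?_)
    field_simp
  exact le_of_mul_le_mul_right h2 (by positivity)

/-- the systems -/
noncomputable def om (k N L : ℕ) : Finset (Fin k → Fin N → ℤ) := Fintype.piFinset (fun _ => bx N L)

lemma om_card (k N L : ℕ) : ((om k N L).card : ℝ) = ((L : ℝ) ^ N) ^ k := by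
  unfold om
  rw [Fintype.card_piFinset]
  simp [bx_card]

/-- `1` if all the values at `n` are primes, `0` otherwise -/
noncomputable def XX {k N : ℕ} (W : ℕ) (G : Fin k → ℕ → ℤ) (b : Fin k → Fin N → ℤ) (n : ℕ) : ℝ :=
  ∏ j, Fp (G j n) W (ev (b j) n)

lemma XX_nonneg {k N : ℕ} (W : ℕ) (G : Fin k → ℕ → ℤ) (b : Fin k → Fin N → ℤ) (n : ℕ) : 0 ≤ XX W G b n :=
  prod_nonneg fun _ _ => Fp_nonneg _ _ _

lemma XX_eq {k N : ℕ} (W : ℕ) (G : Fin k → ℕ → ℤ) (b : Fin k → Fin N → ℤ) (n : ℕ) :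
    XX W G b n = if ∀ j, (G j n + W * ev (b j) n).natAbs.Prime then 1 else 0 := by
  classical
  unfold XX Fp
  rw [prod_boole]
  simp

lemma XX_sq {k N : ℕ} (W : ℕ) (G : Fin k → ℕ → ℤ) (b : Fin k → Fin N → ℤ) (n : ℕ) :
    XX W G b n * XX W G b n = XX W G b n := by
  rw [XX_eq]
  split_ifs <;> norm_num

lemma XX_le_one {k N : ℕ} (W : ℕ) (G : Fin k → ℕ → ℤ) (b : Fin k → Fin N → ℤ) (n : ℕ) : XX W G b n ≤ 1 := by
  rw [XX_eq]
  split_ifs <;> norm_num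

lemma XX_sum {k N : ℕ} (L W : ℕ) (G : Fin k → ℕ → ℤ) (n : ℕ) :
    ∑ b ∈ om k N L, XX W G b n = ∏ j, pc N L W (G j n) n := by
  unfold om XX pc
  rw [prod_univ_sum]

lemma XX_sum2 {k N : ℕ} (L W : ℕ) (G : Fin k → ℕ → ℤ) (n m : ℕ) :
    ∑ b ∈ om k N L, XX W G b n * XX W G b m = ∏ j, pc2 N L W (G j n) (G j m) n m := by
  unfold om XX pc2
  rw [prod_univ_sum]
  apply sum_congr rfl
  intro b _
  rw [prod_mul_distrib]

lemma pc_nonneg (N L W : ℕ) (G : ℤ) (n : ℕ) : 0 ≤ pc N L W G n := sum_nonneg fun _ _ => Fp_nonneg _ _ _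

lemma pc_le (N L W : ℕ) (G : ℤ) (n : ℕ) : pc N L W G n ≤ (L : ℝ) ^ N := by
  unfold pc
  calc ∑ b ∈ bx N L, Fp G W (ev b n) ≤ ∑ _b ∈ bx N L, (1 : ℝ) := by
        apply sum_le_sum
        intro b _
        unfold Fp
        split_ifs <;> norm_num
    _ = _ := by
        rw [sum_const, nsmul_eq_mul, mul_one, bx_card]
        push_cast
        rfl

lemma pc2_nonneg (N L W : ℕ) (G G' : ℤ) (n m : ℕ) : 0 ≤ pc2 N L W G G' n m :=
  sum_nonneg fun _ _ => mul_nonneg (Fp_nonneg _ _ _) (Fp_nonneg _ _ _)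

/-- the context of the moment computations -/
structure Ctx (k B : ℕ) (η : ℝ) (W Y0 : ℕ) (T1 : ℝ) (d x L M : ℕ) (G : Fin k → ℕ → ℤ) : Prop where
  hS : Setup B η W Y0 T1 d x L M
  hell : ((d : ℝ) + 2) * (ell d x L ^ B + 2 * W) ≤ ell d x L ^ (B + 2)
  hCN : CN (6 * B + 6) η Y0
  hW : 1 ≤ W
  h0 : 0 < η
  h1 : η ≤ 1 / 8
  hl : 0 < ell d x L
  hG : ∀ j, ∀ n : ℕ, 1 ≤ n → n ≤ x → |(G j n : ℝ)| ≤ (d + 2) * L * ell d x L ^ B * (n : ℝ) ^ (d + 1)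

/-- the density of the primes -/
noncomputable def vv (W d x L : ℕ) : ℝ := rho W / ell d x L

lemma mean_low {k B : ℕ} {η : ℝ} {W Y0 : ℕ} {T1 : ℝ} {d x L M : ℕ} {G : Fin k → ℕ → ℤ} (hC : Ctx k B η W Y0 T1 d x L M G)
    {n : ℕ} (hn : 2 ≤ n) (hnx : n ≤ x) (hc : ∀ j, IsCoprime (G j n) (W : ℤ)) :
    (1 - 2 * η) ^ k * vv W d x L ^ k * ((L : ℝ) ^ (d + 2)) ^ k ≤ ∑ b ∈ om k (d + 2) L, XX W G b n := by
  rw [XX_sum]
  have h0 := hC.h0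
  have h1 := hC.h1
  have hρ : 1 ≤ rho W := rho_ge hC.hW
  have hl := hC.hl
  have e : (1 - 2 * η) ^ k * vv W d x L ^ k * ((L : ℝ) ^ (d + 2)) ^ k =
      ∏ _j : Fin k, ((1 - 2 * η) * (rho W / ell d x L) * (L : ℝ) ^ (d + 2)) := by
    rw [prod_const, card_univ, Fintype.card_fin, mul_pow, mul_pow]
    rfl
  rw [e]
  apply prod_le_prod
  · intro j _
    have : 0 ≤ 1 - 2 * η := by linarith
    positivity
  · intro j _
    exact pc_low hC.hS hC.hell hC.hCN hC.hW h0 h1 hn hnx (G j n) (hC.hG j n (by omega) hnx) (hc j)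

lemma mean_up {k B : ℕ} {η : ℝ} {W Y0 : ℕ} {T1 : ℝ} {d x L M : ℕ} {G : Fin k → ℕ → ℤ} (hC : Ctx k B η W Y0 T1 d x L M G)
    {n : ℕ} (hn : 2 ≤ n) (hnx : n ≤ x) (hxn : (x : ℝ) ≤ 2 * T1 * n) :
    ∑ b ∈ om k (d + 2) L, XX W G b n ≤ (1 + 8 * η) ^ k * vv W d x L ^ k * ((L : ℝ) ^ (d + 2)) ^ k := by
  rw [XX_sum]
  have h0 := hC.h0
  have h1 := hC.h1
  have e : (1 + 8 * η) ^ k * vv W d x L ^ k * ((L : ℝ) ^ (d + 2)) ^ k =
      ∏ _j : Fin k, ((1 + 8 * η) * (rho W / ell d x L) * (L : ℝ) ^ (d + 2)) := by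
    rw [prod_const, card_univ, Fintype.card_fin, mul_pow, mul_pow]
    rfl
  rw [e]
  apply prod_le_prod
  · intro j _
    exact pc_nonneg _ _ _ _ _
  · intro j _
    exact pc_big hC.hS hC.hell hC.hCN hC.hW h0 h1 hC.hl hn hnx hxn (G j n) (hC.hG j n (by omega) hnx)

lemma mean_small {k B : ℕ} {η : ℝ} {W Y0 : ℕ} {T1 : ℝ} {d x L M : ℕ} {G : Fin k → ℕ → ℤ} (hC : Ctx k B η W Y0 T1 d x L M G)
    {n : ℕ} (hn : 2 ≤ n) (hnx : n ≤ x) :
    ∑ b ∈ om k (d + 2) L, XX W G b n ≤ (16 * Real.log x) ^ k * vv W d x L ^ k * ((L : ℝ) ^ (d + 2)) ^ k := by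
  rw [XX_sum]
  have h0 := hC.h0
  have h1 := hC.h1
  have e : (16 * Real.log x) ^ k * vv W d x L ^ k * ((L : ℝ) ^ (d + 2)) ^ k =
      ∏ _j : Fin k, (16 * Real.log x * rho W / ell d x L * (L : ℝ) ^ (d + 2)) := by
    rw [prod_const, card_univ, Fintype.card_fin]
    unfold vv
    rw [← mul_pow, ← mul_pow]
    congr 1
    ring
  rw [e]
  apply prod_le_prod
  · intro j _
    exact pc_nonneg _ _ _ _ _
  · intro j _
    exact pc_small hC.hS hC.hell hC.hCN hC.hW h0 h1 hC.hl hn hnx (G j n) (hC.hG j n (by omega) hnx)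

lemma mean_mid {k B : ℕ} {η : ℝ} {W Y0 : ℕ} {T1 : ℝ} {d x L M : ℕ} {G : Fin k → ℕ → ℤ} (hC : Ctx k B η W Y0 T1 d x L M G)
    {n : ℕ} (hn : 2 ≤ n) (hnx : n ≤ x) (hxn : x ≤ n ^ 2) :
    ∑ b ∈ om k (d + 2) L, XX W G b n ≤ 16 ^ k * vv W d x L ^ k * ((L : ℝ) ^ (d + 2)) ^ k := by
  rw [XX_sum]
  have h0 := hC.h0
  have h1 := hC.h1
  have e : 16 ^ k * vv W d x L ^ k * ((L : ℝ) ^ (d + 2)) ^ k =
      ∏ _j : Fin k, (16 * rho W / ell d x L * (L : ℝ) ^ (d + 2)) := by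
    rw [prod_const, card_univ, Fintype.card_fin]
    unfold vv
    rw [← mul_pow, ← mul_pow]
    congr 1
    ring
  rw [e]
  apply prod_le_prod
  · intro j _
    exact pc_nonneg _ _ _ _ _
  · intro j _
    exact pc_mid hC.hS hC.hell hC.hCN hC.hW h0 h1 hC.hl hn hnx hxn (G j n) (hC.hG j n (by omega) hnx)

lemma mean_bad {k B : ℕ} {η : ℝ} {W Y0 : ℕ} {T1 : ℝ} {d x L M : ℕ} {G : Fin k → ℕ → ℤ} (hC : Ctx k B η W Y0 T1 d x L M G)
    {n : ℕ} (hn : 1 ≤ n) (hnx : n ≤ x) (hc : ¬ ∀ j, IsCoprime (G j n) (W : ℤ)) :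
    ∑ b ∈ om k (d + 2) L, XX W G b n ≤ 4 / (x * n) * ((L : ℝ) ^ (d + 2)) ^ k := by
  classical
  rw [XX_sum]
  push Not at hc
  obtain ⟨j, hj⟩ := hc
  have h0 := hC.h0
  have h1 := hC.h1
  rw [← mul_prod_erase univ _ (mem_univ j)]
  have h2 := pc_bad hC.hS hC.hW h0 h1 hn hnx (G j n) hj
  have h3 : ∏ i ∈ univ.erase j, pc (d + 2) L W (G i n) n ≤ ∏ _i ∈ univ.erase j, (L : ℝ) ^ (d + 2) :=
    prod_le_prod (fun i _ => pc_nonneg _ _ _ _ _) (fun i _ => pc_le _ _ _ _ _)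
  have h4 : (L : ℝ) ^ (d + 2) * ∏ _i ∈ univ.erase j, (L : ℝ) ^ (d + 2) = ((L : ℝ) ^ (d + 2)) ^ k := by
    rw [mul_prod_erase univ (fun _ => (L : ℝ) ^ (d + 2)) (mem_univ j), prod_const, card_univ, Fintype.card_fin]
  calc pc (d + 2) L W (G j n) n * ∏ i ∈ univ.erase j, pc (d + 2) L W (G i n) n
      ≤ (4 / (x * n) * (L : ℝ) ^ (d + 2)) * ∏ _i ∈ univ.erase j, (L : ℝ) ^ (d + 2) :=
        mul_le_mul h2 h3 (prod_nonneg fun i _ => pc_nonneg _ _ _ _ _) (by positivity)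
    _ = _ := by rw [mul_assoc, h4]

lemma pair_up {k B : ℕ} {η : ℝ} {W Y0 : ℕ} {T1 : ℝ} {d x L M : ℕ} {G : Fin k → ℕ → ℤ} (hC : Ctx k B η W Y0 T1 d x L M G)
    {n m : ℕ} (hmn : m < n) (hnx : n ≤ x) (hxn : (x : ℝ) ≤ 2 * T1 * n) (hm : 2 ≤ m) (hxm : (x : ℝ) ≤ 2 * T1 * m) :
    ∑ b ∈ om k (d + 2) L, XX W G b n * XX W G b m ≤
      ((1 + 8 * η) ^ k * (vv W d x L ^ k) ^ 2 * ((L : ℝ) ^ (d + 2)) ^ k) * GG W (ds n m) ((9 ^ k : ℕ) : ℝ) := by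
  rw [XX_sum2]
  have h0 := hC.h0
  have h1 := hC.h1
  have hρ : 1 ≤ rho W := rho_ge hC.hW
  have hl := hC.hl
  have hΔ : 1 ≤ n - m := by omega
  have h2 := rho_le_GG hC.hW hΔ (2 * k)
  have eds : ds n m = n - m := by unfold ds; omega
  rw [eds]
  have e9 : ((9 ^ k : ℕ) : ℝ) = 3 ^ (2 * k) := by
    rw [pow_mul]
    norm_num
  rw [e9]
  calc ∏ j, pc2 (d + 2) L W (G j n) (G j m) n m
      ≤ ∏ _j : Fin k, ((1 + 8 * η) * (rho (W * (n - m)) / ell d x L) ^ 2 * (L : ℝ) ^ (d + 2)) := by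
        apply prod_le_prod
        · intro j _
          exact pc2_nonneg _ _ _ _ _ _ _
        · intro j _
          exact pc2_up hC.hS hC.hell hC.hCN hC.hW h0 h1 hC.hl hmn hnx hxn hm hxm (G j n) (G j m) (hC.hG j n (by omega) hnx)
            (hC.hG j m (by omega) (by omega))
    _ = (1 + 8 * η) ^ k * (rho (W * (n - m)) ^ (2 * k) / ell d x L ^ (2 * k)) * ((L : ℝ) ^ (d + 2)) ^ k := by
        rw [prod_const, card_univ, Fintype.card_fin, mul_pow, mul_pow, div_pow, div_pow, ← pow_mul, ← pow_mul]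
    _ ≤ (1 + 8 * η) ^ k * ((rho W ^ (2 * k) * GG W (n - m) (3 ^ (2 * k))) / ell d x L ^ (2 * k)) * ((L : ℝ) ^ (d + 2)) ^ k := by
        gcongr
    _ = _ := by
        unfold vv
        rw [div_pow]
        ring

end Pool.Agent.K1H93.SH
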