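import Mathlib
import Pool.Agent.K1H93.SH.A8

/-! The second moment and the contribution of the small `n`. -/

set_option autoImplicit false

namespace Pool.Agent.K1H93.SH

open Finset Pool.Agent.K1H89.PL

lemma second_moment {Ω : Type} (S : Finset Ω) (A : Finset ℕ) (X : Ω → ℕ → ℝ) (hX : ∀ b n, X b n * X b n = X b n)
    (μ Z c1 c2 c3 : ℝ) (hμ : 0 ≤ μ) (hZ : (S.card : ℝ) = Z)
    (h1 : ∀ n ∈ A, c1 * Z ≤ ∑ b ∈ S, X b n) (h2 : ∀ n ∈ A, ∑ b ∈ S, X b n ≤ c2 * Z)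
    (h3 : ∀ n ∈ A, ∑ m ∈ A.filter (fun m => m ≠ n), ∑ b ∈ S, X b n * X b m ≤ c3 * Z) :
    ∑ b ∈ S, (∑ n ∈ A, X b n - μ) ^ 2 ≤ ((A.card : ℝ) * (c2 + c3) - 2 * μ * ((A.card : ℝ) * c1) + μ ^ 2) * Z := by
  classical
  have e1 : ∑ b ∈ S, (∑ n ∈ A, X b n - μ) ^ 2 =
      ∑ n ∈ A, (∑ b ∈ S, X b n + ∑ m ∈ A.filter (fun m => m ≠ n), ∑ b ∈ S, X b n * X b m) -
        2 * μ * ∑ n ∈ A, ∑ b ∈ S, X b n + μ ^ 2 * Z := by
    have e2 : ∀ b ∈ S, (∑ n ∈ A, X b n - μ) ^ 2 = (∑ n ∈ A, ∑ m ∈ A, X b n * X b m) - 2 * μ * ∑ n ∈ A, X b n + μ ^ 2 := by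
      intro b _
      rw [← sum_mul_sum]
      ring
    have e5 : ∑ b ∈ S, ∑ n ∈ A, X b n = ∑ n ∈ A, ∑ b ∈ S, X b n := sum_comm
    rw [sum_congr rfl e2, sum_add_distrib, sum_sub_distrib, sum_const, nsmul_eq_mul, hZ, ← mul_sum, e5]
    have e3 : ∑ b ∈ S, ∑ n ∈ A, ∑ m ∈ A, X b n * X b m =
        ∑ n ∈ A, (∑ b ∈ S, X b n + ∑ m ∈ A.filter (fun m => m ≠ n), ∑ b ∈ S, X b n * X b m) := by
      rw [sum_comm]
      apply sum_congr rfl
      intro n hn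
      rw [sum_comm, ← sum_filter_add_sum_filter_not A (fun m => m = n)]
      congr 1
      rw [filter_eq' A n, if_pos hn, sum_singleton]
      apply sum_congr rfl
      intro b _
      exact hX b n
    rw [e3]
    ring
  have h4 : ∑ n ∈ A, (∑ b ∈ S, X b n + ∑ m ∈ A.filter (fun m => m ≠ n), ∑ b ∈ S, X b n * X b m) ≤
      (A.card : ℝ) * (c2 * Z + c3 * Z) := by
    rw [← nsmul_eq_mul, ← sum_const]
    exact sum_le_sum fun n hn => add_le_add (h2 n hn) (h3 n hn)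
  have h5 : (A.card : ℝ) * (c1 * Z) ≤ ∑ n ∈ A, ∑ b ∈ S, X b n := by
    rw [← nsmul_eq_mul, ← sum_const]
    exact sum_le_sum fun n hn => h1 n hn
  rw [e1]
  have h6 := mul_le_mul_of_nonneg_left h5 (by positivity : 0 ≤ 2 * μ)
  calc _ ≤ (A.card : ℝ) * (c2 * Z + c3 * Z) - 2 * μ * ((A.card : ℝ) * (c1 * Z)) + μ ^ 2 * Z := by linarith
    _ = _ := by ring

/-- the numbers prime to the modulus -/
def okG {k : ℕ} (W : ℕ) (G : Fin k → ℕ → ℤ) (n : ℕ) : Prop := ∀ j, IsCoprime (G j n) (W : ℤ)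

lemma pair_sum {k B : ℕ} {η : ℝ} {W Y0 : ℕ} {T1 : ℝ} {d x L M : ℕ} {G : Fin k → ℕ → ℤ} (hC : Ctx k B η W Y0 T1 d x L M G)
    (w : ℕ) (hw : ∀ p : ℕ, p.Prime → p ≤ w → p ∣ W) (P : ℕ → Prop) [DecidablePred P]
    (hP : ∀ m, P m ↔ P (m % W)) (a : ℕ) (ha : a ≤ x) (hax : ∀ n, a < n → (x : ℝ) ≤ 2 * T1 * n) (ha2 : 1 ≤ a)
    (n : ℕ) (hn : n ∈ (Ioc a x).filter P) :
    ∑ m ∈ ((Ioc a x).filter P).filter (fun m => m ≠ n), ∑ b ∈ om k (d + 2) L, XX W G b n * XX W G b m ≤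
      ((1 + 8 * η) ^ k * (vv W d x L ^ k) ^ 2 * ((((range W).filter P).card : ℝ) / W *
        (((x : ℝ) - a) * ∏ p ∈ (prN x).filter (fun p => w < p), (1 + ((9 ^ k : ℕ) : ℝ) / (p : ℝ) ^ 2) +
          W * ∏ p ∈ prN x, (1 + ((9 ^ k : ℕ) : ℝ) / p)))) * ((L : ℝ) ^ (d + 2)) ^ k := by
  classical
  rw [mem_filter, mem_Ioc] at hn
  obtain ⟨⟨hn1, hn2⟩, hn3⟩ := hn
  have h0 := hC.h0
  have hρ : 1 ≤ rho W := rho_ge hC.hW
  have hl := hC.hl
  have hvv : 0 ≤ vv W d x L := by unfold vv; positivity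
  have h1 : ∀ m ∈ ((Ioc a x).filter P).filter (fun m => m ≠ n), ∑ b ∈ om k (d + 2) L, XX W G b n * XX W G b m ≤
      ((1 + 8 * η) ^ k * (vv W d x L ^ k) ^ 2 * ((L : ℝ) ^ (d + 2)) ^ k) * GG W (ds n m) ((9 ^ k : ℕ) : ℝ) := by
    intro m hm
    rw [mem_filter, mem_filter, mem_Ioc] at hm
    obtain ⟨⟨⟨hm1, hm2⟩, _⟩, hm4⟩ := hm
    rcases lt_or_gt_of_ne hm4 with h | h
    · exact pair_up hC h hn2 (hax n hn1) (by omega) (hax m hm1)
    · have h5 := pair_up hC h hm2 (hax m hm1) (by omega) (hax n hn1)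
      have e : ds m n = ds n m := by unfold ds; omega
      rw [e] at h5
      refine le_trans (le_of_eq ?_) h5
      apply sum_congr rfl
      intro b _
      ring
  refine (sum_le_sum h1).trans ?_
  rw [← mul_sum, filter_filter]
  have h2 := GG_class w W (9 ^ k) hw hC.hW P hP n a x ha hn2
  calc ((1 + 8 * η) ^ k * (vv W d x L ^ k) ^ 2 * ((L : ℝ) ^ (d + 2)) ^ k) *
        ∑ m ∈ (Ioc a x).filter (fun m => P m ∧ m ≠ n), GG W (ds n m) ((9 ^ k : ℕ) : ℝ)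
      ≤ ((1 + 8 * η) ^ k * (vv W d x L ^ k) ^ 2 * ((L : ℝ) ^ (d + 2)) ^ k) * ((((range W).filter P).card : ℝ) / W *
        (((x : ℝ) - a) * ∏ p ∈ (prN x).filter (fun p => w < p), (1 + ((9 ^ k : ℕ) : ℝ) / (p : ℝ) ^ 2) +
          W * ∏ p ∈ prN x, (1 + ((9 ^ k : ℕ) : ℝ) / p))) := mul_le_mul_of_nonneg_left h2 (by positivity)
    _ = _ := by ring

/-- the contribution of `n ≤ a` -/
lemma small_part {k B : ℕ} {η : ℝ} {W Y0 : ℕ} {T1 : ℝ} {d x L M : ℕ} {G : Fin k → ℕ → ℤ} (hC : Ctx k B η W Y0 T1 d x L M G)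
    (a : ℕ) (ha : a ≤ x) :
    ∑ n ∈ Ioc 0 a, ∑ b ∈ om k (d + 2) L, XX W G b n ≤
      (1 + ((a : ℝ) * 16 ^ k + Real.sqrt x * (16 * Real.log x) ^ k) * vv W d x L ^ k) * ((L : ℝ) ^ (d + 2)) ^ k := by
  classical
  obtain ⟨Z, hZ⟩ : ∃ Z : ℝ, Z = ((L : ℝ) ^ (d + 2)) ^ k := ⟨_, rfl⟩
  have hZ0 : 0 ≤ Z := by rw [hZ]; positivity
  have hρ : 1 ≤ rho W := rho_ge hC.hW
  have hl := hC.hl
  obtain ⟨v, hv⟩ : ∃ v, v = vv W d x L ^ k := ⟨_, rfl⟩
  have hv0 : 0 ≤ v := by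
    rw [hv]
    have : 0 ≤ vv W d x L := by unfold vv; positivity
    positivity
  have hlogx : 0 ≤ Real.log x := Real.log_natCast_nonneg _
  have h1 : ∀ n ∈ Ioc 0 a, ∑ b ∈ om k (d + 2) L, XX W G b n ≤
      (if n = 1 then Z else 0) + 16 ^ k * v * Z + (if n ^ 2 < x then (16 * Real.log x) ^ k * v * Z else 0) := by
    intro n hn
    rw [mem_Ioc] at hn
    have t1 : 0 ≤ 16 ^ k * v * Z := by positivity
    have t2 : 0 ≤ (16 * Real.log x) ^ k * v * Z := by positivity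
    have t3 : 0 ≤ (if n ^ 2 < x then (16 * Real.log x) ^ k * v * Z else 0) := by split_ifs <;> [exact t2; exact le_rfl]
    have t4 : 0 ≤ (if n = 1 then Z else 0) := by split_ifs <;> [exact hZ0; exact le_rfl]
    rcases Nat.lt_or_ge n 2 with h | h
    · have hn1 : n = 1 := by omega
      have h5 : ∑ b ∈ om k (d + 2) L, XX W G b n ≤ Z := by
        calc ∑ b ∈ om k (d + 2) L, XX W G b n ≤ ∑ _b ∈ om k (d + 2) L, (1 : ℝ) := sum_le_sum fun b _ => XX_le_one _ _ _ _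
          _ = Z := by rw [sum_const, nsmul_eq_mul, mul_one, om_card, hZ]
      rw [if_pos hn1]
      linarith
    · rcases Nat.lt_or_ge (n ^ 2) x with h5 | h5
      · have h6 := mean_small hC h (hn.2.trans ha)
        rw [← hZ, ← hv] at h6
        rw [if_pos h5]
        linarith
      · have h6 := mean_mid hC h (hn.2.trans ha) h5
        rw [← hZ, ← hv] at h6
        linarith
  refine (sum_le_sum h1).trans ?_
  rw [sum_add_distrib, sum_add_distrib, sum_const, Nat.card_Ioc, nsmul_eq_mul, ← sum_filter, ← sum_filter, sum_const,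
    sum_const, nsmul_eq_mul, nsmul_eq_mul, ← hZ, ← hv]
  have h2 : (((Ioc 0 a).filter (fun n => n = 1)).card : ℝ) ≤ 1 := by
    have : ((Ioc 0 a).filter (fun n => n = 1)).card ≤ 1 := by
      rw [card_le_one]
      intro i hi j hj
      rw [mem_filter] at hi hj
      omega
    exact_mod_cast this
  have h3 : (((Ioc 0 a).filter (fun n => n ^ 2 < x)).card : ℝ) ≤ Real.sqrt x := by
    have h5 : ((Ioc 0 a).filter (fun n => n ^ 2 < x)).card ≤ Nat.sqrt x := by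
      calc ((Ioc 0 a).filter (fun n => n ^ 2 < x)).card ≤ (Ioc 0 (Nat.sqrt x)).card := by
            apply card_le_card
            intro n hn
            rw [mem_filter, mem_Ioc] at hn
            rw [mem_Ioc]
            refine ⟨hn.1.1, ?_⟩
            rw [Nat.le_sqrt']
            omega
        _ = Nat.sqrt x := by rw [Nat.card_Ioc]; rfl
    calc (((Ioc 0 a).filter (fun n => n ^ 2 < x)).card : ℝ) ≤ (Nat.sqrt x : ℝ) := by exact_mod_cast h5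
      _ ≤ Real.sqrt x := Real.nat_sqrt_le_real_sqrt
  have t2 : 0 ≤ (16 * Real.log x) ^ k * v * Z := by positivity
  have h4 := mul_le_mul_of_nonneg_right h2 hZ0
  have h5 := mul_le_mul_of_nonneg_right h3 t2
  have e0 : (((a - 0 : ℕ)) : ℝ) = a := by simp
  rw [e0]
  calc _ ≤ 1 * Z + a * (16 ^ k * v * Z) + Real.sqrt x * ((16 * Real.log x) ^ k * v * Z) := by linarith
    _ = _ := by ring

/-- the contribution of the bad `n > a` -/
lemma bad_part {k B : ℕ} {η : ℝ} {W Y0 : ℕ} {T1 : ℝ} {d x L M : ℕ} {G : Fin k → ℕ → ℤ} (hC : Ctx k B η W Y0 T1 d x L M G)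
    (hT1 : 0 < T1) (hx : 8 * T1 ≤ x) (P : ℕ → Prop) [DecidablePred P] (hPG : ∀ m, P m ↔ okG W G m)
    (a : ℕ) (hax : ∀ n, a < n → (x : ℝ) ≤ 2 * T1 * n) :
    ∑ n ∈ (Ioc a x).filter (fun n => ¬ P n), ∑ b ∈ om k (d + 2) L, XX W G b n ≤ ((L : ℝ) ^ (d + 2)) ^ k := by
  classical
  obtain ⟨Z, hZ⟩ : ∃ Z : ℝ, Z = ((L : ℝ) ^ (d + 2)) ^ k := ⟨_, rfl⟩
  have hZ0 : 0 ≤ Z := by rw [hZ]; positivity
  have hx0 : (0 : ℝ) < x := by linarith
  have h1 : ∀ n ∈ (Ioc a x).filter (fun n => ¬ P n), ∑ b ∈ om k (d + 2) L, XX W G b n ≤ 1 / x * Z := by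
    intro n hn
    rw [mem_filter, mem_Ioc] at hn
    have h2 := mean_bad hC (by omega) hn.1.2 (fun h => hn.2 ((hPG n).2 h))
    rw [← hZ] at h2
    refine h2.trans (mul_le_mul_of_nonneg_right ?_ hZ0)
    have h3 := hax n hn.1.1
    have hn0 : (0 : ℝ) < n := by exact_mod_cast (by omega : 0 < n)
    rw [div_le_div_iff₀ (by positivity) hx0]
    have : 4 * (x : ℝ) ≤ x * n := by
      have h5 : (4 : ℝ) ≤ n := by
        have : 8 * T1 ≤ 2 * T1 * n := hx.trans h3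
        by_contra hcon
        push Not at hcon
        have := mul_lt_mul_of_pos_left hcon (by positivity : 0 < 2 * T1)
        linarith
      nlinarith
    linarith
  refine (sum_le_sum h1).trans ?_
  rw [sum_const, nsmul_eq_mul, ← hZ]
  have h2 : (((Ioc a x).filter (fun n => ¬ P n)).card : ℝ) ≤ x := by
    have := (card_filter_le (Ioc a x) (fun n => ¬ P n))
    rw [Nat.card_Ioc] at this
    have h5 : ((Ioc a x).filter (fun n => ¬ P n)).card ≤ x := by omega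
    exact_mod_cast h5
  calc (((Ioc a x).filter (fun n => ¬ P n)).card : ℝ) * (1 / x * Z) ≤ x * (1 / x * Z) := by gcongr
    _ = Z := by field_simp

end Pool.Agent.K1H93.SH
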