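import Mathlib
import Pool.Agent.K1H93.SH.A9

/-! The core theorem. -/

set_option autoImplicit false

namespace Pool.Agent.K1H93.SH

open Finset Filter Pool.Agent.K1H89.PL

lemma num_main (τ θ P1 P2 u s μ a1 q : ℝ) (hτ0 : 0 < τ) (hτ1 : τ ≤ 1) (hθ : θ = τ / 8) (hP1 : P1 ≤ 1 + τ / 4)
    (hP10 : 0 ≤ P1) (hP2 : 1 - τ / 4 ≤ P2) (hu : 0 < u) (hs : 0 < s) (hμ : μ = s * u) (ha0 : (1 - θ) * s ≤ a1)
    (ha1 : a1 ≤ (1 + θ) * s) (hq0 : 0 ≤ q) (hq : q ≤ (1 + θ) * s) (hμτ : 1 ≤ τ * μ) :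
    a1 * (P1 * u + P1 * u ^ 2 * q) - 2 * μ * (a1 * (P2 * u)) + μ ^ 2 ≤ 5 * τ * μ ^ 2 := by
  have hθ0 : 0 < θ := by rw [hθ]; positivity
  have hθ1 : θ ≤ 1 / 8 := by rw [hθ]; linarith
  have hμ0 : 0 < μ := by rw [hμ]; positivity
  have ha10 : 0 ≤ a1 := le_trans (by apply mul_nonneg <;> linarith) ha0
  have h1 : a1 * (P1 * u) ≤ 2 * μ := by
    calc a1 * (P1 * u) ≤ ((1 + θ) * s) * ((1 + τ / 4) * u) := by gcongr
      _ = ((1 + θ) * (1 + τ / 4)) * μ := by rw [hμ]; ring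
      _ ≤ 2 * μ := by
        apply mul_le_mul_of_nonneg_right _ hμ0.le
        nlinarith
  have h2 : a1 * (P1 * u ^ 2 * q) ≤ (1 + τ) * μ ^ 2 := by
    calc a1 * (P1 * u ^ 2 * q) ≤ ((1 + θ) * s) * ((1 + τ / 4) * u ^ 2 * ((1 + θ) * s)) := by gcongr
      _ = ((1 + θ) ^ 2 * (1 + τ / 4)) * μ ^ 2 := by rw [hμ]; ring
      _ ≤ (1 + τ) * μ ^ 2 := by
        apply mul_le_mul_of_nonneg_right _ (by positivity)
        have e1 : (1 + θ) ^ 2 ≤ 1 + 3 * θ := by nlinarith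
        have e2 : (1 + θ) ^ 2 * (1 + τ / 4) ≤ (1 + 3 * θ) * (1 + τ / 4) := by gcongr
        have e3 : (1 + 3 * θ) * (1 + τ / 4) ≤ 1 + τ := by
          rw [hθ]
          nlinarith
        linarith
  have h3 : (1 - τ) * μ ≤ a1 * (P2 * u) := by
    have e1 : (1 - τ) ≤ (1 - θ) * (1 - τ / 4) := by
      rw [hθ]
      nlinarith
    calc (1 - τ) * μ ≤ ((1 - θ) * (1 - τ / 4)) * μ := by gcongr
      _ = ((1 - θ) * s) * ((1 - τ / 4) * u) := by rw [hμ]; ring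
      _ ≤ a1 * (P2 * u) := by
        apply mul_le_mul ha0 _ _ ha10
        · gcongr
        · apply mul_nonneg <;> linarith
  have h4 : 2 * μ ≤ 2 * τ * μ ^ 2 := by
    have := mul_le_mul_of_nonneg_right hμτ hμ0.le
    nlinarith
  have h5 : 2 * μ * ((1 - τ) * μ) ≤ 2 * μ * (a1 * (P2 * u)) := by gcongr
  have e : a1 * (P1 * u + P1 * u ^ 2 * q) = a1 * (P1 * u) + a1 * (P1 * u ^ 2 * q) := by ring
  rw [e]
  nlinarith

lemma pow_near (k : ℕ) (τ : ℝ) (hτ0 : 0 < τ) (hτ1 : τ ≤ 1) : ∃ η₁ : ℝ, 0 < η₁ ∧ η₁ ≤ 1 / 8 ∧ ∀ η, 0 < η → η ≤ η₁ →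
    ∀ c, 0 ≤ c → c ≤ 8 → (1 + c * η) ^ k ≤ 1 + τ ∧ 1 - τ ≤ (1 - c * η) ^ k := by
  refine ⟨τ / (16 * (k + 1)), by positivity, ?_, ?_⟩
  · rw [div_le_div_iff₀ (by positivity) (by norm_num)]
    have : (0 : ℝ) ≤ k := Nat.cast_nonneg _
    nlinarith
  intro η hη hη1 c hc0 hc8
  rw [le_div_iff₀ (by positivity)] at hη1
  have hk : (0 : ℝ) ≤ k := Nat.cast_nonneg _
  have h1 : c * η * k ≤ τ / 2 := by
    have : c * η * k ≤ 8 * η * k := by gcongr
    nlinarith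
  constructor
  · calc (1 + c * η) ^ k ≤ (Real.exp (c * η)) ^ k := by
          apply pow_le_pow_left₀ (by positivity)
          linarith [Real.add_one_le_exp (c * η)]
      _ = Real.exp (c * η * k) := by rw [← Real.exp_nat_mul]; congr 1; ring
      _ ≤ Real.exp (τ / 2) := Real.exp_le_exp.2 h1
      _ ≤ 1 + τ := by
        have := Real.abs_exp_sub_one_sub_id_le (x := τ / 2) (by rw [abs_of_pos (by positivity)]; linarith)
        have h5 := (abs_le.1 this).2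
        nlinarith
  · have hcη : c * η ≤ 1 / 2 := by
      have : c * η ≤ 8 * η := by gcongr
      nlinarith
    have := one_add_mul_le_pow (a := -(c * η)) (by linarith) k
    calc 1 - τ ≤ 1 + (k : ℝ) * -(c * η) := by nlinarith
      _ ≤ (1 + -(c * η)) ^ k := this
      _ = _ := by ring

lemma evx (k C W : ℕ) (K θ τ X : ℝ) (hK : 1 ≤ K) (hθ : 0 < θ) (hτ : 0 < τ) : ∃ x₀ : ℝ, 1 ≤ x₀ ∧ ∀ x : ℝ, x₀ ≤ x →
    W * (K * Real.log x) ^ C ≤ θ / 2 * x ∧ (16 * Real.log x) ^ k * W ≤ τ * Real.sqrt x ∧ X ≤ x ∧ 2 ≤ Real.log x := by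
  refine evR _ ?_
  have h1 : ∀ᶠ x : ℝ in atTop, ‖Real.log x ^ C‖ ≤ (θ / 2 / (W * K ^ C + 1)) * ‖x‖ :=
    (Real.isLittleO_pow_log_id_atTop (n := C)).def (by positivity)
  have h2 : ∀ᶠ x : ℝ in atTop, ‖Real.log x ^ k‖ ≤ (τ / (32 ^ k * W + 1)) * ‖x‖ :=
    (Real.isLittleO_pow_log_id_atTop (n := k)).def (by positivity)
  have h3 := Real.tendsto_sqrt_atTop.eventually h2
  filter_upwards [h1, h3, eventually_ge_atTop X, Real.tendsto_log_atTop.eventually_ge_atTop 2, eventually_ge_atTop 1]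
    with x a1 a3 a4 a5 a6
  have hlog : 0 ≤ Real.log x := by linarith
  refine ⟨?_, ?_, a4, a5⟩
  · rw [Real.norm_of_nonneg (by positivity), Real.norm_of_nonneg (by linarith), div_mul_eq_mul_div,
      le_div_iff₀ (by positivity)] at a1
    calc (W : ℝ) * (K * Real.log x) ^ C = Real.log x ^ C * (W * K ^ C) := by rw [mul_pow]; ring
      _ ≤ Real.log x ^ C * (W * K ^ C + 1) := by gcongr; linarith
      _ ≤ _ := a1
  · have hsq : Real.log (Real.sqrt x) = Real.log x / 2 := Real.log_sqrt (by linarith)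
    rw [hsq, Real.norm_of_nonneg (by positivity), Real.norm_of_nonneg (Real.sqrt_nonneg _), div_mul_eq_mul_div,
      le_div_iff₀ (by positivity)] at a3
    calc (16 * Real.log x) ^ k * W = (Real.log x / 2) ^ k * (32 ^ k * W) := by
          rw [← mul_assoc, ← mul_pow]
          congr 2
          ring
      _ ≤ (Real.log x / 2) ^ k * (32 ^ k * W + 1) := by gcongr; linarith
      _ ≤ _ := a3

end Pool.Agent.K1H93.SH
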