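import Mathlib
import Pool.Agent.K1H93.SH.A10

/-! The core theorem. -/

set_option autoImplicit false

namespace Pool.Agent.K1H93.SH

open Finset Filter Pool.Agent.K1H89.PL

/-- the final count, all the parameters being chosen -/
lemma core1 {k B : ℕ} {η : ℝ} {W Y0 : ℕ} {T1 : ℝ} {d x L M : ℕ} {G : Fin k → ℕ → ℤ} (hC : Ctx k B η W Y0 T1 d x L M G)
    (κ ε τ θ : ℝ) (hκ0 : 0 < κ) (hκ1 : κ ≤ 1) (hε0 : 0 < ε) (hε1 : ε ≤ 1) (hτ : τ = ε * κ ^ 2 / 32) (hθ : θ = τ / 8)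
    (hP1 : (1 + 8 * η) ^ k ≤ 1 + τ / 4) (hP2 : 1 - τ / 4 ≤ (1 - 2 * η) ^ k)
    (hT1 : 1 ≤ T1) (hT1a : 16 ^ k * W ≤ τ * T1) (hT1b : 4 / θ ≤ T1)
    (w : ℕ) (hw : ∀ p : ℕ, p.Prime → p ≤ w → p ∣ W) (hx1 : 8 * T1 ≤ x) (hx2 : 2 * (W : ℝ) ^ 2 / θ ≤ x)
    (hx3 : (16 * Real.log x) ^ k * W ≤ τ * Real.sqrt x)
    (he1 : ∏ p ∈ (prN x).filter (fun p => w < p), (1 + ((9 ^ k : ℕ) : ℝ) / (p : ℝ) ^ 2) ≤ 1 + θ / 2)
    (he2 : W * ∏ p ∈ prN x, (1 + ((9 ^ k : ℕ) : ℝ) / p) ≤ θ / 2 * x)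
    (hxl : W * ell d x L ^ k ≤ τ * x)
    (P : ℕ → Prop) [DecidablePred P] (hPG : ∀ m, P m ↔ okG W G m) (hPW : ∀ m, P (m + W) ↔ P m) (hPe : ∃ m, P m)
    (μ : ℝ) (hμ : μ = (((range W).filter P).card : ℝ) / W * x * vv W d x L ^ k) :
    0 < μ ∧ (((om k (d + 2) L).filter (fun b => κ * μ < |∑ n ∈ Ioc 0 x, XX W G b n - μ|)).card : ℝ) ≤
      ε * (om k (d + 2) L).card := by
  classical
  have hW0 : (0 : ℝ) < W := by exact_mod_cast hC.hW
  have hτ0 : 0 < τ := by rw [hτ]; positivity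
  have hκ2 : κ ^ 2 ≤ 1 := pow_le_one₀ hκ0.le hκ1
  have hτ1 : τ ≤ 1 := by
    rw [hτ, div_le_one (by norm_num)]
    have : ε * κ ^ 2 ≤ 1 * 1 := by gcongr
    linarith
  have hθ0 : 0 < θ := by rw [hθ]; positivity
  have hθ1 : θ ≤ 1 := by rw [hθ]; linarith
  have hT10 : 0 < T1 := by linarith
  have hx0 : (0 : ℝ) < x := by linarith
  have hρ : 1 ≤ rho W := rho_ge hC.hW
  have hl := hC.hl
  have h0 := hC.h0
  -- periodicity
  have hPq : ∀ m q, P (m + q * W) ↔ P m := by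
    intro m q
    induction q with
    | zero => simp
    | succ q ih =>
      rw [← ih, ← hPW (m + q * W)]
      have e : m + (q + 1) * W = m + q * W + W := by ring
      rw [e]
  have hPmod : ∀ m, P m ↔ P (m % W) := by
    intro m
    conv_lhs => rw [← Nat.mod_add_div m W, mul_comm W]
    exact hPq _ _
  -- the density
  obtain ⟨δ, hδ⟩ : ∃ δ : ℝ, δ = (((range W).filter P).card : ℝ) / W := ⟨_, rfl⟩
  have hδ1 : 1 / W ≤ δ := by
    rw [hδ]
    apply div_le_div_of_nonneg_right _ hW0.le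
    obtain ⟨m, hm⟩ := hPe
    have : 0 < ((range W).filter P).card := by
      rw [card_pos]
      refine ⟨m % W, ?_⟩
      rw [mem_filter, mem_range]
      exact ⟨Nat.mod_lt _ hC.hW, (hPmod m).1 hm⟩
    exact_mod_cast this
  have hδ0 : 0 < δ := lt_of_lt_of_le (by positivity) hδ1
  have hδW : 1 ≤ δ * W := by
    rw [div_le_iff₀ hW0] at hδ1
    linarith
  obtain ⟨u, hu⟩ : ∃ u : ℝ, u = vv W d x L ^ k := ⟨_, rfl⟩
  have hu0 : 0 < u := by
    rw [hu]
    have : 0 < vv W d x L := by unfold vv; positivity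
    positivity
  obtain ⟨s, hs⟩ : ∃ s : ℝ, s = δ * x := ⟨_, rfl⟩
  have hs0 : 0 < s := by rw [hs]; positivity
  rw [← hδ, ← hu] at hμ
  have hμs : μ = s * u := by rw [hμ, hs]
  have hμ0 : 0 < μ := by rw [hμs]; positivity
  have hμτ : 1 ≤ τ * μ := by
    have e1 : 1 / ell d x L ^ k ≤ u := by
      rw [hu]
      unfold vv
      rw [div_pow]
      apply div_le_div_of_nonneg_right _ (by positivity)
      exact one_le_pow₀ hρ
    have e2 : (W : ℝ) ≤ τ * x / ell d x L ^ k := by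
      rw [le_div_iff₀ (by positivity)]
      exact hxl
    calc (1 : ℝ) ≤ δ * W := hδW
      _ ≤ δ * (τ * x / ell d x L ^ k) := by gcongr
      _ = τ * (δ * x * (1 / ell d x L ^ k)) := by ring
      _ ≤ τ * (δ * x * u) := by gcongr
      _ = τ * μ := by rw [hμ]
  -- the splitting point
  obtain ⟨a, ha⟩ : ∃ a : ℕ, a = ⌊(x : ℝ) / T1⌋₊ := ⟨_, rfl⟩
  have ha1 : (a : ℝ) ≤ x / T1 := by rw [ha]; exact Nat.floor_le (by positivity)
  have hax' : (a : ℝ) ≤ x := ha1.trans (div_le_self hx0.le hT1)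
  have hax : a ≤ x := by exact_mod_cast hax'
  have ha2 : 1 ≤ a := by
    rw [ha]
    apply Nat.le_floor
    push_cast
    rw [le_div_iff₀ hT10]
    linarith
  have han : ∀ n, a < n → (x : ℝ) ≤ 2 * T1 * n := by
    intro n hn
    rw [ha] at hn
    have h5 := Nat.lt_of_floor_lt hn
    rw [div_lt_iff₀ hT10] at h5
    have : 0 ≤ T1 * n := by positivity
    linarith
  obtain ⟨A, hA⟩ : ∃ A : Finset ℕ, A = (Ioc a x).filter P := ⟨_, rfl⟩
  have hcnt := interval_count P W hC.hW hPW a (x - a)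
  have eax : a + (x - a) = x := by omega
  rw [eax, ← hA, ← hδ, Nat.cast_sub hax] at hcnt
  have hWx : (W : ℝ) ≤ θ / 2 * s := by
    rw [div_le_iff₀ hθ0] at hx2
    calc (W : ℝ) = W * 1 := (mul_one _).symm
      _ ≤ W * (δ * W) := by gcongr
      _ = δ * (W ^ 2) := by ring
      _ ≤ δ * (θ / 2 * x) := by
        apply mul_le_mul_of_nonneg_left _ hδ0.le
        linarith
      _ = θ / 2 * s := by rw [hs]; ring
  have haθ : (a : ℝ) ≤ θ / 4 * x := by
    refine ha1.trans ?_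
    rw [div_le_iff₀ hT10]
    rw [div_le_iff₀ hθ0] at hT1b
    calc (x : ℝ) = x * 4 / 4 := by ring
      _ ≤ x * (T1 * θ) / 4 := by gcongr
      _ = _ := by ring
  have hA1 : (A.card : ℝ) ≤ (1 + θ) * s := by
    have h5 := (abs_le.1 hcnt).2
    have h6 : ((x : ℝ) - a) * δ ≤ s := by
      rw [hs]
      have : 0 ≤ (a : ℝ) * δ := by positivity
      linarith
    have h7 : 0 ≤ θ * s := by positivity
    linarith
  have hA0 : (1 - θ) * s ≤ (A.card : ℝ) := by
    have h5 := (abs_le.1 hcnt).1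
    have h6 : (a : ℝ) * δ ≤ θ / 4 * s := by
      rw [hs]
      calc (a : ℝ) * δ ≤ (θ / 4 * x) * δ := by gcongr
        _ = _ := by ring
    have h7 : ((x : ℝ) - a) * δ = s - a * δ := by rw [hs]; ring
    have h8 : 0 ≤ θ * s := by positivity
    rw [h7] at h5
    linarith
  -- the pair sums
  obtain ⟨q, hq⟩ : ∃ q : ℝ, q = δ * (((x : ℝ) - a) * ∏ p ∈ (prN x).filter (fun p => w < p), (1 + ((9 ^ k : ℕ) : ℝ) / (p : ℝ) ^ 2) +
          W * ∏ p ∈ prN x, (1 + ((9 ^ k : ℕ) : ℝ) / p)) := ⟨_, rfl⟩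
  have hxa : 0 ≤ (x : ℝ) - a := by linarith
  have hq0 : 0 ≤ q := by
    rw [hq]
    apply mul_nonneg hδ0.le
    apply add_nonneg
    · apply mul_nonneg hxa
      exact prod_nonneg fun p _ => by positivity
    · apply mul_nonneg hW0.le
      exact prod_nonneg fun p _ => by positivity
  have hq1 : q ≤ (1 + θ) * s := by
    rw [hq, hs]
    calc _ ≤ δ * ((x : ℝ) * (1 + θ / 2) + θ / 2 * x) := by
          apply mul_le_mul_of_nonneg_left _ hδ0.le
          apply add_le_add _ he2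
          apply mul_le_mul _ he1 (prod_nonneg fun p _ => by positivity) hx0.le
          have : (0 : ℝ) ≤ a := Nat.cast_nonneg _
          linarith
      _ = _ := by ring
  obtain ⟨Z, hZ⟩ : ∃ Z : ℝ, Z = ((L : ℝ) ^ (d + 2)) ^ k := ⟨_, rfl⟩
  have hZc : ((om k (d + 2) L).card : ℝ) = Z := by rw [hZ]; exact om_card _ _ _
  have hL0 : (0 : ℝ) < L := by exact_mod_cast hC.hS.hL
  have hZ0 : 0 < Z := by rw [hZ]; positivity
  have hsm := second_moment (om k (d + 2) L) A (fun b n => XX W G b n) (fun b n => XX_sq W G b n) μ Z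
    ((1 - 2 * η) ^ k * u) ((1 + 8 * η) ^ k * u) ((1 + 8 * η) ^ k * u ^ 2 * q) hμ0.le hZc (by
      intro n hn
      rw [hA, mem_filter, mem_Ioc] at hn
      rw [hZ, hu]
      exact mean_low hC (by omega) hn.1.2 ((hPG n).1 hn.2)) (by
      intro n hn
      rw [hA, mem_filter, mem_Ioc] at hn
      rw [hZ, hu]
      exact mean_up hC (by omega) hn.1.2 (han n hn.1.1)) (by
      intro n hn
      rw [hA] at hn ⊢
      rw [hZ, hu, hq, hδ]
      exact pair_sum hC w hw P hPmod a hax han ha2 n hn)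
  have hnum := num_main τ θ ((1 + 8 * η) ^ k) ((1 - 2 * η) ^ k) u s μ A.card q hτ0 hτ1 hθ hP1 (by positivity) hP2 hu0 hs0
    hμs hA0 hA1 hq0 hq1 hμτ
  have hV : ∑ b ∈ om k (d + 2) L, (∑ n ∈ A, XX W G b n - μ) ^ 2 ≤ (5 * τ) * μ ^ 2 * (om k (d + 2) L).card := by
    rw [hZc]
    exact hsm.trans (mul_le_mul_of_nonneg_right hnum hZ0.le)
  have hch := cheb (om k (d + 2) L) (fun b => ∑ n ∈ A, XX W G b n) μ (κ / 2) (5 * τ) hμ0 (by positivity) hV
  -- the rest
  have hrest : ∑ b ∈ om k (d + 2) L, (∑ n ∈ Ioc 0 a, XX W G b n + ∑ n ∈ (Ioc a x).filter (fun n => ¬ P n), XX W G b n) ≤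
      (4 * τ) * μ * (om k (d + 2) L).card := by
    rw [sum_add_distrib, sum_comm, sum_comm (s := om k (d + 2) L) (t := (Ioc a x).filter (fun n => ¬ P n))]
    have h5 := small_part hC a hax
    have h6 := bad_part hC hT10 hx1 P hPG a han
    rw [← hZ, ← hu] at h5
    rw [← hZ] at h6
    rw [hZc]
    have h7 : (a : ℝ) * 16 ^ k ≤ τ * s := by
      calc (a : ℝ) * 16 ^ k ≤ (x / T1) * 16 ^ k := by gcongr
        _ = (x / T1) * (16 ^ k * 1) := by ring
        _ ≤ (x / T1) * (16 ^ k * (δ * W)) := by gcongr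
        _ = (x / T1) * δ * (16 ^ k * W) := by ring
        _ ≤ (x / T1) * δ * (τ * T1) := by gcongr
        _ = τ * s := by rw [hs]; field_simp
    have h8 : Real.sqrt x * (16 * Real.log x) ^ k ≤ τ * s := by
      have hlogx : 0 ≤ Real.log x := Real.log_natCast_nonneg _
      calc Real.sqrt x * (16 * Real.log x) ^ k = Real.sqrt x * ((16 * Real.log x) ^ k * 1) := by ring
        _ ≤ Real.sqrt x * ((16 * Real.log x) ^ k * (δ * W)) := by gcongr
        _ = Real.sqrt x * δ * ((16 * Real.log x) ^ k * W) := by ring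
        _ ≤ Real.sqrt x * δ * (τ * Real.sqrt x) := by gcongr
        _ = τ * δ * (Real.sqrt x * Real.sqrt x) := by ring
        _ = τ * s := by rw [Real.mul_self_sqrt hx0.le, hs]; ring
    have h9 : 1 + ((a : ℝ) * 16 ^ k + Real.sqrt x * (16 * Real.log x) ^ k) * u ≤ 1 + 2 * (τ * μ) := by
      have : ((a : ℝ) * 16 ^ k + Real.sqrt x * (16 * Real.log x) ^ k) * u ≤ (τ * s + τ * s) * u := by gcongr
      have e : (τ * s + τ * s) * u = 2 * (τ * μ) := by rw [hμs]; ring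
      linarith
    calc _ ≤ (1 + ((a : ℝ) * 16 ^ k + Real.sqrt x * (16 * Real.log x) ^ k) * u) * Z + Z := add_le_add h5 h6
      _ ≤ (1 + 2 * (τ * μ)) * Z + (τ * μ) * Z := by
        apply add_le_add
        · gcongr
        · calc Z = 1 * Z := (one_mul _).symm
            _ ≤ (τ * μ) * Z := by gcongr
      _ ≤ (4 * τ) * μ * Z := by
        have : (1 : ℝ) * Z ≤ (τ * μ) * Z := by gcongr
        linarith
  have hmk := mark (om k (d + 2) L) (fun b => ∑ n ∈ Ioc 0 a, XX W G b n + ∑ n ∈ (Ioc a x).filter (fun n => ¬ P n), XX W G b n) μ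
    (κ / 2) (4 * τ) hμ0 (by positivity) (fun b _ => add_nonneg (sum_nonneg fun n _ => XX_nonneg _ _ _ _)
      (sum_nonneg fun n _ => XX_nonneg _ _ _ _)) hrest
  refine ⟨hμ0, ?_⟩
  have hsplit : ∀ b : Fin k → Fin (d + 2) → ℤ, ∑ n ∈ Ioc 0 x, XX W G b n = ∑ n ∈ A, XX W G b n +
      (∑ n ∈ Ioc 0 a, XX W G b n + ∑ n ∈ (Ioc a x).filter (fun n => ¬ P n), XX W G b n) := by
    intro b
    have e1 : Ioc 0 x = Ioc 0 a ∪ Ioc a x := by
      ext n
      simp only [mem_union, mem_Ioc]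
      omega
    have e2 : Disjoint (Ioc 0 a) (Ioc a x) := by
      rw [disjoint_left]
      intro n hn hn'
      rw [mem_Ioc] at hn hn'
      omega
    rw [e1, sum_union e2, hA, ← sum_filter_add_sum_filter_not (Ioc a x) P]
    ring
  have hsub : (om k (d + 2) L).filter (fun b => κ * μ < |∑ n ∈ Ioc 0 x, XX W G b n - μ|) ⊆
      (om k (d + 2) L).filter (fun b => κ / 2 * μ < |∑ n ∈ A, XX W G b n - μ|) ∪
      (om k (d + 2) L).filter (fun b => κ / 2 * μ <
        ∑ n ∈ Ioc 0 a, XX W G b n + ∑ n ∈ (Ioc a x).filter (fun n => ¬ P n), XX W G b n) := by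
    intro b hb
    rw [mem_filter, hsplit b] at hb
    rw [mem_union, mem_filter, mem_filter]
    by_contra hcon
    push Not at hcon
    have h5 := hcon.1 hb.1
    have h6 := hcon.2 hb.1
    have h7 : 0 ≤ ∑ n ∈ Ioc 0 a, XX W G b n + ∑ n ∈ (Ioc a x).filter (fun n => ¬ P n), XX W G b n :=
      add_nonneg (sum_nonneg fun n _ => XX_nonneg _ _ _ _) (sum_nonneg fun n _ => XX_nonneg _ _ _ _)
    have h8 : |∑ n ∈ A, XX W G b n + (∑ n ∈ Ioc 0 a, XX W G b n + ∑ n ∈ (Ioc a x).filter (fun n => ¬ P n), XX W G b n) - μ| ≤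
        |∑ n ∈ A, XX W G b n - μ| + |∑ n ∈ Ioc 0 a, XX W G b n + ∑ n ∈ (Ioc a x).filter (fun n => ¬ P n), XX W G b n| := by
      have e : ∑ n ∈ A, XX W G b n + (∑ n ∈ Ioc 0 a, XX W G b n + ∑ n ∈ (Ioc a x).filter (fun n => ¬ P n), XX W G b n) - μ =
        (∑ n ∈ A, XX W G b n - μ) + (∑ n ∈ Ioc 0 a, XX W G b n + ∑ n ∈ (Ioc a x).filter (fun n => ¬ P n), XX W G b n) := by ring
      rw [e]
      exact abs_add_le _ _
    rw [abs_of_nonneg h7] at h8
    have h9 := hb.2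
    linarith
  have hcard : (((om k (d + 2) L).filter (fun b => κ * μ < |∑ n ∈ Ioc 0 x, XX W G b n - μ|)).card : ℝ) ≤
      5 * τ / (κ / 2) ^ 2 * (om k (d + 2) L).card + 4 * τ / (κ / 2) * (om k (d + 2) L).card := by
    refine le_trans ?_ (add_le_add hch hmk)
    exact_mod_cast (card_le_card hsub).trans (card_union_le _ _)
  refine hcard.trans ?_
  rw [← add_mul]
  apply mul_le_mul_of_nonneg_right _ (Nat.cast_nonneg _)
  have e1 : 5 * τ / (κ / 2) ^ 2 = 20 / 32 * ε := by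
    rw [hτ]
    field_simp
    ring
  have e2 : 4 * τ / (κ / 2) = 8 / 32 * ε * κ := by
    rw [hτ]
    field_simp
    ring
  rw [e1, e2]
  have : 8 / 32 * ε * κ ≤ 8 / 32 * ε * 1 := by gcongr
  linarith

end Pool.Agent.K1H93.SH
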