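import Mathlib
import Pool.Agent.K1H93.SH.A11

/-! The core theorem with the parameters chosen. -/

set_option autoImplicit false

namespace Pool.Agent.K1H93.SH

open Finset Filter Pool.Agent.K1H89.PL

theorem core (k B : ℕ) (κ ε : ℝ) (hκ0 : 0 < κ) (hκ1 : κ ≤ 1) (hε0 : 0 < ε) (hε1 : ε ≤ 1) :
    ∃ η₁ : ℝ, 0 < η₁ ∧ η₁ ≤ 1 / 8 ∧ ∀ η, 0 < η → η ≤ η₁ → ∃ w₀ : ℕ, ∀ w : ℕ, w₀ ≤ w → ∀ W : ℕ, 1 ≤ W →
    (∀ p : ℕ, p.Prime → p ≤ w → p ∣ W) → ∀ X : ℝ, ∃ T : ℝ, 1 ≤ T ∧ ∀ d x L : ℕ, 1 ≤ x → T * ell d x L ^ k ≤ x →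
    (x : ℝ) ≤ ell d x L ^ B → T * (d + 1) * (x : ℝ) ^ 2 ≤ L →
    X ≤ x ∧ 1 ≤ ell d x L ∧ ((B : ℝ) + 2) * Real.log (ell d x L) ≤ η * ell d x L ∧ ∀ G : Fin k → ℕ → ℤ,
    (∀ j, ∀ n : ℕ, 1 ≤ n → n ≤ x → |(G j n : ℝ)| ≤ (d + 2) * L * ell d x L ^ B * (n : ℝ) ^ (d + 1)) →
    (∃ Y0 T1 M, (1 : ℝ) ≤ T1 ∧ Ctx k B η W Y0 T1 d x L M G) ∧
    ∀ (P : ℕ → Prop) [DecidablePred P], (∀ n, P n ↔ okG W G n) → (∀ m, P (m + W) ↔ P m) → (∃ m, P m) →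
    ∀ μ : ℝ, μ = (((range W).filter P).card : ℝ) / W * x * vv W d x L ^ k → 0 < μ ∧
    (((om k (d + 2) L).filter (fun b => κ * μ < |∑ n ∈ Ioc 0 x, XX W G b n - μ|)).card : ℝ) ≤
      ε * (om k (d + 2) L).card := by
  obtain ⟨τ, hτ⟩ : ∃ τ : ℝ, τ = ε * κ ^ 2 / 32 := ⟨_, rfl⟩
  have hτ0 : 0 < τ := by rw [hτ]; positivity
  have hκ2 : κ ^ 2 ≤ 1 := pow_le_one₀ hκ0.le hκ1
  have hτ1 : τ ≤ 1 := by
    rw [hτ, div_le_one (by norm_num)]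
    have : ε * κ ^ 2 ≤ 1 * 1 := by gcongr
    linarith
  obtain ⟨θ, hθ⟩ : ∃ θ : ℝ, θ = τ / 8 := ⟨_, rfl⟩
  have hθ0 : 0 < θ := by rw [hθ]; positivity
  have hθ1 : θ ≤ 1 := by rw [hθ]; linarith
  obtain ⟨η₁, hη₁0, hη₁1, hη₁⟩ := pow_near k (τ / 4) (by positivity) (by linarith)
  obtain ⟨K, hK1, hK⟩ := mert
  refine ⟨η₁, hη₁0, hη₁1, fun η hη0 hηη => ?_⟩
  have hP1 := (hη₁ η hη0 hηη 8 (by norm_num) le_rfl).1
  have hP2 := (hη₁ η hη0 hηη 2 (by norm_num) (by norm_num)).2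
  have hη8 : η ≤ 1 / 8 := hηη.trans hη₁1
  obtain ⟨Y0, hY0⟩ := cn_bounds (6 * B + 6) η hη0 (by linarith)
  refine ⟨⌈4 * ((9 ^ k : ℕ) : ℝ) / θ⌉₊, fun w hw W hW hWp X => ?_⟩
  have hW0 : (0 : ℝ) < W := by exact_mod_cast hW
  have h9 : (1 : ℝ) ≤ ((9 ^ k : ℕ) : ℝ) := by exact_mod_cast Nat.one_le_pow _ _ (by norm_num)
  have hw' : 4 * ((9 ^ k : ℕ) : ℝ) / θ ≤ w := (Nat.le_ceil _).trans (by exact_mod_cast hw)
  have hw0 : (0 : ℝ) < w := lt_of_lt_of_le (by positivity) hw'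
  have hCw : ((9 ^ k : ℕ) : ℝ) / w ≤ θ / 4 := by
    rw [div_le_iff₀ hθ0] at hw'
    rw [div_le_iff₀ hw0]
    linarith
  have hexp : Real.exp (((9 ^ k : ℕ) : ℝ) / w) ≤ 1 + θ / 2 := by
    have hx0 : (0 : ℝ) ≤ ((9 ^ k : ℕ) : ℝ) / w := by positivity
    have := Real.abs_exp_sub_one_sub_id_le (x := ((9 ^ k : ℕ) : ℝ) / w) (by rw [abs_of_nonneg hx0]; linarith)
    have h5 := (abs_le.1 this).2
    nlinarith
  obtain ⟨T1, hT1d⟩ : ∃ T1 : ℝ, T1 = max (16 ^ k * W / τ) (4 / θ) := ⟨_, rfl⟩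
  have hT1a' : 16 ^ k * W / τ ≤ T1 := by rw [hT1d]; exact le_max_left _ _
  have hT1b : 4 / θ ≤ T1 := by rw [hT1d]; exact le_max_right _ _
  have hT1 : 1 ≤ T1 := by
    refine le_trans ?_ hT1b
    rw [le_div_iff₀ hθ0]
    linarith
  have hT1a : 16 ^ k * W ≤ τ * T1 := by
    rw [div_le_iff₀ hτ0] at hT1a'
    linarith
  obtain ⟨x₀, hx₀1, hx₀⟩ := evx k (9 ^ k) W K θ τ (max (max (8 * T1) (2 * (W : ℝ) ^ 2 / θ)) X) hK1 hθ0 hτ0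
  obtain ⟨l₀, hl₀1, hl₀⟩ := evR _ (ev_loglin ((B : ℝ) + 2) η hη0)
  obtain ⟨Ts, hTs1, hTs⟩ := setup B η hη0 (by linarith) W Y0 T1 hT1 (max l₀ (1 + 2 * W))
  refine ⟨max (max Ts x₀) (max (W / τ) 3), ?_, ?_⟩
  · exact (hTs1.trans (le_max_left _ _)).trans (le_max_left _ _)
  intro d x L hx hxT hxB hL
  obtain ⟨T, hT⟩ : ∃ T : ℝ, T = max (max Ts x₀) (max (W / τ) 3) := ⟨_, rfl⟩
  rw [← hT] at hxT hL
  have hTTs : Ts ≤ T := by rw [hT]; simp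
  have hTx₀ : x₀ ≤ T := by rw [hT]; simp
  have hTW : W / τ ≤ T := by rw [hT]; simp
  have hT3 : 3 ≤ T := by rw [hT]; simp
  have hx1 : (1 : ℝ) ≤ x := by exact_mod_cast hx
  have hd0 : (0 : ℝ) ≤ d := Nat.cast_nonneg _
  have hL3 : (3 : ℝ) ≤ L := by
    refine le_trans ?_ hL
    have e1 : (1 : ℝ) ≤ (x : ℝ) ^ 2 := one_le_pow₀ hx1
    calc (3 : ℝ) = 3 * 1 * 1 := by norm_num
      _ ≤ T * (d + 1) * (x : ℝ) ^ 2 := by
        apply mul_le_mul _ e1 (by norm_num) (by positivity)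
        apply mul_le_mul hT3 (by linarith) (by norm_num) (by linarith)
  have hlogL : 1 ≤ Real.log L := by
    rw [Real.le_log_iff_exp_le (by linarith)]
    have := Real.exp_one_lt_d9
    linarith
  have hlogx : 0 ≤ Real.log x := Real.log_natCast_nonneg _
  have hl1 : 1 ≤ ell d x L := by
    unfold ell
    have : 0 ≤ ((d : ℝ) + 1) * Real.log x := by positivity
    linarith
  have hTx : T ≤ x := by
    refine le_trans ?_ hxT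
    have : 1 ≤ ell d x L ^ k := one_le_pow₀ hl1
    nlinarith
  obtain ⟨hll, M, hS⟩ := hTs d x L (hTTs.trans hTx) hxB (by
    refine le_trans ?_ hL
    gcongr)
  obtain ⟨a1, a2, a3, a4⟩ := hx₀ x (hTx₀.trans hTx)
  have hl0 : 0 < ell d x L := by linarith
  have hlw : 1 + 2 * (W : ℝ) ≤ ell d x L := (le_max_right _ _).trans hll
  refine ⟨(le_max_right _ _).trans a3, hl1, hl₀ _ ((le_max_left _ _).trans hll), fun G hG => ?_⟩
  have hC : Ctx k B η W Y0 T1 d x L M G := by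
    refine ⟨hS, ?_, hY0, hW, hη0, hη8, hl0, hG⟩
    have e1 : (d : ℝ) + 2 ≤ ell d x L := by
      unfold ell
      have : ((d : ℝ) + 1) * 2 ≤ ((d : ℝ) + 1) * Real.log x := by gcongr
      linarith
    have e2 : ell d x L ^ B + 2 * W ≤ ell d x L ^ (B + 1) := by
      rw [pow_succ]
      have e3 : 1 ≤ ell d x L ^ B := one_le_pow₀ hl1
      have e4 : ell d x L ^ B * (1 + 2 * W) ≤ ell d x L ^ B * ell d x L := by gcongr
      have e5 : 1 * (2 * (W : ℝ)) ≤ ell d x L ^ B * (2 * W) := by gcongr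
      linarith
    calc ((d : ℝ) + 2) * (ell d x L ^ B + 2 * W) ≤ ell d x L * ell d x L ^ (B + 1) := by gcongr
      _ = _ := by ring
  refine ⟨⟨Y0, T1, M, hT1, hC⟩, ?_⟩
  intro P _ hPG hPW hPe μ hμ
  have hx2 : 2 ≤ x := by
    have : (2 : ℝ) ≤ x := by linarith
    exact_mod_cast this
  refine core1 hC κ ε τ θ hκ0 hκ1 hε0 hε1 hτ hθ hP1 hP2 hT1 hT1a hT1b w hWp
    (((le_max_left _ _).trans (le_max_left _ _)).trans a3) (((le_max_right _ _).trans (le_max_left _ _)).trans a3) a2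
    ?_ ?_ ?_ P hPG hPW hPe μ hμ
  · refine (prod_sq_le w x (9 ^ k) ?_).trans ?_
    · have : (0 : ℝ) < w := hw0
      have : 0 < w := by exact_mod_cast this
      omega
    · exact hexp
  · refine le_trans ?_ a1
    apply mul_le_mul_of_nonneg_left _ hW0.le
    refine (prod_lin_le x (9 ^ k)).trans ?_
    apply pow_le_pow_left₀ _ (hK x hx2)
    unfold MP
    apply prod_nonneg
    intro p hp
    have h2 : (2 : ℝ) ≤ p := by exact_mod_cast (mem_prN.1 hp).2.two_le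
    have : (p : ℝ)⁻¹ ≤ 1 := inv_le_one_of_one_le₀ (by linarith)
    apply inv_nonneg.2
    linarith
  · calc (W : ℝ) * ell d x L ^ k = τ * ((W / τ) * ell d x L ^ k) := by field_simp
      _ ≤ τ * (T * ell d x L ^ k) := by gcongr
      _ ≤ τ * x := by gcongr

end Pool.Agent.K1H93.SH
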