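import Mathlib
import Pool.Agent.K1H93.SH.A12

/-! The assembly. -/

set_option autoImplicit false

namespace Pool.Agent.K1H93.SH

open Finset Filter Polynomial Pool.Agent.K1H89.PL

/-- the system `f_j = g_j + W ∑_{i ≤ D} b_{ji} X ^ i` -/
noncomputable def psys {k D : ℕ} (W : ℕ) (g : Fin k → ℤ[X]) (b : Fin k → Fin (D + 1) → ℤ) (j : Fin k) : ℤ[X] :=
  g j + C (W : ℤ) * ∑ i, C (b j i) * X ^ (i : ℕ)

lemma psys_eval {k D : ℕ} (W : ℕ) (g : Fin k → ℤ[X]) (b : Fin k → Fin (D + 1) → ℤ) (j : Fin k) (n : ℤ) :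
    (psys W g b j).eval n = (g j).eval n + W * ev (b j) n := by
  unfold psys ev
  rw [eval_add, eval_mul, eval_C, eval_finsetSum]
  congr 2
  apply sum_congr rfl
  intro i _
  simp

/-- one coordinate of the systems -/
lemma om_one (k N L : ℕ) (j : Fin k) (Q : (Fin N → ℤ) → Prop) [DecidablePred Q] (c : ℝ)
    (h : ∑ b ∈ bx N L, (if Q b then (1 : ℝ) else 0) ≤ c * (L : ℝ) ^ N) :
    (((om k N L).filter (fun b => Q (b j))).card : ℝ) ≤ c * (om k N L).card := by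
  classical
  have e1 : (((om k N L).filter (fun b => Q (b j))).card : ℝ) =
      ∑ b ∈ om k N L, ∏ i, (if i = j then (if Q (b i) then (1 : ℝ) else 0) else 1) := by
    rw [card_filter]
    push_cast
    apply sum_congr rfl
    intro b _
    rw [prod_ite_eq' univ j (fun i => if Q (b i) then (1 : ℝ) else 0), if_pos (mem_univ _)]
  have e2 : ∑ b ∈ om k N L, ∏ i, (if i = j then (if Q (b i) then (1 : ℝ) else 0) else 1) =
      ∏ i : Fin k, ∑ b ∈ bx N L, (if i = j then (if Q b then (1 : ℝ) else 0) else 1) := by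
    unfold om
    rw [prod_univ_sum]
  rw [e1, e2, ← mul_prod_erase univ _ (mem_univ j), om_card]
  have e3 : ∏ i ∈ univ.erase j, ∑ b ∈ bx N L, (if i = j then (if Q b then (1 : ℝ) else 0) else 1) =
      ∏ _i ∈ univ.erase j, (L : ℝ) ^ N := by
    apply prod_congr rfl
    intro i hi
    rw [mem_erase] at hi
    rw [sum_congr rfl (fun b _ => if_neg hi.1), sum_const, nsmul_eq_mul, mul_one, bx_card]
    push_cast
    rfl
  have h4 : (L : ℝ) ^ N * ∏ _i ∈ univ.erase j, (L : ℝ) ^ N = ((L : ℝ) ^ N) ^ k := by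
    rw [mul_prod_erase univ (fun _ => (L : ℝ) ^ N) (mem_univ j), prod_const, card_univ, Fintype.card_fin]
  rw [e3]
  simp only [if_true]
  calc (∑ b ∈ bx N L, (if Q b then (1 : ℝ) else 0)) * ∏ _i ∈ univ.erase j, (L : ℝ) ^ N
      ≤ (c * (L : ℝ) ^ N) * ∏ _i ∈ univ.erase j, (L : ℝ) ^ N := by
        apply mul_le_mul_of_nonneg_right h
        positivity
    _ = _ := by rw [mul_assoc, h4]

/-- the final arithmetic -/
lemma final_arith (k : ℕ) (κ ε η l x Cst p μ : ℝ) (lam : Fin k → ℝ) (hε0 : 0 < ε) (hε1 : ε ≤ 1) (hκ : κ = ε / 3)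
    (hη1 : η ≤ 1) (hl : 0 < l) (hx : 0 < x) (hC : 0 < Cst) (hp : 0 ≤ p) (hμ : μ = Cst * x / l ^ k)
    (h1 : (1 + η) ^ k ≤ 1 + κ) (h2 : 1 - κ ≤ (1 - η) ^ k)
    (hlam : ∀ j, (1 - η) * l ≤ lam j ∧ lam j ≤ (1 + η) * l) (hpμ : |p - μ| ≤ κ * μ) :
    |p * (∏ j, lam j) / x - Cst| ≤ ε * Cst := by
  have hκ0 : 0 < κ := by rw [hκ]; positivity
  have hκ1 : κ ≤ 1 := by rw [hκ]; linarith
  have hμ0 : 0 < μ := by rw [hμ]; positivity
  obtain ⟨hp1, hp2⟩ := abs_le.1 hpμ
  have hη' : 0 ≤ 1 - η := by linarith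
  have hup : ∏ j, lam j ≤ (1 + κ) * l ^ k := by
    calc ∏ j, lam j ≤ ∏ _j : Fin k, ((1 + η) * l) := by
          apply Finset.prod_le_prod
          · intro j _
            exact le_trans (by positivity) (hlam j).1
          · intro j _
            exact (hlam j).2
      _ = (1 + η) ^ k * l ^ k := by rw [prod_const, card_univ, Fintype.card_fin, mul_pow]
      _ ≤ _ := by gcongr
  have hlow : (1 - κ) * l ^ k ≤ ∏ j, lam j := by
    calc (1 - κ) * l ^ k ≤ (1 - η) ^ k * l ^ k := by gcongr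
      _ = ∏ _j : Fin k, ((1 - η) * l) := by rw [prod_const, card_univ, Fintype.card_fin, mul_pow]
      _ ≤ ∏ j, lam j := by
          apply Finset.prod_le_prod
          · intro j _
            positivity
          · intro j _
            exact (hlam j).1
  have hlam0 : 0 ≤ ∏ j, lam j := le_trans (by apply mul_nonneg; linarith; positivity) hlow
  have hμl : μ * l ^ k / x = Cst := by rw [hμ]; field_simp
  rw [abs_le]
  constructor
  · have h3 : ((1 - κ) * μ) * ((1 - κ) * l ^ k) / x ≤ p * (∏ j, lam j) / x := by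
      apply div_le_div_of_nonneg_right _ hx.le
      apply mul_le_mul (by linarith) hlow (by apply mul_nonneg; linarith; positivity) hp
    have e : ((1 - κ) * μ) * ((1 - κ) * l ^ k) / x = (1 - κ) ^ 2 * (μ * l ^ k / x) := by ring
    rw [e, hμl] at h3
    have h4 : (1 - ε) * Cst ≤ (1 - κ) ^ 2 * Cst := by
      apply mul_le_mul_of_nonneg_right _ hC.le
      rw [hκ]
      nlinarith
    linarith
  · have h3 : p * (∏ j, lam j) / x ≤ ((1 + κ) * μ) * ((1 + κ) * l ^ k) / x := by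
      apply div_le_div_of_nonneg_right _ hx.le
      apply mul_le_mul (by linarith) hup hlam0 (by positivity)
    have e : ((1 + κ) * μ) * ((1 + κ) * l ^ k) / x = (1 + κ) ^ 2 * (μ * l ^ k / x) := by ring
    rw [e, hμl] at h3
    have h4 : (1 + κ) ^ 2 * Cst ≤ (1 + ε) * Cst := by
      apply mul_le_mul_of_nonneg_right _ hC.le
      rw [hκ]
      nlinarith
    linarith

theorem main (k B : ℕ) (ε : ℝ) (hε0 : 0 < ε) (hε1 : ε ≤ 1) : ∃ w₀ : ℕ, ∀ w : ℕ, w₀ ≤ w → ∀ W : ℕ, 1 ≤ W →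
    (∀ p : ℕ, p.Prime → p ≤ w → p ∣ W) → ∃ T : ℝ, 1 ≤ T ∧ ∀ d x L : ℕ, 1 ≤ x → T * ell d x L ^ k ≤ x →
    (x : ℝ) ≤ ell d x L ^ B → T * (d + 1) * (x : ℝ) ^ 2 ≤ L →
    ∀ g : Fin k → ℤ[X], (∀ j, ∀ n : ℕ, 1 ≤ n → n ≤ x → |(((g j).eval (n : ℤ) : ℤ) : ℝ)| ≤ L * ell d x L ^ B * (n : ℝ) ^ (d + 1)) →
    ∀ (P : ℕ → Prop) [DecidablePred P], (∀ n : ℕ, P n ↔ ∀ j, IsCoprime ((g j).eval (n : ℤ)) (W : ℤ)) → (∃ m, P m) →
    ∀ Cst : ℝ, Cst = rho W ^ k * ((((range W).filter P).card : ℝ) / W) → 0 < Cst ∧ 1 ≤ ell d x L ∧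
    (∀ b ∈ om k (d + 2) L, ∀ j, Real.log |(((psys W g b j).eval (x : ℤ) : ℤ) : ℝ)| ≤ 2 * ell d x L) ∧
    (((om k (d + 2) L).filter (fun b => ¬ |((((Icc 1 x).filter (fun n : ℕ => ∀ j, ((psys W g b j).eval (n : ℤ)).natAbs.Prime)).card : ℕ) : ℝ) *
      (∏ j, Real.log |(((psys W g b j).eval (x : ℤ) : ℤ) : ℝ)|) / x - Cst| ≤ ε * Cst)).card : ℝ) ≤ ε * (om k (d + 2) L).card := by
  classical
  obtain ⟨κ, hκ⟩ : ∃ κ : ℝ, κ = ε / 3 := ⟨_, rfl⟩
  have hκ0 : 0 < κ := by rw [hκ]; positivity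
  have hκ1 : κ ≤ 1 := by rw [hκ]; linarith
  obtain ⟨η₁, hη₁0, hη₁1, hη₁⟩ := core k B κ (ε / 2) hκ0 hκ1 (by positivity) (by linarith)
  obtain ⟨η₂, hη₂0, hη₂1, hη₂⟩ := pow_near k κ hκ0 hκ1
  obtain ⟨η, hη⟩ : ∃ η, η = min η₁ η₂ := ⟨_, rfl⟩
  have hη0 : 0 < η := by rw [hη]; exact lt_min hη₁0 hη₂0
  have hηa : η ≤ η₁ := by rw [hη]; exact min_le_left _ _
  have hηb : η ≤ η₂ := by rw [hη]; exact min_le_right _ _
  have hη8 : η ≤ 1 / 8 := hηa.trans hη₁1
  obtain ⟨w₀, hw₀⟩ := hη₁ η hη0 hηa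
  have hp := hη₂ η hη0 hηb 1 (by norm_num) (by norm_num)
  rw [one_mul] at hp
  refine ⟨w₀, fun w hw W hW hWp => ?_⟩
  obtain ⟨T, hT1, hT⟩ := hw₀ w hw W hW hWp (12 * k / ε)
  refine ⟨T, hT1, fun d x L hx hxT hxB hL g hgv P _ hP hPe Cst hCst => ?_⟩
  obtain ⟨hX, hl1, hll, hcore⟩ := hT d x L hx hxT hxB hL
  have hl0 : 0 < ell d x L := by linarith
  have hx0 : (0 : ℝ) < x := by exact_mod_cast hx
  have hW0 : (0 : ℝ) < W := by exact_mod_cast hW
  obtain ⟨G, hGd⟩ : ∃ G : Fin k → ℕ → ℤ, G = fun j (n : ℕ) => (g j).eval (n : ℤ) := ⟨_, rfl⟩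
  have hG : ∀ j, ∀ n : ℕ, 1 ≤ n → n ≤ x → |(G j n : ℝ)| ≤ (d + 2) * L * ell d x L ^ B * (n : ℝ) ^ (d + 1) := by
    intro j n hn hnx
    rw [hGd]
    refine (hgv j n hn hnx).trans ?_
    have e1 : (d + 2) * L * ell d x L ^ B * (n : ℝ) ^ (d + 1) = L * ell d x L ^ B * (n : ℝ) ^ (d + 1) +
      (d + 1) * (L * ell d x L ^ B * (n : ℝ) ^ (d + 1)) := by ring
    rw [e1]
    have e2 : 0 ≤ ((d : ℝ) + 1) * (L * ell d x L ^ B * (n : ℝ) ^ (d + 1)) := by positivity
    linarith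
  obtain ⟨⟨Y0, T1, M, hT11, hC⟩, hmain⟩ := hcore G hG
  have hPG : ∀ n, P n ↔ okG W G n := by
    intro n
    rw [hP n, hGd]
    rfl
  have hPW : ∀ m, P (m + W) ↔ P m := by
    intro m
    rw [hP, hP]
    apply forall_congr'
    intro j
    exact cop_congr (eval_period (g j) m W)
  have hδ0 : 0 < (((range W).filter P).card : ℝ) / W := by
    obtain ⟨m, hm⟩ := hPe
    have hPq : ∀ m q, P (m + q * W) ↔ P m := by
      intro m q
      induction q with
      | zero => simp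
      | succ q ih =>
        rw [← ih, ← hPW (m + q * W)]
        have e : m + (q + 1) * W = m + q * W + W := by ring
        rw [e]
    have : 0 < ((range W).filter P).card := by
      rw [card_pos]
      refine ⟨m % W, ?_⟩
      rw [mem_filter, mem_range]
      refine ⟨Nat.mod_lt _ hW, ?_⟩
      rw [← hPq (m % W) (m / W), mul_comm, Nat.mod_add_div]
      exact hm
    have : (0 : ℝ) < ((range W).filter P).card := by exact_mod_cast this
    positivity
  have hρ : 1 ≤ rho W := rho_ge hW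
  have hCst0 : 0 < Cst := by rw [hCst]; positivity
  refine ⟨hCst0, hl1, ?_⟩
  obtain ⟨μ, hμ⟩ : ∃ μ : ℝ, μ = (((range W).filter P).card : ℝ) / W * x * vv W d x L ^ k := ⟨_, rfl⟩
  obtain ⟨hμ0, hexc⟩ := hmain P hPG hPW hPe μ hμ
  have hμC : μ = Cst * x / ell d x L ^ k := by
    rw [hμ, hCst]
    unfold vv
    rw [div_pow]
    ring
  have hS := hC.hS
  -- small values at `x`
  have hsmall : ∀ j, (((om k (d + 2) L).filter (fun b => |((G j x + W * ev (b j) x : ℤ) : ℝ)| ≤ ((M * x ^ d : ℕ) : ℝ))).card : ℝ) ≤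
      6 / x * (om k (d + 2) L).card := by
    intro j
    exact om_one k (d + 2) L j (fun b => |((G j x + W * ev b x : ℤ) : ℝ)| ≤ ((M * x ^ d : ℕ) : ℝ)) (6 / x)
      (small_value hS hW hη0 hη8 hx (G j x))
  -- the number of primes
  have hpi : ∀ b : Fin k → Fin (d + 2) → ℤ, ((((Icc 1 x).filter (fun n : ℕ => ∀ j, ((psys W g b j).eval (n : ℤ)).natAbs.Prime)).card : ℕ) : ℝ) =
      ∑ n ∈ Ioc 0 x, XX W G b n := by
    intro b
    rw [card_filter]
    push_cast
    have e1 : Icc 1 x = Ioc 0 x := by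
      ext n
      rw [mem_Icc, mem_Ioc]
      omega
    rw [e1]
    apply sum_congr rfl
    intro n _
    rw [XX_eq, hGd]
    simp only [psys_eval]
  have hlogup : ∀ b ∈ om k (d + 2) L, ∀ j, Real.log |(((psys W g b j).eval (x : ℤ) : ℤ) : ℝ)| ≤ (1 + η) * ell d x L := by
    intro b hb1 j
    have hbj : b j ∈ bx (d + 2) L := by
      unfold om at hb1
      rw [Fintype.mem_piFinset] at hb1
      exact hb1 j
    have hbj' : ∀ i, |b j i| ≤ 2 * L := by
      intro i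
      unfold bx at hbj
      rw [Fintype.mem_piFinset] at hbj
      have := mem_Ico.1 (hbj i)
      rw [abs_le]
      omega
    have hval : (psys W g b j).eval (x : ℤ) = G j x + W * ev (b j) x := by rw [psys_eval, hGd]
    rw [hval]
    have h5 := ev_bound (d + 1) L x hx (b j) hbj'
    have h6 := hG j x hx le_rfl
    have hL0 : (0 : ℝ) < L := by exact_mod_cast hS.hL
    have h7 : |((G j x + W * ev (b j) x : ℤ) : ℝ)| ≤ (L : ℝ) * (x : ℝ) ^ (d + 1) * ell d x L ^ (B + 2) := by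
      push_cast at h5 ⊢
      calc |(G j x : ℝ) + W * (ev (b j) x : ℝ)| ≤ |(G j x : ℝ)| + |(W : ℝ) * (ev (b j) x : ℝ)| := abs_add_le _ _
        _ = |(G j x : ℝ)| + W * |(ev (b j) x : ℝ)| := by rw [abs_mul, abs_of_nonneg hW0.le]
        _ ≤ (d + 2) * L * ell d x L ^ B * (x : ℝ) ^ (d + 1) + W * (2 * L * ((d + 1 + 1) * (x : ℝ) ^ (d + 1))) := by gcongr
        _ = (L : ℝ) * (x : ℝ) ^ (d + 1) * (((d : ℝ) + 2) * (ell d x L ^ B + 2 * W)) := by ring
        _ ≤ _ := by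
          have := hC.hell
          gcongr
    rcases eq_or_ne (G j x + W * ev (b j) x) 0 with h8 | h8
    · rw [h8]
      simp only [Int.cast_zero, abs_zero, Real.log_zero]
      positivity
    · have h9 : 0 < |((G j x + W * ev (b j) x : ℤ) : ℝ)| := by
        rw [abs_pos]
        exact_mod_cast h8
      refine (Real.log_le_log h9 h7).trans ?_
      rw [Real.log_mul (by positivity) (by positivity), Real.log_pow, Real.log_mul (by positivity) (by positivity), Real.log_pow]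
      have e1 : Real.log L + ((d + 1 : ℕ) : ℝ) * Real.log x = ell d x L := by
        unfold ell
        push_cast
        rfl
      rw [e1]
      push_cast
      linarith
  refine ⟨fun b hb j => (hlogup b hb j).trans (by nlinarith), ?_⟩
  have hsub : (om k (d + 2) L).filter (fun b => ¬ |((((Icc 1 x).filter (fun n : ℕ => ∀ j, ((psys W g b j).eval (n : ℤ)).natAbs.Prime)).card : ℕ) : ℝ) *
      (∏ j, Real.log |(((psys W g b j).eval (x : ℤ) : ℤ) : ℝ)|) / x - Cst| ≤ ε * Cst) ⊆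
      (om k (d + 2) L).filter (fun b => κ * μ < |∑ n ∈ Ioc 0 x, XX W G b n - μ|) ∪
      (univ : Finset (Fin k)).biUnion (fun j => (om k (d + 2) L).filter (fun b => |((G j x + W * ev (b j) x : ℤ) : ℝ)| ≤ ((M * x ^ d : ℕ) : ℝ))) := by
    intro b hb
    rw [mem_filter] at hb
    obtain ⟨hb1, hb2⟩ := hb
    rw [mem_union, mem_filter, mem_biUnion]
    by_contra hcon
    push Not at hcon
    obtain ⟨hcon1, hcon2⟩ := hcon
    apply hb2
    rw [hpi b]
    apply final_arith k κ ε η (ell d x L) x Cst (∑ n ∈ Ioc 0 x, XX W G b n) μ _ hε0 hε1 hκ (by linarith) hl0 hx0 hCst0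
      (sum_nonneg fun n _ => XX_nonneg _ _ _ _) hμC hp.1 hp.2 _ (hcon1 hb1)
    intro j
    have hval : (psys W g b j).eval (x : ℤ) = G j x + W * ev (b j) x := by rw [psys_eval, hGd]
    refine ⟨?_, hlogup b hb1 j⟩
    rw [hval]
    have h5 := hcon2 j (mem_univ j)
    rw [mem_filter] at h5
    push Not at h5
    have h6 := h5 hb1
    refine (hS.lg_big x le_rfl ?_).trans (Real.log_le_log ?_ h6.le)
    · have : 1 * (x : ℝ) ≤ 2 * T1 * x := by
        apply mul_le_mul_of_nonneg_right _ hx0.le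
        linarith
      linarith
    · have : 0 < M * x ^ d := Nat.mul_pos hS.hM (pow_pos hx d)
      exact_mod_cast this
  have hcard1 : (((om k (d + 2) L).filter (fun b => ¬ |((((Icc 1 x).filter (fun n : ℕ => ∀ j, ((psys W g b j).eval (n : ℤ)).natAbs.Prime)).card : ℕ) : ℝ) *
      (∏ j, Real.log |(((psys W g b j).eval (x : ℤ) : ℤ) : ℝ)|) / x - Cst| ≤ ε * Cst)).card : ℝ) ≤
      ε / 2 * (om k (d + 2) L).card + ∑ j : Fin k, (6 / x * (om k (d + 2) L).card : ℝ) := by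
    have h1 := (card_le_card hsub).trans (card_union_le _ _)
    have h2 := h1.trans (Nat.add_le_add_left card_biUnion_le _)
    have h3 := (Nat.cast_le (α := ℝ)).2 h2
    rw [Nat.cast_add, Nat.cast_sum] at h3
    exact h3.trans (add_le_add hexc (sum_le_sum fun j _ => hsmall j))
  refine hcard1.trans ?_
  rw [sum_const, card_univ, Fintype.card_fin, nsmul_eq_mul, ← mul_assoc, ← add_mul]
  apply mul_le_mul_of_nonneg_right _ (Nat.cast_nonneg _)
  have h1 : (k : ℝ) * (6 / x) ≤ ε / 2 := by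
    rw [div_le_iff₀ hε0] at hX
    rw [mul_div_assoc', div_le_iff₀ hx0]
    linarith
  linarith

end Pool.Agent.K1H93.SH
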