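import Mathlib
import Pool.Agent.K1H93.SH.A13

/-! Reducible polynomials have few prime values; coincidences are rare. -/

set_option autoImplicit false

namespace Pool.Agent.K1H93.SH

open Finset Filter Polynomial Pool.Agent.K1H89.PL

lemma card_one (a : ℤ[X]) (ha : ¬ IsUnit a) (x : ℕ) (c : ℤ) (hc : IsUnit c) :
    ((Icc 1 x).filter (fun n : ℕ => a.eval (n : ℤ) = c)).card ≤ a.natDegree := by
  classical
  have hne : a - C c ≠ 0 := by
    intro h
    apply ha
    have : a = C c := by linear_combination h
    rw [this]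
    exact hc.map C
  have h1 : ((Icc 1 x).filter (fun n : ℕ => a.eval (n : ℤ) = c)).card ≤ (a - C c).roots.toFinset.card := by
    apply card_le_card_of_injOn (fun n : ℕ => (n : ℤ))
    · intro n hn
      rw [mem_coe, mem_filter] at hn
      rw [mem_coe, Multiset.mem_toFinset, mem_roots hne, IsRoot.def, eval_sub, eval_C, hn.2, sub_self]
    · intro m _ n _ h
      simpa using h
  calc _ ≤ (a - C c).roots.toFinset.card := h1
    _ ≤ Multiset.card (a - C c).roots := Multiset.toFinset_card_le _
    _ ≤ (a - C c).natDegree := card_roots' _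
    _ = a.natDegree := natDegree_sub_C

lemma red_primes (f : ℤ[X]) (hf : ¬ Irreducible f) (x : ℕ) :
    ((Icc 1 x).filter (fun n : ℕ => (f.eval (n : ℤ)).natAbs.Prime)).card ≤ 2 * f.natDegree := by
  classical
  by_cases h0 : f = 0
  · subst h0
    simp [Nat.not_prime_zero]
  by_cases hu : IsUnit f
  · obtain ⟨c, hc, rfl⟩ := Polynomial.isUnit_iff.1 hu
    have : ¬ (c.natAbs).Prime := by
      rw [Int.isUnit_iff_natAbs_eq.1 hc]
      exact Nat.not_prime_one
    simp [this]
  rw [irreducible_iff] at hf
  push Not at hf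
  obtain ⟨a, b, hab, ha, hb⟩ := hf hu
  have ha0 : a ≠ 0 := fun h => h0 (by rw [hab, h, zero_mul])
  have hb0 : b ≠ 0 := fun h => h0 (by rw [hab, h, mul_zero])
  have hsub : (Icc 1 x).filter (fun n : ℕ => (f.eval (n : ℤ)).natAbs.Prime) ⊆
      ((Icc 1 x).filter (fun n : ℕ => a.eval (n : ℤ) = 1) ∪ (Icc 1 x).filter (fun n : ℕ => a.eval (n : ℤ) = -1)) ∪
      ((Icc 1 x).filter (fun n : ℕ => b.eval (n : ℤ) = 1) ∪ (Icc 1 x).filter (fun n : ℕ => b.eval (n : ℤ) = -1)) := by
    intro n hn
    rw [mem_filter] at hn
    obtain ⟨hn1, hn2⟩ := hn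
    rw [hab, eval_mul, Int.natAbs_mul] at hn2
    simp only [mem_union, mem_filter]
    rcases (Nat.prime_mul_iff.1 hn2) with ⟨_, h⟩ | ⟨_, h⟩
    · right
      rcases Int.natAbs_eq_iff.1 h with h | h
      · left; exact ⟨hn1, by simpa using h⟩
      · right; exact ⟨hn1, by simpa using h⟩
    · left
      rcases Int.natAbs_eq_iff.1 h with h | h
      · left; exact ⟨hn1, by simpa using h⟩
      · right; exact ⟨hn1, by simpa using h⟩
  have e1 : IsUnit (1 : ℤ) := isUnit_one
  have e2 : IsUnit (-1 : ℤ) := isUnit_one.neg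
  have hdeg : f.natDegree = a.natDegree + b.natDegree := by rw [hab, natDegree_mul ha0 hb0]
  calc _ ≤ _ := card_le_card hsub
    _ ≤ _ := card_union_le _ _
    _ ≤ _ := add_le_add (card_union_le _ _) (card_union_le _ _)
    _ ≤ (a.natDegree + a.natDegree) + (b.natDegree + b.natDegree) :=
        add_le_add (add_le_add (card_one a ha x 1 e1) (card_one a ha x (-1) e2))
          (add_le_add (card_one b hb x 1 e1) (card_one b hb x (-1) e2))
    _ = 2 * f.natDegree := by rw [hdeg]; ring

/-- one coefficient is determined by the others: few systems -/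
lemma coord_count (k N L : ℕ) (i : Fin k) (r : Fin N) (φ : (Fin k → Fin N → ℤ) → ℤ)
    (hφ : ∀ b y, φ (Function.update b i (Function.update (b i) r y)) = φ b) :
    ((om k N L).filter (fun b => b i r = φ b)).card * L ≤ (om k N L).card := by
  classical
  have h1 : (((om k N L).filter (fun b => b i r = φ b)) ×ˢ (Ico (0 : ℤ) L)).card ≤ (om k N L).card := by
    apply card_le_card_of_injOn (fun q : (Fin k → Fin N → ℤ) × ℤ => Function.update q.1 i (Function.update (q.1 i) r q.2))
    · intro q hq
      rw [mem_coe, mem_product, mem_filter] at hq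
      obtain ⟨⟨h1, _⟩, h2⟩ := hq
      rw [mem_coe]
      unfold om bx at h1 ⊢
      rw [Fintype.mem_piFinset] at h1 ⊢
      intro j
      rw [Fintype.mem_piFinset]
      intro t
      have h3 := h1 j
      rw [Fintype.mem_piFinset] at h3
      by_cases hj : j = i
      · subst hj
        simp only [Function.update_self]
        by_cases ht : t = r
        · subst ht
          simp only [Function.update_self]
          exact h2
        · rw [Function.update_of_ne ht]
          exact h3 t
      · simp only [Function.update_of_ne hj]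
        exact h3 t
    · intro q hq q' hq' h
      rw [mem_coe, mem_product, mem_filter] at hq hq'
      obtain ⟨⟨_, h1⟩, _⟩ := hq
      obtain ⟨⟨_, h1'⟩, _⟩ := hq'
      simp only at h h1 h1'
      have hy : q.2 = q'.2 := by
        have := congrFun (congrFun h i) r
        simpa using this
      have hφq : φ q.1 = φ q'.1 := by
        rw [← hφ q.1 q.2, h, hφ]
      have hb : q.1 = q'.1 := by
        funext j t
        by_cases hj : j = i
        · subst hj
          by_cases ht : t = r
          · subst ht
            rw [h1, h1', hφq]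
          · have := congrFun (congrFun h j) t
            simpa [Function.update_of_ne ht] using this
        · have := congrFun (congrFun h j) t
          simpa [Function.update_of_ne hj] using this
      exact Prod.ext hb hy
  rw [card_product] at h1
  simpa using h1

lemma coord_count' (k N L : ℕ) (hL : 0 < L) (i : Fin k) (r : Fin N) (φ : (Fin k → Fin N → ℤ) → ℤ)
    (hφ : ∀ b y, φ (Function.update b i (Function.update (b i) r y)) = φ b) :
    (((om k N L).filter (fun b => b i r = φ b)).card : ℝ) ≤ 1 / L * (om k N L).card := by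
  have h := coord_count k N L i r φ hφ
  have hL0 : (0 : ℝ) < L := by exact_mod_cast hL
  have h2 : (((om k N L).filter (fun b => b i r = φ b)).card : ℝ) * L ≤ (om k N L).card := by exact_mod_cast h
  rw [div_mul_eq_mul_div, one_mul, le_div_iff₀ hL0]
  exact h2

lemma psys_coeff {k D : ℕ} (W : ℕ) (g : Fin k → ℤ[X]) (b : Fin k → Fin (D + 1) → ℤ) (j : Fin k) (r : Fin (D + 1)) :
    (psys W g b j).coeff r = (g j).coeff r + W * b j r := by
  unfold psys
  rw [coeff_add, coeff_C_mul, finsetSum_coeff]
  congr 2
  rw [sum_eq_single r]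
  · simp
  · intro i _ hi
    rw [coeff_C_mul, coeff_X_pow, if_neg, mul_zero]
    intro h
    exact hi (Fin.ext h.symm)
  · intro h
    exact absurd (mem_univ r) h

lemma psys_natDegree {k D E : ℕ} (hE : D ≤ E) (W : ℕ) (g : Fin k → ℤ[X]) (hg : ∀ j, (g j).natDegree ≤ E) (b : Fin k → Fin (D + 1) → ℤ)
    (j : Fin k) : (psys W g b j).natDegree ≤ E := by
  unfold psys
  refine (natDegree_add_le _ _).trans (max_le (hg j) ?_)
  refine (natDegree_C_mul_le _ _).trans ?_
  apply natDegree_sum_le_of_forall_le
  intro i _
  refine (natDegree_C_mul_X_pow_le _ _).trans ?_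
  have := i.isLt
  omega

/-- few systems contain a constant polynomial -/
lemma const_count {k D : ℕ} (W : ℕ) (hW : 1 ≤ W) (L : ℕ) (hL : 0 < L) (hD : 1 ≤ D) (g : Fin k → ℤ[X]) (j : Fin k) :
    (((om k (D + 1) L).filter (fun b => (psys W g b j).natDegree = 0)).card : ℝ) ≤ 1 / L * (om k (D + 1) L).card := by
  classical
  have hW0 : (W : ℤ) ≠ 0 := by
    have : W ≠ 0 := by omega
    exact_mod_cast this
  refine le_trans ?_ (coord_count' k (D + 1) L hL j ⟨1, by omega⟩ (fun _ => -(g j).coeff 1 / W) (fun _ _ => rfl))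
  have : ((om k (D + 1) L).filter (fun b => (psys W g b j).natDegree = 0)) ⊆
      ((om k (D + 1) L).filter (fun b => b j ⟨1, by omega⟩ = -(g j).coeff 1 / W)) := by
    intro b hb
    rw [mem_filter] at hb ⊢
    refine ⟨hb.1, ?_⟩
    have h1 := psys_coeff W g b j ⟨1, by omega⟩
    have h2 : (psys W g b j).coeff 1 = 0 := coeff_eq_zero_of_natDegree_lt (by rw [hb.2]; norm_num)
    simp only at h1
    rw [h2] at h1
    have h3 : -(g j).coeff 1 = W * b j ⟨1, by omega⟩ := by linarith
    rw [h3, Int.mul_ediv_cancel_left _ hW0]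
  exact_mod_cast card_le_card this

/-- few systems contain two polynomials which are equal up to the sign -/
lemma equal_count {k D : ℕ} (W : ℕ) (hW : 1 ≤ W) (L : ℕ) (hL : 0 < L) (g : Fin k → ℤ[X]) (i j : Fin k) (hij : i ≠ j)
    (s : ℤ) :
    (((om k (D + 1) L).filter (fun b => psys W g b i = C s * psys W g b j)).card : ℝ) ≤ 1 / L * (om k (D + 1) L).card := by
  classical
  have hW0 : (W : ℤ) ≠ 0 := by
    have : W ≠ 0 := by omega
    exact_mod_cast this
  refine le_trans ?_ (coord_count' k (D + 1) L hL i 0
    (fun b => (s * ((g j).coeff 0 + W * b j 0) - (g i).coeff 0) / W) (fun b y => by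
      simp only [Function.update_of_ne hij.symm]))
  have : ((om k (D + 1) L).filter (fun b => psys W g b i = C s * psys W g b j)) ⊆
      ((om k (D + 1) L).filter (fun b => b i 0 = (s * ((g j).coeff 0 + W * b j 0) - (g i).coeff 0) / W)) := by
    intro b hb
    rw [mem_filter] at hb ⊢
    refine ⟨hb.1, ?_⟩
    have h1 := psys_coeff W g b i 0
    have h2 := psys_coeff W g b j 0
    simp only [Fin.val_zero] at h1 h2
    rw [hb.2, coeff_C_mul, h2] at h1
    have h3 : s * ((g j).coeff 0 + W * b j 0) - (g i).coeff 0 = W * b i 0 := by linarith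
    rw [h3, Int.mul_ediv_cancel_left _ hW0]
  exact_mod_cast card_le_card this

end Pool.Agent.K1H93.SH
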