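import Mathlib
import Pool.Agent.K1H93.SH.A14

/-! The full theorem. -/

set_option autoImplicit false

namespace Pool.Agent.K1H93.SH

open Finset Filter Polynomial Pool.Agent.K1H89.PL

/-- the polynomials are irreducible, not constant, no two of them equal up to the sign -/
def Proper {k : ℕ} (F : Fin k → ℤ[X]) : Prop :=
  (∀ j, Irreducible (F j) ∧ 0 < (F j).natDegree) ∧ ∀ i j, i ≠ j → F i ≠ F j ∧ F i ≠ -F j

lemma om_one_eq (N L : ℕ) (Q : (Fin N → ℤ) → Prop) [DecidablePred Q] :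
    (((om 1 N L).filter (fun b => Q (b 0))).card : ℝ) = ∑ b ∈ bx N L, (if Q b then (1 : ℝ) else 0) := by
  classical
  have h := prod_univ_sum (ι := Fin 1) (fun _ => bx N L) (fun _ b => (if Q b then (1 : ℝ) else 0))
  rw [card_filter]
  push_cast
  unfold om
  simp only [univ_unique, Fin.default_eq_zero, prod_singleton] at h
  rw [h]

open Classical in
theorem full (k B : ℕ) (ε : ℝ) (hε0 : 0 < ε) (hε1 : ε ≤ 1) : ∃ w₀ : ℕ, ∀ w : ℕ, w₀ ≤ w → ∀ W : ℕ, 1 ≤ W →
    (∀ p : ℕ, p.Prime → p ≤ w → p ∣ W) → ∃ T : ℝ, 1 ≤ T ∧ ∀ d x L : ℕ, 1 ≤ x → T * ell d x L ^ k ≤ x →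
    (x : ℝ) ≤ ell d x L ^ B → T * (d + 1) * (x : ℝ) ^ 2 ≤ L →
    ∀ g : Fin k → ℤ[X], (∀ j, (g j).natDegree ≤ 2 * (d + 1)) →
    (∀ j, ∀ n : ℕ, 1 ≤ n → n ≤ x → |(((g j).eval (n : ℤ) : ℤ) : ℝ)| ≤ L * ell d x L ^ B * (n : ℝ) ^ (d + 1)) →
    ∀ (P : ℕ → Prop) [DecidablePred P], (∀ n : ℕ, P n ↔ ∀ j, IsCoprime ((g j).eval (n : ℤ)) (W : ℤ)) → (∃ m, P m) →
    ∀ Cst : ℝ, Cst = rho W ^ k * ((((range W).filter P).card : ℝ) / W) → 
    (((om k (d + 2) L).filter (fun b => ¬ (|((((Icc 1 x).filter (fun n : ℕ => ∀ j, ((psys W g b j).eval (n : ℤ)).natAbs.Prime)).card : ℕ) : ℝ) *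
      (∏ j, Real.log |(((psys W g b j).eval (x : ℤ) : ℤ) : ℝ)|) / x - Cst| ≤ ε * Cst ∧
      (T * (d + 1) * ell d x L ≤ x → Proper (psys W g b))))).card : ℝ) ≤ ε * (om k (d + 2) L).card := by
  classical
  obtain ⟨ε', hε'⟩ : ∃ ε' : ℝ, ε' = ε / (4 * (k + 1)) := ⟨_, rfl⟩
  have hk0 : (0 : ℝ) ≤ k := Nat.cast_nonneg _
  have hε'0 : 0 < ε' := by rw [hε']; positivity
  have hε'1 : ε' ≤ 1 / 4 := by
    rw [hε', div_le_div_iff₀ (by positivity) (by norm_num)]
    nlinarith
  obtain ⟨w1, hw1⟩ := main k B (ε / 2) (by positivity) (by linarith)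
  obtain ⟨w2, hw2⟩ := main 1 B ε' hε'0 (by linarith)
  refine ⟨max w1 w2, fun w hw W hW hWp => ?_⟩
  obtain ⟨T1, hT11, hT1⟩ := hw1 w ((le_max_left _ _).trans hw) W hW hWp
  obtain ⟨T2, hT21, hT2⟩ := hw2 w ((le_max_right _ _).trans hw) W hW hWp
  refine ⟨max (max T1 T2) (max (16 * W + 1) (12 * (k + 1) ^ 2 / ε)), (hT11.trans (le_max_left _ _)).trans (le_max_left _ _), ?_⟩
  obtain ⟨T, hT⟩ : ∃ T : ℝ, T = max (max T1 T2) (max (16 * W + 1) (12 * (k + 1) ^ 2 / ε)) := ⟨_, rfl⟩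
  rw [← hT]
  have hTa : T1 ≤ T := by rw [hT]; simp
  have hTb : T2 ≤ T := by rw [hT]; simp
  have hTc : 16 * (W : ℝ) + 1 ≤ T := by rw [hT]; simp
  have hTd : 12 * ((k : ℝ) + 1) ^ 2 / ε ≤ T := by rw [hT]; simp
  intro d x L hx hxT hxB hL g hgd hgv P _ hP hPe Cst hCst
  have hx0 : (0 : ℝ) < x := by exact_mod_cast hx
  have hx1 : (1 : ℝ) ≤ x := by exact_mod_cast hx
  have hW0 : (0 : ℝ) < W := by exact_mod_cast hW
  have hd0 : (0 : ℝ) ≤ d := Nat.cast_nonneg _
  have hTpos : 0 < T := by linarith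
  have hLT : T ≤ L := by
    refine le_trans ?_ hL
    have e1 : (1 : ℝ) ≤ (x : ℝ) ^ 2 := one_le_pow₀ hx1
    calc T = T * 1 * 1 := by ring
      _ ≤ T * (d + 1) * (x : ℝ) ^ 2 := by
        apply mul_le_mul _ e1 (by norm_num) (by positivity)
        apply mul_le_mul_of_nonneg_left _ hTpos.le
        linarith
  have hL0' : (0 : ℝ) < L := by linarith
  have hL0 : 0 < L := by exact_mod_cast hL0'
  have hl0 : 0 ≤ ell d x L := by
    unfold ell
    have h1 : 0 ≤ Real.log L := Real.log_natCast_nonneg _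
    have h2 : 0 ≤ Real.log x := Real.log_natCast_nonneg _
    positivity
  obtain ⟨hC0, hl1, hlog, hexc⟩ := hT1 d x L hx (le_trans (by gcongr) hxT) hxB (le_trans (by gcongr) hL) g hgv P hP hPe Cst hCst
  obtain ⟨Ω, hΩ⟩ : ∃ Ω : ℝ, Ω = (om k (d + 2) L).card := ⟨_, rfl⟩
  have hΩ0 : 0 ≤ Ω := by rw [hΩ]; positivity
  rw [← hΩ] at hexc ⊢
  -- the events
  obtain ⟨E1, hE1⟩ : ∃ E1 : Finset (Fin k → Fin (d + 2) → ℤ), E1 = (om k (d + 2) L).filter (fun b => ¬ |((((Icc 1 x).filter (fun n : ℕ => ∀ j, ((psys W g b j).eval (n : ℤ)).natAbs.Prime)).card : ℕ) : ℝ) *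
      (∏ j, Real.log |(((psys W g b j).eval (x : ℤ) : ℤ) : ℝ)|) / x - Cst| ≤ ε / 2 * Cst) := ⟨_, rfl⟩
  rw [← hE1] at hexc
  by_cases hbig : T * (d + 1) * ell d x L ≤ x
  swap
  · have hsub : (om k (d + 2) L).filter (fun b => ¬ (|((((Icc 1 x).filter (fun n : ℕ => ∀ j, ((psys W g b j).eval (n : ℤ)).natAbs.Prime)).card : ℕ) : ℝ) *
      (∏ j, Real.log |(((psys W g b j).eval (x : ℤ) : ℤ) : ℝ)|) / x - Cst| ≤ ε * Cst ∧
      (T * (d + 1) * ell d x L ≤ x → Proper (psys W g b)))) ⊆ E1 := by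
      intro b hb
      rw [mem_filter] at hb
      rw [hE1, mem_filter]
      refine ⟨hb.1, fun h => hb.2 ⟨h.trans ?_, fun h' => absurd h' hbig⟩⟩
      apply mul_le_mul_of_nonneg_right _ hC0.le
      linarith
    have h1 : (((om k (d + 2) L).filter (fun b => ¬ (|((((Icc 1 x).filter (fun n : ℕ => ∀ j, ((psys W g b j).eval (n : ℤ)).natAbs.Prime)).card : ℕ) : ℝ) *
      (∏ j, Real.log |(((psys W g b j).eval (x : ℤ) : ℤ) : ℝ)|) / x - Cst| ≤ ε * Cst ∧
      (T * (d + 1) * ell d x L ≤ x → Proper (psys W g b))))).card : ℝ) ≤ E1.card := by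
      exact_mod_cast card_le_card hsub
    refine h1.trans (hexc.trans ?_)
    apply mul_le_mul_of_nonneg_right _ hΩ0
    linarith
  -- the reducible ones
  have hTl : T2 * ell d x L ^ 1 ≤ x := by
    rw [pow_one]
    refine le_trans ?_ hbig
    have e1 : T * 1 ≤ T * (d + 1) := by
      apply mul_le_mul_of_nonneg_left _ hTpos.le
      linarith
    have e2 : T2 ≤ T * (d + 1) := by linarith
    exact mul_le_mul_of_nonneg_right e2 hl0
  obtain ⟨Q, hQ⟩ : ∃ Q : Fin k → (Fin (d + 2) → ℤ) → Prop, Q = fun j b => ¬ Irreducible (psys W (fun _ : Fin 1 => g j) (fun _ => b) 0) := ⟨_, rfl⟩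
  have hred : ∀ j, (((om k (d + 2) L).filter (fun b => ¬ Irreducible (psys W g b j))).card : ℝ) ≤ ε' * Ω := by
    intro j
    obtain ⟨Cj, hCj⟩ : ∃ Cj : ℝ, Cj = rho W ^ 1 * ((((range W).filter (fun n : ℕ => IsCoprime ((g j).eval (n : ℤ)) (W : ℤ))).card : ℝ) / W) := ⟨_, rfl⟩
    obtain ⟨m, hm⟩ := hPe
    obtain ⟨hCj0, _, hlogj, hexcj⟩ := hT2 d x L hx hTl hxB (le_trans (by gcongr) hL) (fun _ => g j) (fun _ => hgv j)
      (fun n : ℕ => IsCoprime ((g j).eval (n : ℤ)) (W : ℤ)) (fun n => ⟨fun h _ => h, fun h => h 0⟩)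
      ⟨m, (hP m).1 hm j⟩ Cj hCj
    have hCj1 : 1 / (W : ℝ) ≤ Cj := by
      have h1 : 1 ≤ ((range W).filter (fun n : ℕ => IsCoprime ((g j).eval (n : ℤ)) (W : ℤ))).card := by
        rw [Nat.one_le_iff_ne_zero]
        intro h
        rw [hCj, h] at hCj0
        simp at hCj0
      have h2 : (1 : ℝ) ≤ (((range W).filter (fun n : ℕ => IsCoprime ((g j).eval (n : ℤ)) (W : ℤ))).card : ℝ) := by
        exact_mod_cast h1
      have hρ : 1 ≤ rho W := rho_ge hW
      rw [hCj, pow_one]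
      calc 1 / (W : ℝ) = 1 * (1 / W) := by ring
        _ ≤ rho W * ((((range W).filter (fun n : ℕ => IsCoprime ((g j).eval (n : ℤ)) (W : ℤ))).card : ℝ) / W) := by gcongr
    have h1 : ((om 1 (d + 2) L).filter (fun b => ¬ Irreducible (psys W (fun _ : Fin 1 => g j) (fun _ => b 0) 0))) ⊆
        ((om 1 (d + 2) L).filter (fun b => ¬ |((((Icc 1 x).filter (fun n : ℕ => ∀ i, ((psys W (fun _ : Fin 1 => g j) b i).eval (n : ℤ)).natAbs.Prime)).card : ℕ) : ℝ) *
          (∏ i, Real.log |(((psys W (fun _ : Fin 1 => g j) b i).eval (x : ℤ) : ℤ) : ℝ)|) / x - Cj| ≤ ε' * Cj)) := by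
      intro b hb
      rw [mem_filter] at hb ⊢
      refine ⟨hb.1, fun h => ?_⟩
      have e0 : (fun _ : Fin 1 => b 0) = b := by
        funext i
        rw [Subsingleton.elim i 0]
      rw [e0] at hb
      have h2 := red_primes _ hb.2 x
      have h3 := psys_natDegree (by omega : d + 1 ≤ 2 * (d + 1)) W (fun _ : Fin 1 => g j) (fun _ => hgd j) b 0
      have h4 : ((((Icc 1 x).filter (fun n : ℕ => ∀ i, ((psys W (fun _ : Fin 1 => g j) b i).eval (n : ℤ)).natAbs.Prime)).card : ℕ) : ℝ) ≤ 4 * (d + 1) := by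
        have e1 : (Icc 1 x).filter (fun n : ℕ => ∀ i, ((psys W (fun _ : Fin 1 => g j) b i).eval (n : ℤ)).natAbs.Prime) =
            (Icc 1 x).filter (fun n : ℕ => ((psys W (fun _ : Fin 1 => g j) b 0).eval (n : ℤ)).natAbs.Prime) := by
          apply filter_congr
          intro n _
          exact ⟨fun h => h 0, fun h i => by rw [Subsingleton.elim i 0]; exact h⟩
        rw [e1]
        have : ((Icc 1 x).filter (fun n : ℕ => ((psys W (fun _ : Fin 1 => g j) b 0).eval (n : ℤ)).natAbs.Prime)).card ≤ 4 * (d + 1) := by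
          omega
        exact_mod_cast this
      have h5 := (abs_le.1 h).1
      have h6 := hlogj b hb.1 0
      have h7 : ∏ i, Real.log |(((psys W (fun _ : Fin 1 => g j) b i).eval (x : ℤ) : ℤ) : ℝ)| =
          Real.log |(((psys W (fun _ : Fin 1 => g j) b 0).eval (x : ℤ) : ℤ) : ℝ)| := by
        simp
      rw [h7] at h5
      obtain ⟨Nn, hNn⟩ : ∃ Nn : ℝ, Nn = ((((Icc 1 x).filter (fun n : ℕ => ∀ i, ((psys W (fun _ : Fin 1 => g j) b i).eval (n : ℤ)).natAbs.Prime)).card : ℕ) : ℝ) := ⟨_, rfl⟩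
      rw [← hNn] at h4 h5
      have hNn0 : 0 ≤ Nn := by rw [hNn]; positivity
      obtain ⟨lg, hlg⟩ : ∃ lg : ℝ, lg = Real.log |(((psys W (fun _ : Fin 1 => g j) b 0).eval (x : ℤ) : ℤ) : ℝ)| := ⟨_, rfl⟩
      rw [← hlg] at h5 h6
      have h8 : Nn * lg / x ≤ (4 * (d + 1)) * (2 * ell d x L) / x := by
        apply div_le_div_of_nonneg_right _ hx0.le
        calc Nn * lg ≤ Nn * (2 * ell d x L) := by gcongr
          _ ≤ _ := by gcongr
      have h9 : (4 * ((d : ℝ) + 1)) * (2 * ell d x L) / x ≤ 8 / T := by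
        rw [div_le_div_iff₀ hx0 hTpos]
        calc 4 * ((d : ℝ) + 1) * (2 * ell d x L) * T = 8 * (T * (d + 1) * ell d x L) := by ring
          _ ≤ 8 * x := by linarith
      have h10 : 8 / T < 1 / (2 * W) := by
        rw [div_lt_div_iff₀ hTpos (by positivity)]
        linarith
      have h11 : (1 / (2 * (W : ℝ))) ≤ Cj - ε' * Cj := by
        have e1 : ε' * Cj ≤ 1 / 4 * Cj := by gcongr
        have e2 : 1 / (2 * (W : ℝ)) = 1 / 2 * (1 / W) := by field_simp
        rw [e2]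
        have e3 : 1 / 2 * (1 / (W : ℝ)) ≤ 1 / 2 * Cj := by gcongr
        linarith
      linarith
    have h2 : (((om 1 (d + 2) L).filter (fun b => ¬ Irreducible (psys W (fun _ : Fin 1 => g j) (fun _ => b 0) 0))).card : ℝ) ≤
        ε' * (om 1 (d + 2) L).card := le_trans (by exact_mod_cast card_le_card h1) hexcj
    rw [om_one_eq (d + 2) L (fun b => ¬ Irreducible (psys W (fun _ : Fin 1 => g j) (fun _ => b) 0)), om_card, pow_one] at h2
    have h3 := om_one k (d + 2) L j (fun b => ¬ Irreducible (psys W (fun _ : Fin 1 => g j) (fun _ => b) 0)) ε' h2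
    rw [← hΩ] at h3
    refine le_trans (le_of_eq ?_) h3
    rfl
  -- the union
  have hsub : (om k (d + 2) L).filter (fun b => ¬ (|((((Icc 1 x).filter (fun n : ℕ => ∀ j, ((psys W g b j).eval (n : ℤ)).natAbs.Prime)).card : ℕ) : ℝ) *
      (∏ j, Real.log |(((psys W g b j).eval (x : ℤ) : ℤ) : ℝ)|) / x - Cst| ≤ ε * Cst ∧
      (T * (d + 1) * ell d x L ≤ x → Proper (psys W g b)))) ⊆
      (E1 ∪ (univ : Finset (Fin k)).biUnion (fun j => (om k (d + 2) L).filter (fun b => ¬ Irreducible (psys W g b j)))) ∪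
      ((univ : Finset (Fin k)).biUnion (fun j => (om k (d + 2) L).filter (fun b => (psys W g b j).natDegree = 0)) ∪
      ((univ : Finset (Fin k × Fin k)).filter (fun q => q.1 ≠ q.2)).biUnion (fun q =>
        (om k (d + 2) L).filter (fun b => psys W g b q.1 = C 1 * psys W g b q.2) ∪
        (om k (d + 2) L).filter (fun b => psys W g b q.1 = C (-1) * psys W g b q.2))) := by
    intro b hb
    rw [mem_filter] at hb
    obtain ⟨hb1, hb2⟩ := hb
    by_contra hcon
    rw [mem_union, mem_union, mem_union, not_or, not_or, not_or] at hcon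
    obtain ⟨⟨hc1, hc2⟩, hc3, hc4⟩ := hcon
    rw [mem_biUnion] at hc2 hc3 hc4
    push Not at hc2 hc3 hc4
    apply hb2
    refine ⟨?_, fun _ => ⟨fun j => ⟨?_, ?_⟩, fun i j hij => ⟨?_, ?_⟩⟩⟩
    · rw [hE1, mem_filter] at hc1
      push Not at hc1
      refine (hc1 hb1).trans ?_
      apply mul_le_mul_of_nonneg_right _ hC0.le
      linarith
    · have := hc2 j (mem_univ j)
      rw [mem_filter] at this
      push Not at this
      exact this hb1
    · have := hc3 j (mem_univ j)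
      rw [mem_filter] at this
      push Not at this
      exact Nat.pos_of_ne_zero (this hb1)
    · have := hc4 (i, j) (mem_filter.2 ⟨mem_univ _, hij⟩)
      rw [mem_union, mem_filter, mem_filter] at this
      push Not at this
      have h1 := this.1 hb1
      simp only [C_1, one_mul] at h1
      exact h1
    · have := hc4 (i, j) (mem_filter.2 ⟨mem_univ _, hij⟩)
      rw [mem_union, mem_filter, mem_filter] at this
      push Not at this
      have h1 := this.2 hb1
      simp only [C_neg, C_1, neg_mul, one_mul] at h1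
      exact h1
  have hcards := (card_le_card hsub).trans (card_union_le _ _)
  have hc1 := card_union_le E1 ((univ : Finset (Fin k)).biUnion (fun j => (om k (d + 2) L).filter (fun b => ¬ Irreducible (psys W g b j))))
  have hc2 := card_union_le ((univ : Finset (Fin k)).biUnion (fun j => (om k (d + 2) L).filter (fun b => (psys W g b j).natDegree = 0)))
      (((univ : Finset (Fin k × Fin k)).filter (fun q => q.1 ≠ q.2)).biUnion (fun q =>
        (om k (d + 2) L).filter (fun b => psys W g b q.1 = C 1 * psys W g b q.2) ∪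
        (om k (d + 2) L).filter (fun b => psys W g b q.1 = C (-1) * psys W g b q.2)))
  have hr1 : (((univ : Finset (Fin k)).biUnion (fun j => (om k (d + 2) L).filter (fun b => ¬ Irreducible (psys W g b j)))).card : ℝ) ≤
      k * (ε' * Ω) := by
    have h1 : ((univ : Finset (Fin k)).biUnion (fun j => (om k (d + 2) L).filter (fun b => ¬ Irreducible (psys W g b j)))).card ≤ _ := card_biUnion_le
    have h2 := (Nat.cast_le (α := ℝ)).2 h1
    rw [Nat.cast_sum] at h2
    refine h2.trans ?_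
    refine (sum_le_sum fun j _ => hred j).trans ?_
    rw [sum_const, card_univ, Fintype.card_fin, nsmul_eq_mul]
  have hr2 : (((univ : Finset (Fin k)).biUnion (fun j => (om k (d + 2) L).filter (fun b => (psys W g b j).natDegree = 0))).card : ℝ) ≤
      k * (1 / L * Ω) := by
    have h1 : ((univ : Finset (Fin k)).biUnion (fun j => (om k (d + 2) L).filter (fun b => (psys W g b j).natDegree = 0))).card ≤ _ := card_biUnion_le
    have h2 := (Nat.cast_le (α := ℝ)).2 h1
    rw [Nat.cast_sum] at h2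
    refine h2.trans ?_
    refine (sum_le_sum fun j _ => (const_count W hW L hL0 (by omega : 1 ≤ d + 1) g j)).trans ?_
    rw [sum_const, card_univ, Fintype.card_fin, nsmul_eq_mul, hΩ]
  have hr3 : (((((univ : Finset (Fin k × Fin k)).filter (fun q => q.1 ≠ q.2)).biUnion (fun q =>
        (om k (d + 2) L).filter (fun b => psys W g b q.1 = C 1 * psys W g b q.2) ∪
        (om k (d + 2) L).filter (fun b => psys W g b q.1 = C (-1) * psys W g b q.2))).card : ℕ) : ℝ) ≤
      (k : ℝ) ^ 2 * (2 * (1 / L * Ω)) := by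
    have h1 : (((univ : Finset (Fin k × Fin k)).filter (fun q => q.1 ≠ q.2)).biUnion (fun q =>
        (om k (d + 2) L).filter (fun b => psys W g b q.1 = C 1 * psys W g b q.2) ∪
        (om k (d + 2) L).filter (fun b => psys W g b q.1 = C (-1) * psys W g b q.2))).card ≤ _ := card_biUnion_le
    have h2 := (Nat.cast_le (α := ℝ)).2 h1
    rw [Nat.cast_sum] at h2
    refine h2.trans ?_
    have h3 : ∀ q ∈ (univ : Finset (Fin k × Fin k)).filter (fun q => q.1 ≠ q.2),
        (((om k (d + 2) L).filter (fun b => psys W g b q.1 = C 1 * psys W g b q.2) ∪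
        (om k (d + 2) L).filter (fun b => psys W g b q.1 = C (-1) * psys W g b q.2)).card : ℝ) ≤ 2 * (1 / L * Ω) := by
      intro q hq
      rw [mem_filter] at hq
      have h4 := equal_count W hW L hL0 (D := d + 1) g q.1 q.2 hq.2 1
      have h5 := equal_count W hW L hL0 (D := d + 1) g q.1 q.2 hq.2 (-1)
      have h6 := (Nat.cast_le (α := ℝ)).2 (card_union_le ((om k (d + 2) L).filter (fun b => psys W g b q.1 = C 1 * psys W g b q.2))
        ((om k (d + 2) L).filter (fun b => psys W g b q.1 = C (-1) * psys W g b q.2)))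
      rw [Nat.cast_add] at h6
      have e : ((om k (d + 1 + 1) L).card : ℝ) = Ω := by rw [hΩ]
      rw [e] at h4 h5
      linarith
    refine (sum_le_sum h3).trans ?_
    rw [sum_const, nsmul_eq_mul]
    apply mul_le_mul_of_nonneg_right _ (by positivity)
    have h4 := card_filter_le (univ : Finset (Fin k × Fin k)) (fun q => q.1 ≠ q.2)
    rw [card_univ, Fintype.card_prod, Fintype.card_fin] at h4
    have h5 := (Nat.cast_le (α := ℝ)).2 h4
    rw [Nat.cast_mul] at h5
    rw [sq]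
    exact h5
  have hcards' := (Nat.cast_le (α := ℝ)).2 hcards
  have hc1' := (Nat.cast_le (α := ℝ)).2 hc1
  have hc2' := (Nat.cast_le (α := ℝ)).2 hc2
  rw [Nat.cast_add] at hcards' hc1' hc2'
  have hk1 : (k : ℝ) * (ε' * Ω) ≤ ε / 4 * Ω := by
    rw [← mul_assoc]
    apply mul_le_mul_of_nonneg_right _ hΩ0
    rw [hε', mul_div_assoc', div_le_div_iff₀ (by positivity) (by norm_num)]
    nlinarith
  have hk2 : (k : ℝ) * (1 / L * Ω) + (k : ℝ) ^ 2 * (2 * (1 / L * Ω)) ≤ ε / 4 * Ω := by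
    have e1 : (k : ℝ) * (1 / L * Ω) + (k : ℝ) ^ 2 * (2 * (1 / L * Ω)) = ((k : ℝ) + 2 * (k : ℝ) ^ 2) / L * Ω := by
      field_simp
    rw [e1]
    apply mul_le_mul_of_nonneg_right _ hΩ0
    have e2 : 12 * ((k : ℝ) + 1) ^ 2 / ε ≤ L := hTd.trans hLT
    rw [div_le_iff₀ hε0] at e2
    rw [div_le_div_iff₀ hL0' (by norm_num)]
    nlinarith
  linarith

end Pool.Agent.K1H93.SH
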